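import Mathlib

/-!
# Internal groupoids and torsors on a site

For an internal groupoid `G = (R ⇉ U)` in a category `C` with a Grothendieck topology `J` we
define the category of `G`-torsors over an object `S` of `C`: sheaves of sets on `Over S` with a
simply transitive action of `G` which are locally nonempty.
-/

open CategoryTheory Opposite

universe v u

namespace Stk90

/-- An internal groupoid in the category `C`, described by its functor of points. -/
structure IntGroupoid (C : Type u) [Category.{v} C] where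
  /-- the object of objects -/
  U : C
  /-- the object of arrows -/
  R : C
  /-- the source -/
  s : R ⟶ U
  /-- the target -/
  t : R ⟶ U
  /-- the identity -/
  e : U ⟶ R
  /-- the inverse -/
  inv : R ⟶ R
  /-- the composition of composable arrows -/
  comp : ∀ {T : C} (g h : T ⟶ R), g ≫ t = h ≫ s → (T ⟶ R)
  comp_nat : ∀ {T T' : C} (k : T' ⟶ T) (g h : T ⟶ R) (w : g ≫ t = h ≫ s),
    k ≫ comp g h w = comp (k ≫ g) (k ≫ h) (by rw [Category.assoc, w, Category.assoc])
  e_s : e ≫ s = 𝟙 U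
  e_t : e ≫ t = 𝟙 U
  inv_s : inv ≫ s = t
  inv_t : inv ≫ t = s
  comp_s : ∀ {T : C} (g h : T ⟶ R) (w : g ≫ t = h ≫ s), comp g h w ≫ s = g ≫ s
  comp_t : ∀ {T : C} (g h : T ⟶ R) (w : g ≫ t = h ≫ s), comp g h w ≫ t = h ≫ t
  assoc : ∀ {T : C} (g h k : T ⟶ R) (w : g ≫ t = h ≫ s) (w' : h ≫ t = k ≫ s),
    comp (comp g h w) k (by rw [comp_t, w']) = comp g (comp h k w') (by rw [comp_s, w])
  id_comp : ∀ {T : C} (g : T ⟶ R),
    comp (g ≫ s ≫ e) g (by rw [Category.assoc, Category.assoc, e_t, Category.comp_id]) = g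
  comp_id : ∀ {T : C} (g : T ⟶ R),
    comp g (g ≫ t ≫ e) (by rw [Category.assoc, Category.assoc, e_s, Category.comp_id]) = g
  inv_comp : ∀ {T : C} (g : T ⟶ R),
    comp (g ≫ inv) g (by rw [Category.assoc, inv_t]) = g ≫ t ≫ e
  comp_inv : ∀ {T : C} (g : T ⟶ R),
    comp g (g ≫ inv) (by rw [Category.assoc, inv_s]) = g ≫ s ≫ e

variable {C : Type u} [Category.{v} C]

/-- A torsor under the groupoid `G` over the object `S`. -/
structure Tors (G : IntGroupoid C) (J : GrothendieckTopology C) (S : C) where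
  /-- the underlying sheaf -/
  P : (Over S)ᵒᵖ ⥤ Type (max u v)
  isSheaf : Presieve.IsSheaf (J.over S) P
  /-- the anchor -/
  a : ∀ {T : Over S}, P.obj (op T) → (T.left ⟶ G.U)
  a_nat : ∀ {T T' : Over S} (k : T' ⟶ T) (p : P.obj (op T)), a (P.map k.op p) = k.left ≫ a p
  /-- the unique arrow from one section to another -/
  r : ∀ {T : Over S}, P.obj (op T) → P.obj (op T) → (T.left ⟶ G.R)
  r_nat : ∀ {T T' : Over S} (k : T' ⟶ T) (p q : P.obj (op T)),
    r (P.map k.op p) (P.map k.op q) = k.left ≫ r p q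
  r_s : ∀ {T : Over S} (p q : P.obj (op T)), r p q ≫ G.s = a p
  r_t : ∀ {T : Over S} (p q : P.obj (op T)), r p q ≫ G.t = a q
  r_comp : ∀ {T : Over S} (p q l : P.obj (op T)),
    G.comp (r p q) (r q l) (by rw [r_s, r_t]) = r p l
  trans : ∀ {T : Over S} (p : P.obj (op T)) (g : T.left ⟶ G.R), g ≫ G.s = a p →
    ∃! q : P.obj (op T), r p q = g
  locally : ∃ K ∈ J S, ∀ ⦃Y : C⦄ (k : Y ⟶ S), K k → Nonempty (P.obj (op (Over.mk k)))

namespace Tors

variable {G : IntGroupoid C} {J : GrothendieckTopology C} {S : C}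

/-- Morphisms of torsors. -/
@[ext]
structure Hom (M N : Tors G J S) where
  /-- the underlying morphism of presheaves -/
  f : M.P ⟶ N.P
  a_f : ∀ {T : Over S} (p : M.P.obj (op T)), N.a (f.app _ p) = M.a p
  r_f : ∀ {T : Over S} (p q : M.P.obj (op T)), N.r (f.app _ p) (f.app _ q) = M.r p q

instance : Category (Tors G J S) where
  Hom M N := Hom M N
  id M := { f := 𝟙 _, a_f := fun p => rfl, r_f := fun p q => rfl }
  comp φ ψ :=
    { f := φ.f ≫ ψ.f
      a_f := fun p => by
        rw [NatTrans.comp_app, types_comp_apply, ψ.a_f, φ.a_f]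
      r_f := fun p q => by
        rw [NatTrans.comp_app, types_comp_apply, types_comp_apply, ψ.r_f, φ.r_f] }

@[simp] lemma id_f (M : Tors G J S) : Hom.f (𝟙 M) = 𝟙 M.P := rfl

@[simp, reassoc] lemma comp_f {M N L : Tors G J S} (φ : M ⟶ N) (ψ : N ⟶ L) :
    (φ ≫ ψ).f = φ.f ≫ ψ.f := rfl

@[ext] lemma hom_ext {M N : Tors G J S} {φ ψ : M ⟶ N} (h : φ.f = ψ.f) : φ = ψ := Hom.ext h

lemma f_nat {M N : Tors G J S} (φ : M ⟶ N) {T T' : (Over S)ᵒᵖ} (k : T ⟶ T') (x : M.P.obj T) :
    N.P.map k (φ.f.app T x) = φ.f.app T' (M.P.map k x) := by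
  have h1 := congrArg (fun g => g x) (φ.f.naturality k)
  simp only [types_comp_apply] at h1
  exact h1.symm

lemma idem_eq {T : C} (g : T ⟶ G.R) (w : g ≫ G.t = g ≫ G.s) (h : G.comp g g w = g) :
    g = g ≫ G.s ≫ G.e := by
  have h1 : G.comp (G.comp (g ≫ G.inv) g (by rw [Category.assoc, G.inv_t])) g
      (by rw [G.comp_t, w]) = G.comp (g ≫ G.inv) (G.comp g g w)
      (by rw [G.comp_s, Category.assoc, G.inv_t]) := G.assoc _ _ _ _ _
  have h2 : G.comp (g ≫ G.inv) (G.comp g g w) (by rw [G.comp_s, Category.assoc, G.inv_t]) =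
      g ≫ G.t ≫ G.e := by
    rw [← G.inv_comp g]; congr 1
  have h3 : G.comp (G.comp (g ≫ G.inv) g (by rw [Category.assoc, G.inv_t])) g
      (by rw [G.comp_t, w]) = g := by
    have : G.comp (g ≫ G.inv) g (by rw [Category.assoc, G.inv_t]) = g ≫ G.s ≫ G.e := by
      rw [G.inv_comp g, ← Category.assoc, w, Category.assoc]
    calc _ = G.comp (g ≫ G.s ≫ G.e) g (by
          rw [Category.assoc, Category.assoc, G.e_t, Category.comp_id]) := by congr 1
      _ = g := G.id_comp g
  rw [← h3, h1, h2]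
  have := congrArg (fun k => k ≫ G.e) w
  simp only [Category.assoc] at this
  rw [this]
  have h4 : g ≫ G.s ≫ G.e ≫ G.s ≫ G.e = g ≫ G.s ≫ G.e := by
    rw [← Category.assoc G.e, G.e_s, Category.id_comp]
  simp only [Category.assoc]
  rw [h4]

lemma r_self (M : Tors G J S) {T : Over S} (p : M.P.obj (op T)) : M.r p p = M.a p ≫ G.e := by
  have := idem_eq (M.r p p) (by rw [M.r_s, M.r_t]) (M.r_comp p p p)
  rw [this, ← Category.assoc, M.r_s]

lemma r_inj (M : Tors G J S) {T : Over S} {p q q' : M.P.obj (op T)} (h : M.r p q = M.r p q') :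
    q = q' :=
  (M.trans p (M.r p q) (M.r_s p q)).unique rfl h.symm

lemma f_injective {M N : Tors G J S} (φ : M ⟶ N) {T : Over S} {p q : M.P.obj (op T)}
    (h : φ.f.app _ p = φ.f.app _ q) : p = q := by
  apply M.r_inj (p := p)
  rw [← φ.r_f, ← φ.r_f, h]

lemma locally_over (M : Tors G J S) (T : Over S) : ∃ K ∈ (J.over S) T,
    ∀ ⦃T' : Over S⦄ (k : T' ⟶ T), K k → Nonempty (M.P.obj (op T')) := by
  obtain ⟨K, hK, hne⟩ := M.locally
  refine ⟨(Sieve.overEquiv T).symm (K.pullback T.hom),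
    J.overEquiv_symm_mem_over _ _ (J.pullback_stable _ hK), fun T' k hk => ?_⟩
  rw [Sieve.overEquiv_symm_iff] at hk
  have h2 : K T'.hom := by
    have := hk
    rw [Sieve.pullback_apply, Over.w k] at this
    exact this
  exact hne _ h2

lemma f_surjective {M N : Tors G J S} (φ : M ⟶ N) {T : Over S} (y : N.P.obj (op T)) :
    ∃ p : M.P.obj (op T), φ.f.app _ p = y := by
  classical
  obtain ⟨K, hK, hne⟩ := M.locally_over T
  have hloc : ∀ ⦃T' : Over S⦄ (k : T' ⟶ T), K k → ∃ p : M.P.obj (op T'),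
      φ.f.app _ p = N.P.map k.op y := by
    intro T' k hk
    obtain ⟨p⟩ := hne k hk
    obtain ⟨q, hq, -⟩ := M.trans p (N.r (φ.f.app _ p) (N.P.map k.op y)) (by
      rw [N.r_s, φ.a_f])
    refine ⟨q, N.r_inj (p := φ.f.app _ p) ?_⟩
    rw [φ.r_f, hq]
  choose x hx using hloc
  have hcomp : Presieve.FamilyOfElements.SieveCompatible
      (fun T' k hk => x k hk : Presieve.FamilyOfElements M.P K.arrows) := by
    intro T' T'' k l hk
    apply f_injective φ
    rw [hx]
    have h1 := congrArg (fun g => g (x k hk)) (φ.f.naturality l.op)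
    simp only [types_comp_apply] at h1
    rw [h1, hx]
    simp
  have hs := M.isSheaf K hK
  rw [← Presieve.compatible_iff_sieveCompatible] at hcomp
  obtain ⟨p, hp, -⟩ := hs _ hcomp
  refine ⟨p, ?_⟩
  refine (N.isSheaf K hK).isSeparatedFor.ext fun T' k hk => ?_
  have h1 := congrArg (fun g => g p) (φ.f.naturality k.op)
  simp only [types_comp_apply] at h1
  rw [← h1, hp k hk, hx]

lemma app_bijective {M N : Tors G J S} (φ : M ⟶ N) (T : Over S) :
    Function.Bijective (φ.f.app (op T)) :=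
  ⟨fun _ _ h => f_injective φ h, fun y => f_surjective φ y⟩

instance isIso {M N : Tors G J S} (φ : M ⟶ N) : IsIso φ := by
  have hi : ∀ T : (Over S)ᵒᵖ, IsIso (φ.f.app T) := fun T =>
    (isIso_iff_bijective _).2 (app_bijective φ T.unop)
  have : IsIso φ.f := NatIso.isIso_of_isIso_app _
  refine ⟨⟨{ f := inv φ.f, a_f := ?_, r_f := ?_ }, ?_, ?_⟩⟩
  · intro T p
    rw [← φ.a_f]
    congr 1
    have := congrArg (fun g => g.app (op T) p) (IsIso.inv_hom_id φ.f)
    simpa using this
  · intro T p q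
    rw [← φ.r_f]
    have h1 := congrArg (fun g => g.app (op T) p) (IsIso.inv_hom_id φ.f)
    have h2 := congrArg (fun g => g.app (op T) q) (IsIso.inv_hom_id φ.f)
    simp only [NatTrans.comp_app, types_comp_apply] at h1 h2
    congr 1
  · ext1
    exact IsIso.hom_inv_id φ.f
  · ext1
    exact IsIso.inv_hom_id φ.f

end Tors

end Stk90
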