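import Mathlib

/-!
# Algebraic stacks and affine morphisms: the definitions

A stack is a Mathlib pseudofunctor `F : (LocallyDiscrete Schemeᵒᵖ) ⥤ᵖ Cat` with the Mathlib
property `F.IsStack J` (descent for morphisms and effective descent for objects for the
topology `J`). An object `x` of `F` over a scheme `X` is the same as a morphism from `X` to the
stack.
-/

open CategoryTheory Opposite Limits AlgebraicGeometry

universe w v' u' v u

namespace Stk90

section

variable {C : Type u} [Category.{v} C]

open Pseudofunctor.LocallyDiscreteOpToCat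

/-- The objects of `F` over `X`. -/
abbrev Obj (F : Pseudofunctor (LocallyDiscrete Cᵒᵖ) Cat.{v', u'}) (X : C) : Type u' :=
  F.obj (.mk (op X))

/-- The pull back functor of `F` along a morphism. -/
abbrev pull (F : Pseudofunctor (LocallyDiscrete Cᵒᵖ) Cat.{v', u'}) {X Y : C} (a : X ⟶ Y) :
    Obj F Y ⥤ Obj F X :=
  (F.map a.op.toLoc).toFunctor

variable (F : Pseudofunctor (LocallyDiscrete Cᵒᵖ) Cat.{v', u'})

/-- The pairs of a morphism `a : T ⟶ X` and a morphism from the pull back of `x` along `a` to the
pull back of `M` along `b : T ⟶ S`. -/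
abbrev Sec {X S T : C} (x : Obj F X) (M : Obj F S) (b : T ⟶ S) : Type (max v v') :=
  (a : T ⟶ X) × ((pull F a).obj x ⟶ (pull F b).obj M)

variable {F} {X S T T' T'' : C} {x : Obj F X} {M : Obj F S}

/-- The restriction of such a pair along a morphism `g : T' ⟶ T`. -/
abbrev Sec.restr {b : T ⟶ S} (g : T' ⟶ T) {b' : T' ⟶ S} (h : g ≫ b = b') (z : Sec F x M b) :
    Sec F x M b' :=
  ⟨g ≫ z.1, pullHom z.2 g (g ≫ z.1) b' rfl h⟩

theorem Sec.restr_id {b : T ⟶ S} (h : 𝟙 T ≫ b = b) (z : Sec F x M b) : z.restr (𝟙 T) h = z := by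
  obtain ⟨a, φ⟩ := z
  have key : ∀ (c : T ⟶ X) (hc : 𝟙 T ≫ a = c),
      (⟨c, pullHom φ (𝟙 T) c b hc h⟩ : Sec F x M b) = ⟨a, φ⟩ := by
    intro c hc
    rw [Category.id_comp] at hc
    subst hc
    rw [pullHom_id]
  exact key _ rfl

theorem Sec.restr_restr {b : T ⟶ S} (g : T' ⟶ T) {b' : T' ⟶ S} (h : g ≫ b = b') (k : T'' ⟶ T')
    {b'' : T'' ⟶ S} (h' : k ≫ b' = b'') (h'' : (k ≫ g) ≫ b = b'') (z : Sec F x M b) :
    z.restr (k ≫ g) h'' = (z.restr g h).restr k h' := by
  obtain ⟨a, φ⟩ := z
  have key : ∀ (c : T'' ⟶ X) (hc : (k ≫ g) ≫ a = c) (hc' : k ≫ g ≫ a = c),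
      (⟨c, pullHom φ (k ≫ g) c b'' hc h''⟩ : Sec F x M b'') =
        ⟨c, pullHom (pullHom φ g (g ≫ a) b' rfl h) k c b'' hc' h'⟩ := by
    intro c hc hc'
    rw [pullHom_pullHom]
  have e : (k ≫ g) ≫ a = k ≫ g ≫ a := Category.assoc _ _ _
  refine Eq.trans ?_ (key (k ≫ g ≫ a) e rfl)
  have key2 : ∀ (c : T'' ⟶ X) (hc : (k ≫ g) ≫ a = c),
      (⟨(k ≫ g) ≫ a, pullHom φ (k ≫ g) ((k ≫ g) ≫ a) b'' rfl h''⟩ : Sec F x M b'') =
        ⟨c, pullHom φ (k ≫ g) c b'' hc h''⟩ := by
    intro c hc
    subst hc
    rfl
  exact key2 _ e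

variable (F x M)

/-- For objects `x` over `X` and `M` over `S` this is the presheaf of sets on `Over S` whose
sections over `b : T ⟶ S` are the pairs of a morphism `a : T ⟶ X` and a morphism from the pull
back of `x` along `a` to the pull back of `M` along `b`. When the fibres of `F` are groupoids it
is the fibre product of `X` and `S` over `F`, seen as a presheaf over `S`. -/
def fibre : (Over S)ᵒᵖ ⥤ Type (max v v') where
  obj T := Sec F x M T.unop.hom
  map k := ↾(Sec.restr k.unop.left (Over.w k.unop))
  map_id T := ConcreteCategory.hom_ext _ _ fun z => Sec.restr_id (Category.id_comp _) z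
  map_comp k l := ConcreteCategory.hom_ext _ _ fun z => Sec.restr_restr _ (Over.w k.unop) _
    (Over.w l.unop) _ z

/-- The presheaf `P` on `Over S` is representable by an object `Z ⟶ S` of `Over S` whose
structure map has the property `Q`. -/
def RepOver {S : C} (P : (Over S)ᵒᵖ ⥤ Type w) (Q : MorphismProperty C) : Prop :=
  ∃ (Z : C) (z : Z ⟶ S), Q z ∧ Nonempty (P.RepresentableBy (Over.mk z))

/-- The presheaf `P` on `Over S` is, locally on `S` for the topology `J`, representable by an
object whose structure map has the property `Q`. -/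
def LocRep (J : GrothendieckTopology C) {S : C} (P : (Over S)ᵒᵖ ⥤ Type w)
    (Q : MorphismProperty C) : Prop :=
  ∃ K ∈ J S, ∀ ⦃T : C⦄ (k : T ⟶ S), K k → RepOver ((Over.map k).op ⋙ P) Q

end

/-- The presheaf `P` on `Over S` is representable by an affine scheme. -/
def RepAffine {S : Scheme.{u}} (P : (Over S)ᵒᵖ ⥤ Type w) : Prop :=
  ∃ (Z : Scheme.{u}) (z : Z ⟶ S), IsAffine Z ∧ Nonempty (P.RepresentableBy (Over.mk z))

/-- The object `x` over the scheme `U` is a smooth atlas: for every scheme `S` and every
object `M` over `S` the fibre product of `U` and `S` over the stack is, locally on `S` for the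
topology `J`, representable by a scheme which is smooth and surjective over the base. -/
def IsAtlas (J : GrothendieckTopology Scheme.{u})
    (F : Pseudofunctor (LocallyDiscrete Scheme.{u}ᵒᵖ) Cat.{v', u'}) {U : Scheme.{u}}
    (x : Obj F U) : Prop :=
  ∀ (S : Scheme.{u}) (M : Obj F S), LocRep J (fibre F x M) (@Smooth ⊓ @Surjective)

/-- An algebraic stack with quasi-compact and separated diagonal: a stack in groupoids on the
category of schemes with the topology `J` such that

* for objects `M` and `N` over a scheme `S` the sheaf of isomorphisms of `M` and `N` is, locally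
  on `S` for the topology `J`, representable by a scheme, quasi-compact and separated over the
  base (in particular it is an algebraic space, quasi-compact and separated over `S`);
* there is a smooth atlas. -/
structure IsAlgStack (J : GrothendieckTopology Scheme.{u})
    (F : Pseudofunctor (LocallyDiscrete Scheme.{u}ᵒᵖ) Cat.{v', u'}) : Prop where
  isStack : F.IsStack J
  isIso : ∀ {S : Scheme.{u}} {M N : Obj F S} (φ : M ⟶ N), IsIso φ
  diagonal : ∀ {S : Scheme.{u}} (M N : Obj F S),
    LocRep J (F.presheafHom M N) (@QuasiCompact ⊓ @IsSeparated)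
  atlas : ∃ (U : Scheme.{u}) (x : Obj F U), IsAtlas J F x

/-- The stabilisers of all field valued points are affine schemes. -/
def HasAffineStabilizers (F : Pseudofunctor (LocallyDiscrete Scheme.{u}ᵒᵖ) Cat.{v', u'}) : Prop :=
  ∀ (K : Type u) [Field K] (x : Obj F (Spec (.of K))), RepAffine (F.presheafHom x x)

/-- The morphism from `X` to the stack given by the object `x` over `X` is affine: for every
affine scheme `T` and every object `M` over `T` the fibre product of `X` and `T` over the stack
is an affine scheme. -/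
def IsAffineMap (F : Pseudofunctor (LocallyDiscrete Scheme.{u}ᵒᵖ) Cat.{v', u'}) {X : Scheme.{u}}
    (x : Obj F X) : Prop :=
  ∀ (T : Scheme.{u}) [IsAffine T] (M : Obj F T), RepAffine (fibre F x M)

end Stk90
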