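import Pool.Agent.Stk90.Bridge
import Pool.Agent.AFP.Final

/-!
# The explicit groupoid scheme
-/

open CategoryTheory Opposite Limits AlgebraicGeometry

attribute [local instance] Pool.Agent.AFP.open_phi_inst

namespace Stk90

open Pool.Agent.AFP

/-- A groupoid scheme over `S` as an internal groupoid in schemes. -/
noncomputable def ofSchemeGroupoid {S : Scheme.{0}} (G : SchemeGroupoid S) :
    IntGroupoid Scheme.{0} where
  U := G.Y
  R := G.R
  s := G.s
  t := G.t
  e := G.e
  inv := G.inv
  comp g h w := pullback.lift g h w ≫ G.mul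
  comp_nat k g h w := by
    rw [← Category.assoc]
    congr 1
    apply pullback.hom_ext
    · rw [Category.assoc, pullback.lift_fst, pullback.lift_fst]
    · rw [Category.assoc, pullback.lift_snd, pullback.lift_snd]
  e_s := G.e_s
  e_t := G.e_t
  inv_s := G.inv_s
  inv_t := G.inv_t
  comp_s g h w := by rw [Category.assoc, G.mul_s, pullback.lift_fst_assoc]
  comp_t g h w := by rw [Category.assoc, G.mul_t, pullback.lift_snd_assoc]
  assoc g h k w w' := G.assoc g h k w w'
  id_comp g := G.one_mul g
  comp_id g := G.mul_one g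
  inv_comp g := G.inv_mul' g
  comp_inv g := G.mul_inv' g

theorem smoothGpd_of {S : Scheme.{0}} (G : SchemeGroupoid S)
    (hS : ∀ W : Scheme.{0}, Subsingleton (W ⟶ S)) (hs : Smooth G.s) (hq : QuasiCompact G.st)
    (hsep : IsSeparated G.st)
    (hstab : ∀ (K : Type) [Field K] (y : Spec (.of K) ⟶ pullback G.f G.f),
      IsAffine (pullback y G.st)) : SmoothGpd (ofSchemeGroupoid G) := by
  have h1 : G.st ≫ pullback.fst G.f G.f = G.s := pullback.lift_fst _ _ _
  have h2 : G.st ≫ pullback.snd G.f G.f = G.t := pullback.lift_snd _ _ _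
  have h3 : Smooth (G.st ≫ pullback.fst G.f G.f) := by
    rw [h1]
    exact hs
  exact @smoothGpd_of_psi S (ofSchemeGroupoid G) G.f G.st h1 h2 hS h3 hq hsep hstab

theorem not_affine_of {S X : Scheme.{0}} (G : SchemeGroupoid S) (hi : G.inv ≫ G.inv = 𝟙 _)
    (y : X ⟶ G.Y) (hy : ¬ IsAffine (pullback y G.s)) : ¬ IsAffine (pullback G.t y) := by
  intro h
  apply hy
  let a : pullback y G.s ⟶ pullback G.t y :=
    pullback.lift (pullback.snd y G.s ≫ G.inv) (pullback.fst y G.s) (by
      rw [Category.assoc, G.inv_t, pullback.condition])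
  let b : pullback G.t y ⟶ pullback y G.s :=
    pullback.lift (pullback.snd G.t y) (pullback.fst G.t y ≫ G.inv) (by
      rw [Category.assoc, G.inv_s, pullback.condition])
  have hab : a ≫ b = 𝟙 _ := by
    apply pullback.hom_ext
    · rw [Category.assoc, pullback.lift_fst, pullback.lift_snd, Category.id_comp]
    · rw [Category.assoc, pullback.lift_snd, ← Category.assoc, pullback.lift_fst,
        Category.assoc, hi, Category.comp_id, Category.id_comp]
  have hba : b ≫ a = 𝟙 _ := by
    apply pullback.hom_ext
    · rw [Category.assoc, pullback.lift_fst, ← Category.assoc, pullback.lift_snd,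
        Category.assoc, hi, Category.comp_id, Category.id_comp]
    · rw [Category.assoc, pullback.lift_snd, pullback.lift_fst, Category.id_comp]
  have : IsIso a := ⟨b, hab, hba⟩
  exact .of_isIso a

theorem final_of (G : SchemeGroupoid (Spec (.of (ZMod 2)))) (hs : Smooth G.s)
    (hq : QuasiCompact G.st) (hsep : IsSeparated G.st)
    (hstab : ∀ (K : Type) [Field K] (y : Spec (.of K) ⟶ pullback G.f G.f),
      IsAffine (pullback y G.st)) (hi : G.inv ≫ G.inv = 𝟙 _) (hY : IsAffine G.Y)
    (hf : LocallyOfFiniteType G.f)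
    (y : Spec (.of (ZMod 2)) ⟶ G.Y) (hy : ¬ IsAffine (pullback y G.s)) :
    FinalStatement Scheme.etaleTopology ∧ FinalStatement Scheme.fppfTopology := by
  have h1 : IsAffine (ofSchemeGroupoid G).U := hY
  exact @main (ofSchemeGroupoid G) (smoothGpd_of G (subsingleton_zmod 2) hs hq hsep hstab) h1
    G.f hf y (not_affine_of G hi y hy)

/-- The final theorem. -/
theorem final : FinalStatement Scheme.etaleTopology ∧ FinalStatement Scheme.fppfTopology := by
  refine final_of gpd gpd_smooth_s gpd_qc gpd_sep ?_
    (flat_tR model (i := gpd.inv) gpd.inv_s gpd.inv_t) gpd_affine gpd_ft x0 x0_fibre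
  intro K _ y
  rw [gpd_st]
  exact Pool.Agent.AFP.stab_affine fT UT phi model K y

end Stk90
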