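import Pool.Agent.Stk90.RepAtlas

/-!
# Local representability of the diagonal and of the atlas
-/

open CategoryTheory Opposite Limits

universe w v' u' v u

namespace Stk90

variable {C : Type u} [Category.{v} C]

open Pseudofunctor Pseudofunctor.LocallyDiscreteOpToCat

variable {G : IntGroupoid C} {J : GrothendieckTopology C}

/-- The sheaf of morphisms between two torsors is locally a base change of `R ⟶ U × U`. -/
theorem diag_locRep [HasPullbacks C] [HasBinaryProducts C] (Q : MorphismProperty C)
    [Q.IsStableUnderBaseChange] (hQ : Q (prod.lift G.s G.t)) {S : C} (M N : Tors G J S) :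
    LocRep J ((torsPseudo G J).presheafHom M N) Q := by
  obtain ⟨K, hK, hM⟩ := M.locally
  obtain ⟨K', hK', hN⟩ := N.locally
  refine ⟨K ⊓ K', J.intersection_covering hK hK', fun T k hk => ?_⟩
  obtain ⟨p⟩ := hM k hk.1
  obtain ⟨q⟩ := hN k hk.2
  exact ⟨_, pullback.fst _ _, Q.pullback_fst _ _ hQ,
    ⟨repOfMaps _ _ _ (diagEquiv M N k p q) (diagEquiv_nat M N k p q)⟩⟩

/-- The fibre product of the atlas with an object is locally a base change of the source map. -/
theorem atlas_locRep [J.Subcanonical] [HasPullbacks C] (Q : MorphismProperty C)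
    [Q.IsStableUnderBaseChange] (hQ : Q G.s) {S : C} (M : Tors G J S) :
    LocRep J (fibre (torsPseudo G J) (X := G.U) (triv G J (𝟙 G.U)) M) Q := by
  obtain ⟨K, hK, hM⟩ := M.locally
  refine ⟨K, hK, fun T k hk => ?_⟩
  obtain ⟨p⟩ := hM k hk
  exact ⟨_, pullback.fst _ _, Q.pullback_fst _ _ hQ,
    ⟨repOfMaps _ _ _ (atlasEquiv M k p) (atlasEquiv_nat M k p)⟩⟩

/-- Automorphisms of a torsor with a section. -/
theorem aut_rep [HasPullbacks C] [HasBinaryProducts C] {S : C} (M : Tors G J S) {T : C}
    (k : T ⟶ S) (p : M.P.obj (op (Over.mk k))) :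
    Nonempty (((Over.map k).op ⋙ (torsPseudo G J).presheafHom M M).RepresentableBy
      (Over.mk (pullback.fst (prod.lift (M.a p) (M.a p)) (prod.lift G.s G.t)))) :=
  ⟨repOfMaps _ _ _ (diagEquiv M M k p p) (diagEquiv_nat M M k p p)⟩

end Stk90
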