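import Pool.Agent.Stk90.FieldCov
import Pool.Agent.Stk90.LocRep

/-!
# Algebraic stacks and affineness of points
-/

open CategoryTheory Opposite Limits AlgebraicGeometry

universe w v' u' v u

namespace Stk90

/-- The conditions on a smooth groupoid scheme. -/
structure SmoothGpd (G : IntGroupoid Scheme.{u}) : Prop where
  smooth : Smooth G.s
  qc : QuasiCompact (prod.lift G.s G.t)
  sep : IsSeparated (prod.lift G.s G.t)
  stab : ∀ (K : Type u) [Field K] (x : Spec (.of K) ⟶ G.U),
    IsAffine (pullback (prod.lift x x) (prod.lift G.s G.t))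

variable {P : MorphismProperty Scheme.{u}} [P.IsStableUnderBaseChange]
    [P.IsMultiplicative] [(Scheme.grothendieckTopology P).Subcanonical]
    {G : IntGroupoid Scheme.{u}}

lemma surjective_s (G : IntGroupoid Scheme.{u}) : Surjective G.s := by
  refine ⟨fun x => ⟨G.e x, ?_⟩⟩
  rw [← Scheme.Hom.comp_apply, G.e_s]
  rfl

/-- Stabilisers of torsors over fields are affine. -/
theorem stab_affine (hP : GoodCov P) (hG : SmoothGpd G) {K : Type u} [Field K]
    (M : Tors G (Scheme.grothendieckTopology P) (Spec (.of K))) :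
    RepAffine ((torsPseudo G (Scheme.grothendieckTopology P)).presheafHom M M) := by
  obtain ⟨R, hR, hM⟩ := M.locally
  obtain ⟨L, hL, hKL, hRL, hcov⟩ := exists_field_cover hP hR
  obtain ⟨m⟩ := hM _ hRL
  obtain ⟨e⟩ := aut_rep M _ m
  have := hG.stab L (M.a m)
  obtain ⟨B, hB, hKB, ⟨e'⟩⟩ := affine_descent
    ((torsPseudo G (Scheme.grothendieckTopology P)).presheafHom M M)
    ((isSheaf_iff_isSheaf_of_type _ _).1 (Pseudofunctor.IsPrestack.isSheaf
      (F := torsPseudo G (Scheme.grothendieckTopology P)) (Scheme.grothendieckTopology P)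
        (S := Spec (.of K)) M M)) hcov _ e
  exact ⟨_, _, inferInstance, ⟨e'⟩⟩

theorem isAtlas (hG : SmoothGpd G) :
    IsAtlas (Scheme.grothendieckTopology P) (torsPseudo G (Scheme.grothendieckTopology P))
      (U := G.U) (triv G (Scheme.grothendieckTopology P) (𝟙 G.U)) := fun _ M =>
  atlas_locRep (@Smooth ⊓ @Surjective) ⟨hG.smooth, surjective_s G⟩ M

theorem isAlgStack (hG : SmoothGpd G) :
    IsAlgStack (Scheme.grothendieckTopology P)
      (torsPseudo G (Scheme.grothendieckTopology P)) where
  isStack := isStack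
  isIso {S M N} φ := Tors.isIso φ
  diagonal {S} M N := diag_locRep (@QuasiCompact ⊓ @IsSeparated) ⟨hG.qc, hG.sep⟩ M N
  atlas := ⟨G.U, triv G _ (𝟙 G.U), isAtlas hG⟩

theorem hasAffineStabilizers (hP : GoodCov P) (hG : SmoothGpd G) :
    HasAffineStabilizers (torsPseudo G (Scheme.grothendieckTopology P)) :=
  fun _ _ x => stab_affine hP hG x

theorem not_isAffineMap [IsAffine G.U] {X : Scheme.{u}} (y : X ⟶ G.U)
    (hy : ¬ IsAffine (pullback G.t y)) :
    ¬ IsAffineMap (torsPseudo G (Scheme.grothendieckTopology P)) (X := X)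
      (triv G (Scheme.grothendieckTopology P) y) := by
  intro h
  obtain ⟨Z, z, hZ, ⟨e⟩⟩ := h G.U (triv G (Scheme.grothendieckTopology P) (𝟙 G.U))
  have e' := pointRep (G := G) (J := Scheme.grothendieckTopology P) y
  let i : Over.mk (pullback.fst G.t y ≫ G.s) ≅ Over.mk z := e'.uniqueUpToIso e
  have hi : IsIso i.hom.left := inferInstanceAs (IsIso ((Over.forget _).map i.hom))
  apply hy
  exact .of_isIso (Y := Z) i.hom.left

end Stk90
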