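import Pool.Agent.Stk90.Alg

/-!
# Products over the prime field
-/

open CategoryTheory Opposite Limits AlgebraicGeometry

universe w v' u' v u

namespace Stk90

lemma subsingleton_zmod (n : ℕ) (W : Scheme.{0}) :
    Subsingleton (W ⟶ Spec (.of (ZMod n))) := by
  refine ⟨fun a b => ?_⟩
  apply (ΓSpec.adjunction.homEquiv W (op (CommRingCat.of (ZMod n)))).symm.injective
  apply Quiver.Hom.unop_inj
  apply CommRingCat.hom_ext
  exact Subsingleton.elim (α := ZMod n →+* _) _ _

variable {S T : Scheme.{0}} (hS : ∀ W : Scheme.{0}, Subsingleton (W ⟶ S)) (f : T ⟶ S)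

/-- The comparison of the products over `S` and over the final object. -/
noncomputable def kap : pullback f f ⟶ T ⨯ T := prod.lift (pullback.fst f f) (pullback.snd f f)

include hS in
lemma isIso_kap : IsIso (kap f) := by
  refine ⟨⟨pullback.lift prod.fst prod.snd ((hS _).elim _ _), ?_, ?_⟩⟩
  · apply pullback.hom_ext
    · rw [kap, Category.assoc, pullback.lift_fst, prod.lift_fst, Category.id_comp]
    · rw [kap, Category.assoc, pullback.lift_snd, prod.lift_snd, Category.id_comp]
  · apply Limits.prod.hom_ext
    · rw [kap, Category.assoc, prod.lift_fst, pullback.lift_fst, Category.id_comp]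
    · rw [kap, Category.assoc, prod.lift_snd, pullback.lift_snd, Category.id_comp]

lemma comp_kap {R : Scheme.{0}} (ψ : R ⟶ pullback f f) :
    ψ ≫ kap f = prod.lift (ψ ≫ pullback.fst f f) (ψ ≫ pullback.snd f f) := by
  apply Limits.prod.hom_ext
  · rw [kap, Category.assoc, prod.lift_fst, prod.lift_fst]
  · rw [kap, Category.assoc, prod.lift_snd, prod.lift_snd]

lemma isIso_of_mono {A B X Y : Scheme.{0}} (a : A ⟶ X) (b : B ⟶ X) (k : X ⟶ Y) [Mono k] :
    Nonempty (pullback (a ≫ k) (b ≫ k) ≅ pullback a b) := by
  have h1 : pullback.fst (a ≫ k) (b ≫ k) ≫ a = pullback.snd (a ≫ k) (b ≫ k) ≫ b := by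
    rw [← cancel_mono k, Category.assoc, Category.assoc, pullback.condition]
  have h2 : pullback.fst a b ≫ a ≫ k = pullback.snd a b ≫ b ≫ k := by
    rw [← Category.assoc, pullback.condition, Category.assoc]
  exact ⟨{ hom := pullback.lift _ _ h1
           inv := pullback.lift _ _ h2
           hom_inv_id := by
            apply pullback.hom_ext
            · rw [Category.assoc, pullback.lift_fst, pullback.lift_fst, Category.id_comp]
            · rw [Category.assoc, pullback.lift_snd, pullback.lift_snd, Category.id_comp]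
           inv_hom_id := by
            apply pullback.hom_ext
            · rw [Category.assoc, pullback.lift_fst, pullback.lift_fst, Category.id_comp]
            · rw [Category.assoc, pullback.lift_snd, pullback.lift_snd, Category.id_comp] }⟩

/-- The conditions on a groupoid scheme over the prime field. -/
theorem smoothGpd_of_psi (G : IntGroupoid Scheme.{0}) (f : G.U ⟶ S)
    (ψ : G.R ⟶ pullback f f) (hs : ψ ≫ pullback.fst f f = G.s) (ht : ψ ≫ pullback.snd f f = G.t)
    (hS : ∀ W : Scheme.{0}, Subsingleton (W ⟶ S))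
    [Smooth (ψ ≫ pullback.fst f f)] [QuasiCompact ψ] [IsSeparated ψ]
    (hstab : ∀ (K : Type) [Field K] (y : Spec (.of K) ⟶ pullback f f), IsAffine (pullback y ψ)) :
    SmoothGpd G := by
  have hiso := isIso_kap hS f
  have hp : prod.lift G.s G.t = ψ ≫ kap f := by
    rw [comp_kap, hs, ht]
  refine ⟨?_, ?_, ?_, ?_⟩
  · rw [← hs]
    infer_instance
  · rw [hp]
    infer_instance
  · rw [hp]
    infer_instance
  · intro K _ x
    have hx : prod.lift x x = pullback.lift x x rfl ≫ kap f := by
      rw [comp_kap, pullback.lift_fst, pullback.lift_snd]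
    have := hstab K (pullback.lift x x rfl)
    rw [hx, hp]
    obtain ⟨i⟩ := isIso_of_mono (pullback.lift x x rfl) ψ (kap f)
    exact .of_isIso i.hom

instance etale_subcanonical : (Scheme.grothendieckTopology (@Etale.{u})).Subcanonical := by
  refine .of_le (K := Scheme.fppfTopology) ?_
  apply Scheme.grothendieckTopology_monotone
  intro X Y f hf
  have : Etale f := hf
  exact ⟨inferInstanceAs (Flat f), inferInstanceAs (LocallyOfFinitePresentation f)⟩

instance fppf_mult : (@Flat ⊓ @LocallyOfFinitePresentation :
    MorphismProperty Scheme.{u}).IsMultiplicative where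
  id_mem X := ⟨inferInstanceAs (Flat (𝟙 X)), inferInstanceAs (LocallyOfFinitePresentation (𝟙 X))⟩
  comp_mem f g hf hg := by
    have h1 : Flat f := hf.1
    have h2 : Flat g := hg.1
    have h3 : LocallyOfFinitePresentation f := hf.2
    have h4 : LocallyOfFinitePresentation g := hg.2
    exact ⟨inferInstanceAs (Flat (f ≫ g)), inferInstanceAs (LocallyOfFinitePresentation (f ≫ g))⟩

instance fppf_subcanonical : (Scheme.grothendieckTopology (@Flat ⊓ @LocallyOfFinitePresentation :
    MorphismProperty Scheme.{u})).Subcanonical :=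
  inferInstanceAs (Scheme.fppfTopology.{u}).Subcanonical

/-- The statement proved for the two topologies. -/
def FinalStatement (J : GrothendieckTopology Scheme.{0}) : Prop :=
  ∃ F : Pseudofunctor (LocallyDiscrete Scheme.{0}ᵒᵖ) Cat.{1, 2},
    IsAlgStack J F ∧ HasAffineStabilizers F ∧
    (∃ (U : Scheme.{0}) (x : Obj F U) (f : U ⟶ Spec (.of (ZMod 2))),
      IsAtlas J F x ∧ IsAffine U ∧ LocallyOfFiniteType f) ∧
    ∃ x : Obj F (Spec (.of (ZMod 2))), ¬ IsAffineMap F x

/-- The main theorem: from a smooth groupoid scheme to algebraic stacks. -/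
theorem main (G : IntGroupoid Scheme.{0}) (hG : SmoothGpd G) [IsAffine G.U]
    (f : G.U ⟶ Spec (.of (ZMod 2))) [LocallyOfFiniteType f] (y : Spec (.of (ZMod 2)) ⟶ G.U)
    (hy : ¬ IsAffine (pullback G.t y)) :
    FinalStatement Scheme.etaleTopology ∧ FinalStatement Scheme.fppfTopology := by
  constructor
  · exact ⟨torsPseudo G Scheme.etaleTopology, isAlgStack hG,
      hasAffineStabilizers goodCov_etale hG, ⟨G.U, _, f, isAtlas hG, inferInstance,
      inferInstance⟩, _, not_isAffineMap y hy⟩
  · exact ⟨torsPseudo G Scheme.fppfTopology, isAlgStack hG,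
      hasAffineStabilizers goodCov_fppf hG, ⟨G.U, _, f, isAtlas hG, inferInstance,
      inferInstance⟩, _, not_isAffineMap y hy⟩

end Stk90
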