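import Pool.Agent.Stk90.Glue

/-!
# Descent of representability along a covering morphism
-/

open CategoryTheory Opposite Limits

universe w v u

namespace Stk90

variable {C : Type u} [Category.{v} C]

section

variable {S : C} (A : (Over S)ᵒᵖ ⥤ Type w)

/-- Restriction of sections with a free choice of the structure maps. -/
def rs {V V' : C} {l : V ⟶ S} (g : V' ⟶ V) (l' : V' ⟶ S) (h : g ≫ l = l')
    (x : A.obj (op (Over.mk l))) : A.obj (op (Over.mk l')) :=
  A.map (Over.homMk g (by simpa using h) : Over.mk l' ⟶ Over.mk l).op x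

lemma rs_rs {V V' V'' : C} {l : V ⟶ S} {g : V' ⟶ V} {l' : V' ⟶ S}
    {g' : V'' ⟶ V'} {l'' : V'' ⟶ S} (h : g ≫ l = l') (h' : g' ≫ l' = l'')
    (x : A.obj (op (Over.mk l))) :
    rs A g' l'' h' (rs A g l' h x) = rs A (g' ≫ g) l'' (by rw [Category.assoc, h, h']) x := by
  unfold rs
  rw [← types_comp_apply (A.map _) (A.map _), ← Functor.map_comp, ← op_comp]
  congr 3

lemma rs_congr {V V' : C} {l : V ⟶ S} (g g' : V' ⟶ V) (l' : V' ⟶ S)
    (h : g ≫ l = l') (hg : g = g') (x : A.obj (op (Over.mk l))) :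
    rs A g l' h x = rs A g' l' (by rw [← hg, h]) x := by
  subst hg
  rfl

lemma rs_self {V : C} {l : V ⟶ S} (k : V ⟶ V) (hk : k = 𝟙 V)
    (h : k ≫ l = l) (y : A.obj (op (Over.mk l))) : rs A k l h y = y := by
  subst hk
  have : (Over.homMk (𝟙 V) (by simp) : Over.mk l ⟶ Over.mk l) = 𝟙 _ := by
    apply Over.OverMorphism.ext; rfl
  change A.map (Over.homMk (𝟙 V) _ : Over.mk l ⟶ Over.mk l).op y = y
  rw [this]
  simp

lemma map_eq_rs {T T' : Over S} (k : T' ⟶ T) (x : A.obj (op T)) :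
    A.map k.op x = rs A (V := T.left) (V' := T'.left) (l := T.hom)
      k.left T'.hom (Over.w k) x := by
  have : k = Over.homMk k.left (Over.w k) := by
    apply Over.OverMorphism.ext; rfl
  unfold rs
  congr 2

end

section

variable {S S' Z' : C} (A : (Over S)ᵒᵖ ⥤ Type w) (p : S' ⟶ S) (z' : Z' ⟶ S')
  (e : ((Over.map p).op ⋙ A).RepresentableBy (Over.mk z'))

/-- The universal element. -/
def uel : A.obj (op (Over.mk (z' ≫ p))) := e.homEquiv (𝟙 _)

lemma uel_spec {T : C} (h : T ⟶ S') (g : T ⟶ Z') (hg : g ≫ z' = h) :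
    e.homEquiv (Over.homMk g hg : Over.mk h ⟶ Over.mk z') =
      rs A g (h ≫ p) (by rw [← hg, Category.assoc]) (uel A p z' e) := by
  have h1 := e.homEquiv_comp (Over.homMk g hg : Over.mk h ⟶ Over.mk z') (𝟙 _)
  rw [Category.comp_id] at h1
  exact h1

lemma uel_ext {T : C} (g g' : T ⟶ Z') (hgg : g ≫ z' = g' ≫ z')
    (h : rs A g (g ≫ z' ≫ p) rfl (uel A p z' e) =
      rs A g' (g ≫ z' ≫ p) (by rw [← Category.assoc, ← hgg, Category.assoc]) (uel A p z' e)) :
    g = g' := by
  have h1 := uel_spec A p z' e (g ≫ z') g rfl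
  have h2 := uel_spec A p z' e (g ≫ z') g' hgg.symm
  have h3 : e.homEquiv (Over.homMk g rfl : Over.mk (g ≫ z') ⟶ Over.mk z') =
      e.homEquiv (Over.homMk g' hgg.symm : Over.mk (g ≫ z') ⟶ Over.mk z') := by
    rw [h1, h2]
    have h4 := congrArg (rs A (𝟙 _) ((g ≫ z') ≫ p) (by simp)) h
    rw [rs_rs, rs_rs] at h4
    rw [rs_congr A g (𝟙 _ ≫ g) _ _ (by simp), rs_congr A g' (𝟙 _ ≫ g') _ _ (by simp)]
    exact h4
  exact congrArg (fun z => z.left) (e.homEquiv.injective h3)

lemma uel_ext' {T : C} (g g' : T ⟶ Z') (hgg : g ≫ z' = g' ≫ z') (l : T ⟶ S)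
    (hl : g ≫ z' ≫ p = l) (hl' : g' ≫ z' ≫ p = l)
    (h : rs A g l hl (uel A p z' e) = rs A g' l hl' (uel A p z' e)) : g = g' := by
  subst hl
  exact uel_ext A p z' e g g' hgg h

lemma uel_exists {T : C} (h : T ⟶ S') (a : A.obj (op (Over.mk (h ≫ p)))) :
    ∃ (g : T ⟶ Z') (hg : g ≫ z' = h),
      rs A g (h ≫ p) (by rw [← hg, Category.assoc]) (uel A p z' e) = a := by
  obtain ⟨g, hg⟩ := (e.homEquiv (X := Over.mk h)).surjective a
  refine ⟨g.left, Over.w g, ?_⟩
  rw [← hg]
  exact (uel_spec A p z' e h g.left (Over.w g)).symm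

end

section

variable {J : GrothendieckTopology C} [J.Subcanonical] [HasPullbacks C]
  {S S' Z' : C} (A : (Over S)ᵒᵖ ⥤ Type w) (hA : Presieve.IsSheaf (J.over S) A)
  (p : S' ⟶ S) (hp : Sieve.generate (Presieve.singleton p) ∈ J S) (z' : Z' ⟶ S')
  (e : ((Over.map p).op ⋙ A).RepresentableBy (Over.mk z'))

include hA hp

/-- Sections are determined over the cover. -/
lemma ext_cover {T : C} (l : T ⟶ S) (x y : A.obj (op (Over.mk l)))
    (h : ∀ ⦃V : C⦄ (g : V ⟶ T) (h' : V ⟶ S') (hh : h' ≫ p = g ≫ l),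
      rs A g (g ≫ l) rfl x = rs A g (g ≫ l) rfl y) : x = y := by
  have hK : (Sieve.overEquiv (Over.mk l)).symm ((Sieve.generate (Presieve.singleton p)).pullback l)
      ∈ (J.over S) (Over.mk l) :=
    J.overEquiv_symm_mem_over _ _ (J.pullback_stable _ hp)
  refine (hA _ hK).isSeparatedFor.ext fun T' k hk => ?_
  rw [Sieve.overEquiv_symm_iff] at hk
  obtain ⟨W, a, b, ⟨⟩, hab⟩ := hk
  have hw : k.left ≫ l = T'.hom := Over.w k
  have h1 := h k.left a hab
  rw [map_eq_rs, map_eq_rs]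
  have h2 := congrArg (rs A (𝟙 _) T'.hom (by simpa using hw)) h1
  rw [rs_rs, rs_rs] at h2
  have h3 : ∀ x, rs A (l := l) (𝟙 _ ≫ k.left) T'.hom (by simpa using hw) x =
      rs A k.left T'.hom hw x := fun x => rs_congr A _ _ _ _ (by simp) x
  rw [h3, h3] at h2
  exact h2

/-- Sections can be glued over the cover. -/
lemma glue_cover {T : C} (l : T ⟶ S)
    (x : A.obj (op (Over.mk (pullback.fst l p ≫ l))))
    (hx : ∀ ⦃V : C⦄ (g g' : V ⟶ pullback l p) (hg : g ≫ pullback.fst l p = g' ≫ pullback.fst l p),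
      rs A g (g ≫ pullback.fst l p ≫ l) rfl x =
        rs A g' (g ≫ pullback.fst l p ≫ l) (by rw [← Category.assoc, ← hg, Category.assoc]) x) :
    ∃ y : A.obj (op (Over.mk l)), rs A (pullback.fst l p) (pullback.fst l p ≫ l) rfl y = x := by
  have hK : (Sieve.overEquiv (Over.mk l)).symm ((Sieve.generate (Presieve.singleton p)).pullback l)
      ∈ (J.over S) (Over.mk l) :=
    J.overEquiv_symm_mem_over _ _ (J.pullback_stable _ hp)
  have hex : ∀ (T' : Over S) (k : T' ⟶ Over.mk l),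
      (Sieve.overEquiv (Over.mk l)).symm ((Sieve.generate (Presieve.singleton p)).pullback l) k →
      ∃ g : T'.left ⟶ pullback l p, g ≫ pullback.fst l p = k.left := by
    intro T' k hk
    rw [Sieve.overEquiv_symm_iff] at hk
    obtain ⟨W, a, b, ⟨⟩, hab⟩ := hk
    exact ⟨pullback.lift k.left a hab.symm, pullback.lift_fst _ _ _⟩
  choose g hg using hex
  let fam : Presieve.FamilyOfElements A
    ((Sieve.overEquiv (Over.mk l)).symm ((Sieve.generate (Presieve.singleton p)).pullback l)).arrows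
    := fun T' k hk => rs A (g _ k hk) T'.hom (by
      rw [← Category.assoc, hg _ k hk]; exact Over.w k) x
  have hfam : fam.SieveCompatible := by
    intro T' T'' k m hk
    change rs A (g _ (m ≫ k) _) T''.hom _ x = A.map m.op (rs A (g _ k hk) T'.hom _ x)
    rw [map_eq_rs, rs_rs]
    have h1 := hx (g _ (m ≫ k) (Sieve.downward_closed _ hk m)) (m.left ≫ g _ k hk) (by
      rw [hg, Category.assoc, hg]
      rfl)
    have h2 := congrArg (rs A (𝟙 _) T''.hom (by
      rw [Category.id_comp, ← Category.assoc, hg]; exact Over.w (m ≫ k))) h1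
    rw [rs_rs, rs_rs] at h2
    rw [rs_congr A _ _ _ _ (Category.id_comp _)] at h2
    refine h2.trans ?_
    exact rs_congr A _ _ _ _ (Category.id_comp _) x
  rw [← Presieve.compatible_iff_sieveCompatible] at hfam
  obtain ⟨y, hy, -⟩ := hA _ hK fam hfam
  refine ⟨y, ?_⟩
  let k : Over.mk (pullback.fst l p ≫ l) ⟶ Over.mk l := Over.homMk (pullback.fst l p) rfl
  have hk : (Sieve.overEquiv (Over.mk l)).symm
      ((Sieve.generate (Presieve.singleton p)).pullback l) k := by
    rw [Sieve.overEquiv_symm_iff]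
    exact ⟨S', pullback.snd l p, p, Presieve.singleton.mk, pullback.condition.symm⟩
  have h1 : rs A (pullback.fst l p) (pullback.fst l p ≫ l) rfl y =
    rs A (g _ k hk) (pullback.fst l p ≫ l) (by rw [← Category.assoc, hg _ k hk]; rfl) x := hy k hk
  rw [h1]
  have h2 := hx (g _ k hk) (𝟙 _) (by rw [hg, Category.id_comp]; rfl)
  have h3 := congrArg (rs A (𝟙 _) (pullback.fst l p ≫ l) (by
      rw [Category.id_comp, ← Category.assoc, hg]; rfl)) h2
  rw [rs_rs, rs_rs] at h3
  rw [rs_congr A _ _ _ _ (Category.id_comp _)] at h3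
  rw [h3]
  exact rs_self A _ (by simp) _ _

omit hA hp in
lemma core_eq {P2 : C} (p1 : P2 ⟶ Z') (p2 : P2 ⟶ S') (hP : IsPullback p1 p2 (z' ≫ p) p)
    (q : P2 ⟶ Z') (hq : q ≫ z' = p2)
    (hqw : rs A q (p2 ≫ p) (by rw [← Category.assoc, hq]) (uel A p z' e) =
      rs A p1 (p2 ≫ p) hP.w (uel A p z' e))
    {Z : C} (zB : Z ⟶ S) (π : Z' ⟶ Z) (hsq : IsPullback π z' zB p)
    (hπ : p1 ≫ π = q ≫ π) {V : C} (f f' : V ⟶ Z') (h : f ≫ π = f' ≫ π)
    (l : V ⟶ S) (hl : f ≫ z' ≫ p = l) (hl' : f' ≫ z' ≫ p = l) :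
    rs A f l hl (uel A p z' e) = rs A f' l hl' (uel A p z' e) := by
  have h0 : f ≫ z' ≫ p = (f' ≫ z') ≫ p := by rw [Category.assoc, hl, hl']
  let m : V ⟶ P2 := hP.lift f (f' ≫ z') h0
  have hm1 : m ≫ p1 = f := hP.lift_fst _ _ _
  have hm2 : m ≫ p2 = f' ≫ z' := hP.lift_snd _ _ _
  have hmq : m ≫ q = f' := by
    apply hsq.hom_ext
    · rw [Category.assoc, ← hπ, ← Category.assoc, hm1, h]
    · rw [Category.assoc, hq, hm2]
  have h1 := congrArg (rs A m l (by rw [← Category.assoc, hm2, Category.assoc, hl'])) hqw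
  rw [rs_rs, rs_rs, rs_congr A _ _ _ _ hmq, rs_congr A _ _ _ _ hm1] at h1
  exact h1.symm

lemma descend {P2 : C} (p1 : P2 ⟶ Z') (p2 : P2 ⟶ S') (hP : IsPullback p1 p2 (z' ≫ p) p)
    (q : P2 ⟶ Z') (hq : q ≫ z' = p2)
    (hqw : rs A q (p2 ≫ p) (by rw [← Category.assoc, hq]) (uel A p z' e) =
      rs A p1 (p2 ≫ p) hP.w (uel A p z' e))
    {Z : C} (zB : Z ⟶ S) (π : Z' ⟶ Z) (hsq : IsPullback π z' zB p)
    (hπ : p1 ≫ π = q ≫ π) : Nonempty (A.RepresentableBy (Over.mk zB)) := by
  classical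
  -- the section over `Z`
  obtain ⟨w0, hw0⟩ : ∃ w0 : A.obj (op (Over.mk zB)),
      rs A π (z' ≫ p) hsq.w w0 = uel A p z' e := by
    let i : pullback zB p ⟶ Z' := hsq.lift (pullback.fst zB p) (pullback.snd zB p)
      pullback.condition
    have hi1 : i ≫ π = pullback.fst zB p := hsq.lift_fst _ _ _
    have hi2 : i ≫ z' = pullback.snd zB p := hsq.lift_snd _ _ _
    obtain ⟨y, hy⟩ := glue_cover A hA p hp zB (rs A i (pullback.fst zB p ≫ zB)
      (by rw [← Category.assoc, hi2, pullback.condition]) (uel A p z' e)) (by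
        intro V g g' hg
        rw [rs_rs, rs_rs]
        apply core_eq A p z' e p1 p2 hP q hq hqw zB π hsq hπ
        rw [Category.assoc, Category.assoc, hi1, hg])
    refine ⟨y, ?_⟩
    let j : Z' ⟶ pullback zB p := pullback.lift π z' hsq.w
    have hj1 : j ≫ pullback.fst zB p = π := pullback.lift_fst _ _ _
    have hj2 : j ≫ pullback.snd zB p = z' := pullback.lift_snd _ _ _
    have hji : j ≫ i = 𝟙 _ := by
      apply hsq.hom_ext
      · rw [Category.assoc, hi1, hj1, Category.id_comp]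
      · rw [Category.assoc, hi2, hj2, Category.id_comp]
    have h1 := congrArg (rs A j (z' ≫ p) (by
      rw [← Category.assoc, hj1, hsq.w])) hy
    rw [rs_rs, rs_rs, rs_congr A _ _ _ _ hj1] at h1
    rw [h1]
    exact rs_self A _ hji _ _
  -- injectivity over the cover
  have hinj : ∀ {V : C} (h' : V ⟶ S') (g g' : V ⟶ Z) (hg : g ≫ zB = h' ≫ p)
      (hg' : g' ≫ zB = h' ≫ p), rs A g (h' ≫ p) hg w0 = rs A g' (h' ≫ p) hg' w0 → g = g' := by
    intro V h' g g' hg hg' h
    let a : V ⟶ Z' := hsq.lift g h' hg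
    let a' : V ⟶ Z' := hsq.lift g' h' hg'
    have ha1 : a ≫ π = g := hsq.lift_fst _ _ _
    have ha2 : a ≫ z' = h' := hsq.lift_snd _ _ _
    have ha1' : a' ≫ π = g' := hsq.lift_fst _ _ _
    have ha2' : a' ≫ z' = h' := hsq.lift_snd _ _ _
    have haa : a = a' := by
      apply uel_ext A p z' e a a' (by rw [ha2, ha2'])
      simp only [← hw0]
      rw [rs_rs, rs_rs, rs_congr A _ _ _ _ ha1, rs_congr A _ _ _ _ ha1']
      have h2 := congrArg (rs A (𝟙 _) (a ≫ z' ≫ p) (by
        rw [← Category.assoc a, ha2, Category.id_comp])) h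
      rw [rs_rs, rs_rs, rs_congr A _ _ _ _ (Category.id_comp g),
        rs_congr A _ _ _ _ (Category.id_comp g')] at h2
      exact h2
    rw [← ha1, ← ha1', haa]
  refine ⟨{ homEquiv := fun {T} => Equiv.ofBijective (fun g => A.map g.op w0) ⟨?_, ?_⟩,
            homEquiv_comp := fun f g => ?_ }⟩
  · intro g g' h
    change A.map g.op w0 = A.map g'.op w0 at h
    rw [map_eq_rs, map_eq_rs] at h
    apply Over.OverMorphism.ext
    have hgw : g.left ≫ zB = T.hom := Over.w g
    have hgw' : g'.left ≫ zB = T.hom := Over.w g'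
    refine hom_ext_of_cover (J.pullback_stable T.hom hp) fun V k hk => ?_
    obtain ⟨W, a, b, ⟨⟩, hab⟩ := hk
    apply hinj a (k ≫ g.left) (k ≫ g'.left) (by rw [Category.assoc, hgw, hab])
      (by rw [Category.assoc, hgw', hab])
    have h2 := congrArg (rs A k (a ≫ p) hab.symm) h
    rw [rs_rs, rs_rs] at h2
    exact h2
  · intro a
    change A.obj (op (Over.mk T.hom)) at a
    obtain ⟨φ, hφ, hφw⟩ := uel_exists A p z' e (pullback.snd T.hom p)
      (rs A (pullback.fst T.hom p) (pullback.snd T.hom p ≫ p) pullback.condition a)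
    have hφ2 : rs A (φ ≫ π) (pullback.snd T.hom p ≫ p) (by
        rw [Category.assoc, hsq.w, ← Category.assoc, hφ]) w0 =
        rs A (pullback.fst T.hom p) (pullback.snd T.hom p ≫ p) pullback.condition a := by
      rw [← hφw]
      simp only [← hw0]
      rw [rs_rs]
    have hcov : ∀ (W : Over S), (Sieve.generate (Presieve.singleton p)) W.hom →
        ∃ h' : W.left ⟶ S', h' ≫ p = W.hom := by
      rintro W ⟨V, a, b, ⟨⟩, hab⟩
      exact ⟨a, hab⟩
    choose h' hh' using hcov
    have hkey : ∀ {V : C} (k : V ⟶ T.left) (b : V ⟶ S') (hb : k ≫ T.hom = b ≫ p),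
        rs A (pullback.lift k b hb ≫ φ ≫ π) (b ≫ p) (by
          rw [Category.assoc, Category.assoc, hsq.w, ← Category.assoc φ, hφ,
            ← Category.assoc, pullback.lift_snd]) w0 = rs A k (b ≫ p) hb a := by
      intro V k b hb
      have h2 := congrArg (rs A (pullback.lift k b hb) (b ≫ p) (by
        rw [← Category.assoc, pullback.lift_snd])) hφ2
      rw [rs_rs, rs_rs] at h2
      rw [h2]
      exact rs_congr A _ _ _ _ (pullback.lift_fst _ _ _) a
    obtain ⟨g, hg⟩ := exists_glue_map hp T (fun W k hW =>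
      pullback.lift k.left (h' W hW) (by rw [Over.w, hh' W hW]) ≫ φ ≫ π) (by
        intro W W' k m hW hW'
        have hmw : m.left ≫ W.hom = W'.hom := Over.w m
        refine hinj (h' W' hW') _ _ ?_ ?_ ?_
        · rw [hh' W' hW']
          have h3 : (pullback.lift k.left (h' W hW) (by rw [Over.w, hh' W hW]) ≫ φ ≫ π) ≫ zB =
              W.hom := by
            rw [Category.assoc, Category.assoc, hsq.w, ← Category.assoc φ, hφ,
              ← Category.assoc, pullback.lift_snd, hh' W hW]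
          rw [Category.assoc, h3, hmw]
        · rw [Category.assoc, Category.assoc, hsq.w, ← Category.assoc φ, hφ,
              ← Category.assoc, pullback.lift_snd]
        · have h1 := hkey (m ≫ k).left (h' W' hW') (by rw [Over.w, hh' W' hW'])
          rw [h1]
          have h2 := hkey k.left (h' W hW) (by rw [Over.w, hh' W hW])
          have h3 := congrArg (rs A m.left (h' W' hW' ≫ p) (by rw [hh' W hW, hh' W' hW', hmw])) h2
          rw [rs_rs, rs_rs] at h3
          rw [h3]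
          rfl)
    have hgz : g ≫ zB = T.hom := by
      refine hom_ext_of_cover (J.pullback_stable T.hom hp) fun V k hk => ?_
      have h1 := hg (Over.mk (k ≫ T.hom)) (Over.homMk k) hk
      change k ≫ g = _ at h1
      rw [← Category.assoc, h1, Category.assoc, Category.assoc, hsq.w, ← Category.assoc φ, hφ,
              ← Category.assoc, pullback.lift_snd, hh' (Over.mk (k ≫ T.hom)) hk]
      rfl
    refine ⟨Over.homMk g hgz, ?_⟩
    change rs A g T.hom hgz w0 = a
    apply ext_cover A hA p hp T.hom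
    intro V k b hb
    rw [rs_rs]
    have hk : (Sieve.generate (Presieve.singleton p)) (Over.mk (k ≫ T.hom)).hom :=
      ⟨S', b, p, Presieve.singleton.mk, hb⟩
    have h1 := hg (Over.mk (k ≫ T.hom)) (Over.homMk k) hk
    have h2 := hkey k (h' (Over.mk (k ≫ T.hom)) hk) (by rw [hh']; rfl)
    have h3 := congrArg (rs A (𝟙 _) (k ≫ T.hom) (by
      rw [Category.id_comp, hh']; rfl)) h2
    rw [rs_rs, rs_rs, rs_congr A _ _ _ _ (Category.id_comp _),
      rs_congr A _ _ _ _ (Category.id_comp k)] at h3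
    rw [← h3]
    exact rs_congr A _ _ _ _ h1 w0
  · change A.map (f ≫ g).op w0 = A.map f.op (A.map g.op w0)
    rw [op_comp, Functor.map_comp, types_comp_apply]

end

end Stk90
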