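import Pool.Agent.Stk90.Desc

/-!
# Descent of algebras
-/

open CategoryTheory Opposite Limits TensorProduct

universe w v u

namespace Stk90

section alg

variable {K L B' : Type u} [Field K] [CommRing L] [CommRing B'] [Algebra K L] [Algebra L B']
  [Algebra K B'] [IsScalarTower K L B'] (ρ : B' →ₐ[K] B' ⊗[K] L)

/-- The subalgebra of invariants. -/
def invAlg : Subalgebra K B' :=
  AlgHom.equalizer ρ (Algebra.TensorProduct.includeLeft : B' →ₐ[K] B' ⊗[K] L)

lemma mem_invAlg {x : B'} : x ∈ invAlg ρ ↔ ρ x = x ⊗ₜ 1 := Iff.rfl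

/-- The multiplication `B' ⊗ L → B'`. -/
noncomputable def mulMap : B' ⊗[K] L →ₐ[K] B' :=
  Algebra.TensorProduct.productMap (AlgHom.id K B') (IsScalarTower.toAlgHom K L B')

/-- The comparison map `B ⊗ L → B'`. -/
noncomputable def cmpMap : invAlg ρ ⊗[K] L →ₐ[K] B' :=
  Algebra.TensorProduct.productMap (invAlg ρ).val (IsScalarTower.toAlgHom K L B')

lemma mulMap_comp : (mulMap (K := K) (L := L) (B' := B')).comp
    (Algebra.TensorProduct.map (invAlg ρ).val (AlgHom.id K L)) = cmpMap ρ := by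
  apply Algebra.TensorProduct.ext'
  intro a b
  simp [mulMap, cmpMap]

lemma rho_comp (h1 : ∀ l : L, ρ (algebraMap L B' l) = 1 ⊗ₜ l) : ρ.comp (cmpMap ρ) =
    Algebra.TensorProduct.map (invAlg ρ).val (AlgHom.id K L) := by
  apply Algebra.TensorProduct.ext'
  intro a b
  have ha : ρ a.1 = a.1 ⊗ₜ 1 := a.2
  simp [cmpMap, ha, h1]

lemma cmpMap_bijective (h1 : ∀ l : L, ρ (algebraMap L B' l) = 1 ⊗ₜ l)
    (h2 : ∀ x, mulMap (K := K) (L := L) (B' := B') (ρ x) = x)
    (h3 : ∀ x, Algebra.TensorProduct.map ρ (AlgHom.id K L) (ρ x) =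
      Algebra.TensorProduct.map (Algebra.TensorProduct.includeLeft : B' →ₐ[K] B' ⊗[K] L)
        (AlgHom.id K L) (ρ x)) :
    Function.Bijective (cmpMap ρ) := by
  constructor
  · have h4 : Function.Injective (Algebra.TensorProduct.map (invAlg ρ).val (AlgHom.id K L)) := by
      have := Module.Flat.rTensor_preserves_injective_linearMap (M := L)
        (invAlg ρ).val.toLinearMap Subtype.val_injective
      exact this
    rw [← rho_comp ρ h1] at h4
    exact Function.Injective.of_comp h4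
  · intro x
    let d : B' →ₗ[K] B' ⊗[K] L := ρ.toLinearMap -
      (Algebra.TensorProduct.includeLeft : B' →ₐ[K] B' ⊗[K] L).toLinearMap
    have hex : Function.Exact (invAlg ρ).val.toLinearMap d := by
      intro y
      constructor
      · intro hy
        have hy' : ρ y = y ⊗ₜ 1 := by
          have : ρ y - y ⊗ₜ 1 = 0 := hy
          exact sub_eq_zero.1 this
        exact ⟨⟨y, hy'⟩, rfl⟩
      · rintro ⟨y, rfl⟩
        have hy' : ρ y.1 = y.1 ⊗ₜ 1 := y.2
        change ρ y.1 - y.1 ⊗ₜ 1 = 0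
        rw [hy', sub_self]
    have hex2 := Module.Flat.rTensor_exact L hex
    have h4 : LinearMap.rTensor L d (ρ x) = 0 := by
      have h5 : LinearMap.rTensor L d (ρ x) = Algebra.TensorProduct.map ρ (AlgHom.id K L) (ρ x) -
        Algebra.TensorProduct.map (Algebra.TensorProduct.includeLeft : B' →ₐ[K] B' ⊗[K] L)
          (AlgHom.id K L) (ρ x) := by
        change LinearMap.rTensor L d (ρ x) = LinearMap.rTensor L ρ.toLinearMap (ρ x) -
          LinearMap.rTensor L (Algebra.TensorProduct.includeLeft :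
            B' →ₐ[K] B' ⊗[K] L).toLinearMap (ρ x)
        rw [LinearMap.rTensor_sub, LinearMap.sub_apply]
      rw [h5, h3, sub_self]
    obtain ⟨z, hz⟩ := (hex2 _).1 h4
    refine ⟨z, ?_⟩
    rw [← mulMap_comp ρ, AlgHom.comp_apply]
    have h6 : Algebra.TensorProduct.map (invAlg ρ).val (AlgHom.id K L) z = ρ x := hz
    rw [h6, h2]

lemma isPushout_inv (hb : Function.Bijective (cmpMap ρ)) :
    IsPushout (CommRingCat.ofHom (algebraMap K (invAlg ρ))) (CommRingCat.ofHom (algebraMap K L))
      (CommRingCat.ofHom (invAlg ρ).val.toRingHom) (CommRingCat.ofHom (algebraMap L B')) := by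
  refine (CommRingCat.isPushout_tensorProduct K (invAlg ρ) L).of_iso (Iso.refl _) (Iso.refl _)
    (Iso.refl _) (RingEquiv.ofBijective (cmpMap ρ).toRingHom hb).toCommRingCatIso (by simp)
    (by simp) ?_ ?_
  · ext x
    simp [cmpMap]
  · ext x
    simp [cmpMap]

end alg

section scheme

open AlgebraicGeometry

variable {K L : Type u} [Field K] [CommRing L] [Algebra K L]
  {J : GrothendieckTopology Scheme.{u}} [J.Subcanonical]
  (A : (Over (Spec (.of K)))ᵒᵖ ⥤ Type w) (hA : Presieve.IsSheaf (J.over _) A)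
  (hp : Sieve.generate (Presieve.singleton (Spec.map (CommRingCat.ofHom (algebraMap K L))))
    ∈ J (Spec (.of K)))

include hA hp

/-- Descent of affine schemes, for the spectrum of an algebra. -/
lemma affine_descent_aux (B' : Type u) [CommRing B'] [Algebra L B'] [Algebra K B']
    [IsScalarTower K L B']
    (e : ((Over.map (Spec.map (CommRingCat.ofHom (algebraMap K L)))).op ⋙ A).RepresentableBy
      (Over.mk (Spec.map (CommRingCat.ofHom (algebraMap L B'))))) :
    ∃ (B : Type u) (_ : CommRing B) (_ : Algebra K B),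
      Nonempty (A.RepresentableBy (Over.mk (Spec.map (CommRingCat.ofHom (algebraMap K B))))) := by
  let p : Spec (.of L) ⟶ Spec (.of K) := Spec.map (CommRingCat.ofHom (algebraMap K L))
  let z' : Spec (.of B') ⟶ Spec (.of L) := Spec.map (CommRingCat.ofHom (algebraMap L B'))
  let p1 : Spec (.of (B' ⊗[K] L)) ⟶ Spec (.of B') := Spec.map (CommRingCat.ofHom
    (Algebra.TensorProduct.includeLeftRingHom (R := K) (A := B') (B := L)))
  let p2 : Spec (.of (B' ⊗[K] L)) ⟶ Spec (.of L) := Spec.map (CommRingCat.ofHom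
    (Algebra.TensorProduct.includeRight (R := K) (A := B') (B := L)).toRingHom)
  have hzp : z' ≫ p = Spec.map (CommRingCat.ofHom (algebraMap K B')) := by
    rw [← Spec.map_comp, ← CommRingCat.ofHom_comp, ← IsScalarTower.algebraMap_eq]
  have hP : IsPullback p1 p2 (z' ≫ p) p := by
    rw [hzp]
    exact isPullback_SpecMap_of_isPushout _ _ _ _ (CommRingCat.isPushout_tensorProduct K B' L)
  obtain ⟨q, hq, hqw⟩ := uel_exists A p z' e p2 (rs A p1 (p2 ≫ p) hP.w (uel A p z' e))
  have hqK : q ≫ Spec.map (CommRingCat.ofHom (algebraMap K B')) =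
      Spec.map (CommRingCat.ofHom (algebraMap K (B' ⊗[K] L))) := by
    rw [← hzp, ← Category.assoc, hq, ← hP.w, hzp, ← Spec.map_comp, ← CommRingCat.ofHom_comp]
  let ρ0 : CommRingCat.of B' ⟶ CommRingCat.of (B' ⊗[K] L) := Spec.preimage q
  have hρ0 : Spec.map ρ0 = q := Spec.map_preimage q
  let ρ : B' →ₐ[K] B' ⊗[K] L :=
    { ρ0.hom with
      commutes' := fun r => by
        rw [← hρ0, ← Spec.map_comp] at hqK
        have := Spec.map_injective hqK
        exact congrArg (fun z => z.hom r) this }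
  have hρq : Spec.map (CommRingCat.ofHom ρ.toRingHom) = q := hρ0
  have h1 : ∀ l : L, ρ (algebraMap L B' l) = 1 ⊗ₜ l := by
    intro l
    rw [← hρq] at hq
    have hq' : Spec.map (CommRingCat.ofHom ρ.toRingHom) ≫
      Spec.map (CommRingCat.ofHom (algebraMap L B')) = p2 := hq
    rw [← Spec.map_comp] at hq'
    have := Spec.map_injective hq'
    exact congrArg (fun z => z.hom l) this
  have h2 : ∀ x, mulMap (K := K) (L := L) (B' := B') (ρ x) = x := by
    let δ : Spec (.of B') ⟶ Spec (.of (B' ⊗[K] L)) := Spec.map (CommRingCat.ofHom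
      (mulMap (K := K) (L := L) (B' := B')).toRingHom)
    have hδ1 : δ ≫ p1 = 𝟙 _ := by
      rw [← Spec.map_comp, ← Spec.map_id]
      congr 1
      ext x
      simp [mulMap]
    have hδ2 : δ ≫ p2 = z' := by
      rw [← Spec.map_comp]
      congr 1
      ext x
      simp [mulMap]
    have hδq : δ ≫ q = 𝟙 _ := by
      refine uel_ext' A p z' e _ _ ?_ (z' ≫ p) ?_ ?_ ?_
      · rw [Category.assoc, hq, hδ2, Category.id_comp]
      · rw [Category.assoc, ← Category.assoc q, hq, ← Category.assoc, hδ2]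
      · rw [Category.id_comp]
      · have h5 := congrArg (rs A δ (z' ≫ p) (by rw [← Category.assoc, hδ2])) hqw
        rw [rs_rs, rs_rs] at h5
        rw [h5]
        exact rs_congr A _ _ _ _ hδ1 _
    intro x
    rw [← hρq] at hδq
    have hδq' : Spec.map (CommRingCat.ofHom (mulMap (K := K) (L := L) (B' := B')).toRingHom) ≫
      Spec.map (CommRingCat.ofHom ρ.toRingHom) = Spec.map (𝟙 (CommRingCat.of B')) := by
      rw [Spec.map_id]
      exact hδq
    rw [← Spec.map_comp] at hδq'
    have := Spec.map_injective hδq'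
    exact congrArg (fun z => z.hom x) this
  have h3 : ∀ x, Algebra.TensorProduct.map ρ (AlgHom.id K L) (ρ x) =
      Algebra.TensorProduct.map (Algebra.TensorProduct.includeLeft : B' →ₐ[K] B' ⊗[K] L)
        (AlgHom.id K L) (ρ x) := by
    let r1 : Spec (.of ((B' ⊗[K] L) ⊗[K] L)) ⟶ Spec (.of (B' ⊗[K] L)) := Spec.map
      (CommRingCat.ofHom (Algebra.TensorProduct.includeLeftRingHom (R := K)
        (A := B' ⊗[K] L) (B := L)))
    let r2 : Spec (.of ((B' ⊗[K] L) ⊗[K] L)) ⟶ Spec (.of (B' ⊗[K] L)) := Spec.map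
      (CommRingCat.ofHom (Algebra.TensorProduct.map ρ (AlgHom.id K L)).toRingHom)
    let r3 : Spec (.of ((B' ⊗[K] L) ⊗[K] L)) ⟶ Spec (.of (B' ⊗[K] L)) := Spec.map
      (CommRingCat.ofHom (Algebra.TensorProduct.map (Algebra.TensorProduct.includeLeft :
        B' →ₐ[K] B' ⊗[K] L) (AlgHom.id K L)).toRingHom)
    have hr21 : r2 ≫ p1 = r1 ≫ q := by
      rw [← hρq, ← Spec.map_comp, ← Spec.map_comp]
      congr 1
    have hr22 : r2 ≫ p2 = r3 ≫ p2 := by
      rw [← Spec.map_comp, ← Spec.map_comp]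
      congr 1
      ext x
      refine (Algebra.TensorProduct.map_tmul ρ (AlgHom.id K L) 1 x).trans ?_
      refine Eq.trans ?_ (Algebra.TensorProduct.map_tmul (Algebra.TensorProduct.includeLeft :
        B' →ₐ[K] B' ⊗[K] L) (AlgHom.id K L) 1 x).symm
      rw [map_one, map_one]
    have hr31 : r3 ≫ p1 = r1 ≫ p1 := by
      rw [← Spec.map_comp, ← Spec.map_comp]
      congr 1
    have hl3 : r3 ≫ p2 ≫ p = r2 ≫ p2 ≫ p := by
      rw [← Category.assoc, ← hr22, Category.assoc]
    have hl1 : r1 ≫ p2 ≫ p = r2 ≫ p2 ≫ p := by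
      rw [← hP.w, ← Category.assoc, ← hr31, Category.assoc, hP.w, hl3]
    have hr23 : r2 ≫ q = r3 ≫ q := by
      refine uel_ext' A p z' e _ _ ?_ (r2 ≫ p2 ≫ p) ?_ ?_ ?_
      · rw [Category.assoc, Category.assoc, hq, hr22]
      · rw [Category.assoc, ← Category.assoc q, hq]
      · rw [Category.assoc, ← Category.assoc q, hq, hl3]
      · have h5 := congrArg (rs A r2 (r2 ≫ p2 ≫ p) rfl) hqw
        have h6 := congrArg (rs A r1 (r2 ≫ p2 ≫ p) hl1) hqw
        have h7 := congrArg (rs A r3 (r2 ≫ p2 ≫ p) hl3) hqw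
        rw [rs_rs, rs_rs] at h5 h6 h7
        rw [h5, h7, rs_congr A _ _ _ _ hr21, h6]
        exact rs_congr A _ _ _ _ hr31.symm _
    intro x
    rw [← hρq] at hr23
    have hr23' : Spec.map
      (CommRingCat.ofHom (Algebra.TensorProduct.map ρ (AlgHom.id K L)).toRingHom) ≫
      Spec.map (CommRingCat.ofHom ρ.toRingHom) = Spec.map
      (CommRingCat.ofHom (Algebra.TensorProduct.map (Algebra.TensorProduct.includeLeft :
        B' →ₐ[K] B' ⊗[K] L) (AlgHom.id K L)).toRingHom) ≫
        Spec.map (CommRingCat.ofHom ρ.toRingHom) := hr23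
    rw [← Spec.map_comp, ← Spec.map_comp] at hr23'
    have := Spec.map_injective hr23'
    exact congrArg (fun z => z.hom x) this
  have hsq := isPushout_inv ρ (cmpMap_bijective ρ h1 h2 h3)
  refine ⟨invAlg ρ, inferInstance, inferInstance, ?_⟩
  refine descend A hA p hp z' e p1 p2 hP q hq hqw
    (Spec.map (CommRingCat.ofHom (algebraMap K (invAlg ρ))))
    (Spec.map (CommRingCat.ofHom (invAlg ρ).val.toRingHom))
    (isPullback_SpecMap_of_isPushout _ _ _ _ hsq) ?_
  rw [← hρq, ← Spec.map_comp, ← Spec.map_comp]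
  congr 1
  ext x
  have hx : ρ x.1 = x.1 ⊗ₜ 1 := x.2
  exact hx.symm

/-- Descent of affine schemes along an extension of fields. -/
lemma affine_descent {Z' : Scheme.{u}} [IsAffine Z'] (z' : Z' ⟶ Spec (.of L))
    (e : ((Over.map (Spec.map (CommRingCat.ofHom (algebraMap K L)))).op ⋙ A).RepresentableBy
      (Over.mk z')) :
    ∃ (B : Type u) (_ : CommRing B) (_ : Algebra K B),
      Nonempty (A.RepresentableBy (Over.mk (Spec.map (CommRingCat.ofHom (algebraMap K B))))) := by
  let B' : CommRingCat := Γ(Z', ⊤)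
  let φ : CommRingCat.of L ⟶ B' := Spec.preimage (Z'.isoSpec.inv ≫ z')
  have hφ : Spec.map φ = Z'.isoSpec.inv ≫ z' := Spec.map_preimage _
  letI : Algebra L B' := φ.hom.toAlgebra
  letI : Algebra K B' := (φ.hom.comp (algebraMap K L)).toAlgebra
  haveI : IsScalarTower K L B' := IsScalarTower.of_algebraMap_eq' rfl
  let i : Over.mk z' ≅ Over.mk (Spec.map (CommRingCat.ofHom (algebraMap L B'))) :=
    Over.isoMk Z'.isoSpec (by
      change Z'.isoSpec.hom ≫ Spec.map φ = z'
      rw [hφ, Iso.hom_inv_id_assoc])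
  exact affine_descent_aux A hA hp B' (e.ofIsoObj i.symm)

end scheme

end Stk90
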