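import Pool.Agent.Stk90.DescAlg

/-!
# Coverings of the spectrum of a field
-/

open CategoryTheory Opposite Limits AlgebraicGeometry

universe w v u

namespace Stk90

lemma exists_field_point {K : Type u} [Field K] {T : Scheme.{u}} (f : T ⟶ Spec (.of K))
    [LocallyOfFiniteType f] [Nonempty T] :
    ∃ (L : Type u) (_ : Field L) (_ : Algebra K L) (g : Spec (.of L) ⟶ T),
      g ≫ f = Spec.map (CommRingCat.ofHom (algebraMap K L)) ∧ Algebra.FiniteType K L ∧
      FormallyUnramified g := by
  obtain ⟨x⟩ := ‹Nonempty T›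
  obtain ⟨R, j, hj, hx, -⟩ := Scheme.exists_affine_mem_range_and_range_subset (X := T)
    (x := x) (U := ⊤) (by simp)
  obtain ⟨y, -⟩ := hx
  have : Nontrivial R := by
    have : Nonempty (PrimeSpectrum R) := ⟨y⟩
    exact (PrimeSpectrum.nonempty_iff_nontrivial (R := R)).1 this
  obtain ⟨m, hm⟩ := Ideal.exists_maximal R
  let L : Type u := R ⧸ m
  letI : Field L := Ideal.Quotient.field m
  let c : Spec (.of L) ⟶ Spec R := Spec.map (CommRingCat.ofHom (Ideal.Quotient.mk m))
  have hc : IsClosedImmersion c := IsClosedImmersion.spec_of_surjective _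
    Ideal.Quotient.mk_surjective
  let g : Spec (.of L) ⟶ T := c ≫ j
  let α : CommRingCat.of K ⟶ CommRingCat.of L := Spec.preimage (g ≫ f)
  have hα : Spec.map α = g ≫ f := Spec.map_preimage _
  letI : Algebra K L := α.hom.toAlgebra
  refine ⟨L, inferInstance, inferInstance, g, hα.symm, ?_, ?_⟩
  · have h1 : LocallyOfFiniteType (Spec.map α) := by
      rw [hα]
      infer_instance
    rw [HasRingHomProperty.Spec_iff (P := @LocallyOfFiniteType)] at h1
    exact h1
  · infer_instance

/-- The conditions on a class of morphisms which make the arguments work. -/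
structure GoodCov (P : MorphismProperty Scheme.{u}) : Prop where
  loc : ∀ {X Y : Scheme.{u}} (f : X ⟶ Y), P f → LocallyOfFiniteType f
  fld : ∀ {K L : Type u} [Field K] [Field L] [Algebra K L] {T : Scheme.{u}}
    (g : Spec (.of L) ⟶ T) (f : T ⟶ Spec (.of K)), P f → Algebra.FiniteType K L →
    FormallyUnramified g → g ≫ f = Spec.map (CommRingCat.ofHom (algebraMap K L)) →
      P (Spec.map (CommRingCat.ofHom (algebraMap K L)))

lemma surjective_field {K L : Type u} [Field K] [Field L] [Algebra K L] :
    Surjective (Spec.map (CommRingCat.ofHom (algebraMap K L))) := by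
  refine ⟨fun x => ?_⟩
  exact ⟨(⟨⊥, Ideal.isPrime_bot⟩ : PrimeSpectrum L), Subsingleton.elim (α := PrimeSpectrum K) _ _⟩

lemma goodCov_etale : GoodCov (@Etale.{u}) where
  loc f hf := by
    have : Etale f := hf
    infer_instance
  fld {K L} _ _ _ T g f hf hfin hg hgf := by
    have h0 : Etale f := hf
    have h1 : FormallyUnramified (g ≫ f) :=
      MorphismProperty.comp_mem @FormallyUnramified g f hg inferInstance
    rw [hgf] at h1
    have h2 : Flat (Spec.map (CommRingCat.ofHom (algebraMap K L))) := by
      rw [HasRingHomProperty.Spec_iff (P := @Flat)]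
      exact RingHom.flat_algebraMap_iff.2 inferInstance
    have h3 : LocallyOfFinitePresentation (Spec.map (CommRingCat.ofHom (algebraMap K L))) := by
      rw [HasRingHomProperty.Spec_iff (P := @LocallyOfFinitePresentation)]
      exact RingHom.finitePresentation_algebraMap.2
        (Algebra.FinitePresentation.of_finiteType.1 hfin)
    exact Etale.iff_flat_and_formallyUnramified.2 ⟨h2, h1, h3⟩

lemma goodCov_fppf : GoodCov (@Flat ⊓ @LocallyOfFinitePresentation : MorphismProperty Scheme.{u})
    where
  loc f hf := by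
    have : LocallyOfFinitePresentation f := hf.2
    infer_instance
  fld {K L} _ _ _ T g f hf hfin hg hgf := by
    refine ⟨?_, ?_⟩
    · change Flat _
      rw [HasRingHomProperty.Spec_iff (P := @Flat)]
      exact RingHom.flat_algebraMap_iff.2 inferInstance
    · change LocallyOfFinitePresentation _
      rw [HasRingHomProperty.Spec_iff (P := @LocallyOfFinitePresentation)]
      exact RingHom.finitePresentation_algebraMap.2
        (Algebra.FinitePresentation.of_finiteType.1 hfin)

lemma exists_field_cover {P : MorphismProperty Scheme.{u}} [P.IsStableUnderBaseChange]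
    [P.IsMultiplicative] (hP : GoodCov P) {K : Type u} [Field K] {R : Sieve (Spec (.of K))}
    (hR : R ∈ Scheme.grothendieckTopology P (Spec (.of K))) :
    ∃ (L : Type u) (_ : Field L) (_ : Algebra K L),
      R (Spec.map (CommRingCat.ofHom (algebraMap K L))) ∧
      Sieve.generate (Presieve.singleton (Spec.map (CommRingCat.ofHom (algebraMap K L)))) ∈
        Scheme.grothendieckTopology P (Spec (.of K)) := by
  obtain ⟨𝒰, h𝒰⟩ := Scheme.mem_grothendieckTopology_iff.1 hR
  let x0 : Spec (.of K) := (⟨⊥, Ideal.isPrime_bot⟩ : PrimeSpectrum K)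
  obtain ⟨i, y, hy⟩ := 𝒰.exists_eq x0
  have hPi : P (𝒰.f i) := 𝒰.map_prop i
  have hft := hP.loc _ hPi
  have : Nonempty (𝒰.X i) := ⟨y⟩
  obtain ⟨L, hL, hKL, g, hg, hfin, hu⟩ := exists_field_point (𝒰.f i)
  have hPL := hP.fld g (𝒰.f i) hPi hfin hu hg
  refine ⟨L, hL, hKL, ?_, ?_⟩
  · rw [← hg]
    exact R.downward_closed (h𝒰 _ _ ⟨i⟩) g
  · have := surjective_field (K := K) (L := L)
    refine Precoverage.generate_mem_toGrothendieck ?_
    rw [Scheme.singleton_mem_precoverage_iff]
    exact ⟨(Spec.map (CommRingCat.ofHom (algebraMap K L))).surjective, hPL⟩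

end Stk90
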