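import Pool.Agent.Stk90.Tau

/-!
# Gluing torsors
-/

open CategoryTheory Opposite

universe w v u

namespace Stk90

variable {C : Type u} [Category.{v} C]

/-- Gluing morphisms to an object defined on a cover. -/
lemma exists_glue_map {J : GrothendieckTopology C} [J.Subcanonical] {S : C} {R : Sieve S}
    (hR : R ∈ J S) (T : Over S) {Y : C} (φ : ∀ (W : Over S) (_ : W ⟶ T), R W.hom → (W.left ⟶ Y))
    (hφ : ∀ {W W' : Over S} (k : W ⟶ T) (m : W' ⟶ W) (hW : R W.hom) (hW' : R W'.hom),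
      m.left ≫ φ W k hW = φ W' (m ≫ k) hW') :
    ∃ a : T.left ⟶ Y, ∀ (W : Over S) (k : W ⟶ T) (hW : R W.hom), k.left ≫ a = φ W k hW := by
  classical
  let fam : Presieve.FamilyOfElements (yoneda.obj Y) (R.pullback T.hom).arrows :=
    fun V k hk => φ (Over.mk (k ≫ T.hom)) (Over.homMk k) hk
  have hcomp : fam.SieveCompatible := by
    intro V V' k m hk
    have hk1 : R (k ≫ T.hom) := hk
    have hk2 : R ((m ≫ k) ≫ T.hom) := by
      rw [Category.assoc]; exact R.downward_closed hk1 m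
    have h1 := hφ (W := Over.mk (k ≫ T.hom)) (W' := Over.mk ((m ≫ k) ≫ T.hom)) (Over.homMk k)
      (Over.homMk m (by simp)) hk1 hk2
    have h2 : (Over.homMk m (by simp) : Over.mk ((m ≫ k) ≫ T.hom) ⟶ Over.mk (k ≫ T.hom)) ≫
        (Over.homMk k : Over.mk (k ≫ T.hom) ⟶ T) = Over.homMk (m ≫ k) := by
      apply Over.OverMorphism.ext
      rfl
    rw [h2] at h1
    exact h1.symm
  rw [← Presieve.compatible_iff_sieveCompatible] at hcomp
  obtain ⟨a, ha, -⟩ := (GrothendieckTopology.Subcanonical.isSheaf_of_isRepresentable (J := J)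
    (yoneda.obj Y)) _ (J.pullback_stable T.hom hR) _ hcomp
  refine ⟨a, fun W k hW => ?_⟩
  have hk1 : R (k.left ≫ T.hom) := by rw [Over.w]; exact hW
  have h1 : k.left ≫ a = φ (Over.mk (k.left ≫ T.hom)) (Over.homMk k.left) hk1 := ha k.left hk1
  rw [h1]
  have h2 := hφ (W := W) (W' := Over.mk (k.left ≫ T.hom)) k
      (Over.homMk (𝟙 _) (by simp)) hW hk1
  have h3 : (Over.homMk (𝟙 _) (by simp) : Over.mk (k.left ≫ T.hom) ⟶ W) ≫ k =
      (Over.homMk k.left rfl : Over.mk (k.left ≫ T.hom) ⟶ T) := by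
    apply Over.OverMorphism.ext
    simp
  rw [h3] at h2
  rw [← h2]
  simp

variable {G : IntGroupoid C} {J : GrothendieckTopology C}

open Pseudofunctor

section

variable {S : C} {R : Sieve S}
  (D : (torsPseudo G J).DescentData (fun i : R.arrows.category => i.obj.hom))

/-- The torsor of the descent datum at an arrow of the sieve. -/
def dE (W : Over S) (hW : R W.hom) : Tors G J W.left :=
  dobj D (⟨W, hW⟩ : R.arrows.category)

/-- Sections on the arrow itself. -/
abbrev dQ (W : Over S) (hW : R W.hom) : Type (max u v) :=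
  (dE D W hW).P.obj (op (Over.mk (𝟙 W.left)))

/-- The transition maps between the sections. -/
def tr {W W' : Over S} (m : W' ⟶ W) (hW : R W.hom) (hW' : R W'.hom) (x : dQ D W hW) :
    dQ D W' hW' :=
  tau D (i := (⟨W, hW⟩ : R.arrows.category)) (j := (⟨W', hW'⟩ : R.arrows.category))
    m.left (𝟙 W'.left) (by simp) ((dE D W hW).res (l := 𝟙 W.left) m.left m.left (by simp) x)

lemma tr_id {W : Over S} (hW : R W.hom) (x : dQ D W hW) : tr D (𝟙 W) hW hW x = x := by
  unfold tr
  refine (tau_self D (i := (⟨W, hW⟩ : R.arrows.category)) (𝟙 W.left) _).trans ?_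
  apply Tors.res_self
  rfl

lemma tr_tr {W W' W'' : Over S} (m : W' ⟶ W) (m' : W'' ⟶ W') (hW : R W.hom) (hW' : R W'.hom)
    (hW'' : R W''.hom) (x : dQ D W hW) :
    tr D m' hW' hW'' (tr D m hW hW' x) = tr D (m' ≫ m) hW hW'' x := by
  unfold tr
  have h1 := tau_res D (i := (⟨W, hW⟩ : R.arrows.category))
    (j := (⟨W', hW'⟩ : R.arrows.category)) m.left (𝟙 W'.left) (by simp) m'.left
    (m'.left ≫ m.left) m'.left rfl (Category.comp_id _)
    ((dE D W hW).res (l := 𝟙 W.left) m.left m.left (by simp) x)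
  refine (congrArg (tau D (i := (⟨W', hW'⟩ : R.arrows.category))
    (j := (⟨W'', hW''⟩ : R.arrows.category)) m'.left (𝟙 W''.left) (by simp)) h1).trans ?_
  rw [tau_tau]
  congr 1
  exact Tors.res_res _ _ _ _

lemma a_tr {W W' : Over S} (m : W' ⟶ W) (hW : R W.hom) (hW' : R W'.hom) (x : dQ D W hW) :
    (dE D W' hW').a (tr D m hW hW' x) = m.left ≫ (dE D W hW).a x := by
  unfold tr
  refine (a_tau D (i := (⟨W, hW⟩ : R.arrows.category))
    (j := (⟨W', hW'⟩ : R.arrows.category)) m.left (𝟙 W'.left) (by simp) _).trans ?_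
  exact (dE D W hW).a_res _ _ _ _

lemma r_tr {W W' : Over S} (m : W' ⟶ W) (hW : R W.hom) (hW' : R W'.hom) (x y : dQ D W hW) :
    (dE D W' hW').r (tr D m hW hW' x) (tr D m hW hW' y) = m.left ≫ (dE D W hW).r x y := by
  unfold tr
  refine (r_tau D (i := (⟨W, hW⟩ : R.arrows.category))
    (j := (⟨W', hW'⟩ : R.arrows.category)) m.left (𝟙 W'.left) (by simp) _ _).trans ?_
  exact (dE D W hW).r_res _ _ _ _ _

/-- The sieve over `𝟙` in `Over W.left` corresponding to a sieve over `W`. -/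
def underSieve {W : Over S} (K : Sieve W) : Sieve (Over.mk (𝟙 W.left)) where
  arrows Z _ := K (Over.homMk Z.hom rfl : Over.mk (Z.hom ≫ W.hom) ⟶ W)
  downward_closed {Z Z' g} hg h := by
    have h1 := K.downward_closed hg
      (Over.homMk h.left (by simp) : Over.mk (Z'.hom ≫ W.hom) ⟶ Over.mk (Z.hom ≫ W.hom))
    convert! h1 using 1
    apply Over.OverMorphism.ext
    simp

lemma underSieve_mem {W : Over S} {K : Sieve W} (hK : K ∈ (J.over S) W) :
    underSieve K ∈ (J.over W.left) (Over.mk (𝟙 W.left)) := by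
  rw [GrothendieckTopology.mem_over_iff] at hK ⊢
  have : (Sieve.overEquiv (Over.mk (𝟙 W.left))) (underSieve K) = (Sieve.overEquiv W) K := by
    ext Y g
    rw [Sieve.overEquiv_iff, Sieve.overEquiv_iff]
    have hcg : ∀ (a b : Y ⟶ W.left) (_ : a = b),
        K (Over.homMk a rfl : Over.mk (a ≫ W.hom) ⟶ W) →
        K (Over.homMk b rfl : Over.mk (b ≫ W.hom) ⟶ W) := by
      intro a b hab h
      subst hab
      exact h
    exact ⟨fun h => hcg _ _ (Category.comp_id _) h, fun h => hcg _ _ (Category.comp_id _).symm h⟩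
  rw [this]
  exact hK

lemma res_eq_tau_tr {W : Over S} (hW : R W.hom) (x : dQ D W hW) (Z : Over W.left) :
    (dE D W hW).res (l := 𝟙 W.left) Z.hom Z.hom (by simp) x =
      tau D (i := (⟨Over.mk (Z.hom ≫ W.hom), R.downward_closed hW _⟩ : R.arrows.category))
        (j := (⟨W, hW⟩ : R.arrows.category)) (𝟙 Z.left) Z.hom (by simp)
        (tr D (Over.homMk Z.hom rfl : Over.mk (Z.hom ≫ W.hom) ⟶ W) hW
          (R.downward_closed hW _) x) := by
  unfold tr
  refine Eq.trans ?_ (tau_tau D (i := (⟨W, hW⟩ : R.arrows.category))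
    (j := (⟨Over.mk (Z.hom ≫ W.hom), R.downward_closed hW _⟩ : R.arrows.category))
    (k := (⟨W, hW⟩ : R.arrows.category)) Z.hom (𝟙 Z.left) Z.hom (by simp) (by simp) _).symm
  exact (tau_self D (i := (⟨W, hW⟩ : R.arrows.category)) _ _).symm

/-- Gluing sections over the arrows of the sieve. -/
lemma exists_glue_sec {W : Over S} (hW : R W.hom) {K : Sieve W} (hK : K ∈ (J.over S) W)
    (z : ∀ {W' : Over S} (m : W' ⟶ W), K m → ∀ hW' : R W'.hom, dQ D W' hW')
    (hz : ∀ {W' W'' : Over S} (m : W' ⟶ W) (m' : W'' ⟶ W') (hm : K m) (hm' : K (m' ≫ m))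
      (hW' : R W'.hom) (hW'' : R W''.hom),
      tr D m' hW' hW'' (z m hm hW') = z (m' ≫ m) hm' hW'') :
    ∃! x : dQ D W hW, ∀ {W' : Over S} (m : W' ⟶ W) (hm : K m) (hW' : R W'.hom),
      tr D m hW hW' x = z m hm hW' := by
  have hR : ∀ Z : Over W.left, R (Over.mk (Z.hom ≫ W.hom)).hom := fun Z =>
    R.downward_closed hW _
  let y : Presieve.FamilyOfElements (dE D W hW).P (underSieve K).arrows := fun Z g hg =>
    tau D (i := (⟨Over.mk (Z.hom ≫ W.hom), hR Z⟩ : R.arrows.category))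
        (j := (⟨W, hW⟩ : R.arrows.category)) (𝟙 Z.left) Z.hom (by simp)
        (z (Over.homMk Z.hom rfl : Over.mk (Z.hom ≫ W.hom) ⟶ W) hg (hR Z))
  have hy : y.SieveCompatible := by
    intro Z Z' g h hg
    have hg' : K (Over.homMk Z.hom rfl : Over.mk (Z.hom ≫ W.hom) ⟶ W) := hg
    have hg'' : K (Over.homMk Z'.hom rfl : Over.mk (Z'.hom ≫ W.hom) ⟶ W) :=
      (underSieve K).downward_closed hg h
    let m' : Over.mk (Z'.hom ≫ W.hom) ⟶ Over.mk (Z.hom ≫ W.hom) :=
      Over.homMk h.left (by simp)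
    have hm' : m' ≫ (Over.homMk Z.hom rfl : Over.mk (Z.hom ≫ W.hom) ⟶ W) =
        (Over.homMk Z'.hom rfl : Over.mk (Z'.hom ≫ W.hom) ⟶ W) := by
      apply Over.OverMorphism.ext
      simp [m']
    have h1 := hz (Over.homMk Z.hom rfl : Over.mk (Z.hom ≫ W.hom) ⟶ W) m' hg'
      (by rw [hm']; exact hg'') (hR Z) (hR Z')
    have h2 : z (m' ≫ (Over.homMk Z.hom rfl : Over.mk (Z.hom ≫ W.hom) ⟶ W))
      (by rw [hm']; exact hg'') (hR Z') = z (Over.homMk Z'.hom rfl :
        Over.mk (Z'.hom ≫ W.hom) ⟶ W) hg'' (hR Z') := by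
      congr 1
    rw [h2] at h1
    change tau D (i := (⟨Over.mk (Z'.hom ≫ W.hom), hR Z'⟩ : R.arrows.category))
        (j := (⟨W, hW⟩ : R.arrows.category)) (𝟙 Z'.left) Z'.hom (by simp)
        (z (Over.homMk Z'.hom rfl : Over.mk (Z'.hom ≫ W.hom) ⟶ W) hg'' (hR Z')) = _
    rw [← h1, Tors.map_eq_res]
    have h3 := tau_res D (i := (⟨Over.mk (Z.hom ≫ W.hom), hR Z⟩ : R.arrows.category))
        (j := (⟨W, hW⟩ : R.arrows.category)) (𝟙 Z.left) Z.hom (by simp) h.left h.left Z'.hom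
        (Category.comp_id _) (Over.w h)
        (z (Over.homMk Z.hom rfl : Over.mk (Z.hom ≫ W.hom) ⟶ W) hg' (hR Z))
    refine Eq.trans ?_ h3.symm
    exact tau_tau D (i := (⟨Over.mk (Z.hom ≫ W.hom), hR Z⟩ : R.arrows.category))
      (j := (⟨Over.mk (Z'.hom ≫ W.hom), hR Z'⟩ : R.arrows.category))
      (k := (⟨W, hW⟩ : R.arrows.category)) h.left (𝟙 Z'.left) Z'.hom _ _ _
  rw [← Presieve.compatible_iff_sieveCompatible] at hy
  obtain ⟨x, hx, hxu⟩ := (dE D W hW).isSheaf _ (underSieve_mem hK) y hy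
  refine ⟨x, ?_, ?_⟩
  · intro W' m hm hW'
    have hw : m.left ≫ W.hom = W'.hom := Over.w m
    let m' : W' ⟶ Over.mk (m.left ≫ W.hom) := Over.homMk (𝟙 _) (by simp)
    have hm' : m' ≫ (Over.homMk m.left rfl : Over.mk (m.left ≫ W.hom) ⟶ W) = m := by
      apply Over.OverMorphism.ext
      simp [m']
    have hm2 : K (Over.homMk m.left rfl : Over.mk (m.left ≫ W.hom) ⟶ W) := by
      have := K.downward_closed hm
        (Over.homMk (𝟙 _) (by simp) : Over.mk (m.left ≫ W.hom) ⟶ W')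
      convert! this using 1
      apply Over.OverMorphism.ext
      simp
    have h1 := hz (Over.homMk m.left rfl : Over.mk (m.left ≫ W.hom) ⟶ W) m' hm2
      (by rw [hm']; exact hm) (hR (Over.mk m.left)) hW'
    have h2 : z (m' ≫ (Over.homMk m.left rfl : Over.mk (m.left ≫ W.hom) ⟶ W))
      (by rw [hm']; exact hm) hW' = z m hm hW' := by
      congr 1
    rw [h2] at h1
    have h3 := hx (Over.homMk m.left (by simp) : Over.mk m.left ⟶ Over.mk (𝟙 W.left)) hm2
    rw [← h1]
    unfold tr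
    have h4 : (dE D W hW).res (l := 𝟙 W.left) m.left m.left (by simp) x =
        tau D (i := (⟨Over.mk (m.left ≫ W.hom), hR (Over.mk m.left)⟩ : R.arrows.category))
        (j := (⟨W, hW⟩ : R.arrows.category)) (𝟙 W'.left) m.left (by simp)
        (z (Over.homMk m.left rfl : Over.mk (m.left ≫ W.hom) ⟶ W) hm2
          (hR (Over.mk m.left))) := h3
    rw [h4]
    refine (tau_tau D (i := (⟨Over.mk (m.left ≫ W.hom), hR (Over.mk m.left)⟩ :
      R.arrows.category)) (j := (⟨W, hW⟩ : R.arrows.category))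
      (k := (⟨W', hW'⟩ : R.arrows.category)) (𝟙 W'.left) m.left (𝟙 W'.left) _ _ _).trans ?_
    congr 1
    symm
    apply Tors.res_self
    rfl
  · intro x' hx'
    apply hxu
    intro Z g hg
    have h1 := hx' (Over.homMk Z.hom rfl : Over.mk (Z.hom ≫ W.hom) ⟶ W) hg (hR Z)
    rw [Tors.map_eq_res]
    have h2 := res_eq_tau_tr D hW x' Z
    refine Eq.trans ?_ (h2.trans ?_)
    · apply Tors.res_congr
      have := Over.w g
      simpa using this
    · exact congrArg (tau D (i := (⟨Over.mk (Z.hom ≫ W.hom), hR Z⟩ : R.arrows.category))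
        (j := (⟨W, hW⟩ : R.arrows.category)) (𝟙 Z.left) Z.hom (by simp)) h1

end

end Stk90
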