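import Pool.Agent.Stk90.Stack

/-!
# Morphisms out of a torsor with a section
-/

open CategoryTheory Opposite

universe w v u

namespace Stk90

variable {C : Type u} [Category.{v} C]

namespace IntGroupoid

variable (G : IntGroupoid C)

lemma comp_congr {T : C} {g g' h h' : T ⟶ G.R} (hg : g = g') (hh : h = h')
    (w : g ≫ G.t = h ≫ G.s) : G.comp g h w = G.comp g' h' (by rw [← hg, ← hh, w]) := by
  subst hg
  subst hh
  rfl

lemma comp_inv_cancel {T : C} (g h : T ⟶ G.R) (w : g ≫ G.t = h ≫ G.s) :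
    G.comp (g ≫ G.inv) (G.comp g h w) (by rw [G.comp_s, Category.assoc, G.inv_t]) = h := by
  rw [← G.assoc (g ≫ G.inv) g h (by rw [Category.assoc, G.inv_t]) w]
  rw [G.comp_congr (G.inv_comp g) rfl]
  rw [G.comp_congr (g' := h ≫ G.s ≫ G.e) (h' := h)
    (by rw [← Category.assoc, w, Category.assoc]) rfl]
  exact G.id_comp h

lemma comp_cancel_inv {T : C} (g h : T ⟶ G.R) (w : g ≫ G.s = h ≫ G.s) :
    G.comp g (G.comp (g ≫ G.inv) h (by rw [Category.assoc, G.inv_t, w]))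
      (by rw [G.comp_s, Category.assoc, G.inv_s]) = h := by
  rw [← G.assoc g (g ≫ G.inv) h (by rw [Category.assoc, G.inv_s])
    (by rw [Category.assoc, G.inv_t, w])]
  rw [G.comp_congr (G.comp_inv g) rfl]
  rw [G.comp_congr (g' := h ≫ G.s ≫ G.e) (h' := h)
    (by rw [← Category.assoc, w, Category.assoc]) rfl]
  exact G.id_comp h

lemma e_inv : G.e ≫ G.inv = G.e := by
  have h1 := G.comp_id (G.e ≫ G.inv)
  have h2 := G.inv_comp G.e
  have h3 : G.comp (G.e ≫ G.inv) G.e (by rw [Category.assoc, G.inv_t]) =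
      G.comp (G.e ≫ G.inv) ((G.e ≫ G.inv) ≫ G.t ≫ G.e)
        (by simp [G.e_s]) := by
    apply G.comp_congr rfl
    rw [Category.assoc, ← Category.assoc G.inv, G.inv_t, ← Category.assoc, G.e_s,
      Category.id_comp]
  rw [h1, h2, ← Category.assoc, G.e_t, Category.id_comp] at h3
  exact h3.symm

end IntGroupoid

namespace Tors

variable {G : IntGroupoid C} {J : GrothendieckTopology C}

lemma r_congr {S : C} (M : Tors G J S) {T : Over S} {p p' q q' : M.P.obj (op T)} (h : p = p')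
    (h' : q = q') : M.r p q = M.r p' q' := by
  rw [h, h']

lemma r_symm {S : C} (M : Tors G J S) {T : Over S} (p q : M.P.obj (op T)) :
    M.r q p = M.r p q ≫ G.inv := by
  have h1 : G.comp (M.r p q ≫ G.inv) (G.comp (M.r p q) (M.r q p) (by rw [M.r_t, M.r_s]))
      (by rw [G.comp_s, Category.assoc, G.inv_t]) = M.r q p := G.comp_inv_cancel _ _ _
  rw [← h1]
  have h2 : G.comp (M.r p q) (M.r q p) (by rw [M.r_t, M.r_s]) =
      (M.r p q ≫ G.inv) ≫ G.t ≫ G.e := by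
    rw [M.r_comp, M.r_self, Category.assoc, ← Category.assoc G.inv, G.inv_t, ← Category.assoc,
      M.r_s]
  rw [G.comp_congr rfl h2]
  exact G.comp_id _

end Tors

variable {G : IntGroupoid C} {J : GrothendieckTopology C}

/-- The structure map seen as a map to the final object. -/
def toId {Y : C} (T : Over Y) : T ⟶ Over.mk (𝟙 Y) := Over.homMk T.hom (by simp)

/-- A morphism out of a torsor with a section is determined by the image of the section. -/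
lemma hom_sec_ext {Y : C} {A B : Tors G J Y} (p : A.P.obj (op (Over.mk (𝟙 Y))))
    {φ ψ : A ⟶ B} (h : φ.f.app _ p = ψ.f.app _ p) : φ = ψ := by
  apply Tors.hom_ext
  ext T g
  obtain ⟨T⟩ := T
  apply B.r_inj (p := φ.f.app (op T) (A.P.map (toId T).op p))
  refine (φ.r_f _ _).trans ?_
  refine (ψ.r_f _ _).symm.trans ?_
  apply B.r_congr _ rfl
  rw [← Tors.f_nat, ← Tors.f_nat, h]

/-- The morphism out of a torsor with a section with a given image of the section. -/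
lemma exists_hom_sec {Y : C} (A B : Tors G J Y) (p : A.P.obj (op (Over.mk (𝟙 Y))))
    (q : B.P.obj (op (Over.mk (𝟙 Y)))) (hq : B.a q = A.a p) :
    ∃ φ : A ⟶ B, φ.f.app _ p = q := by
  classical
  have hmain : ∀ (T : Over Y) (x : A.P.obj (op T)),
      ∃! y : B.P.obj (op T), B.r (B.P.map (toId T).op q) y = A.r (A.P.map (toId T).op p) x := by
    intro T x
    apply B.trans
    rw [A.r_s, B.a_nat, A.a_nat, hq]
  choose y hy hyu using hmain
  refine ⟨{ f := { app := fun T => ↾(fun x => y T.unop x), naturality := ?_ },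
            a_f := ?_, r_f := ?_ }, ?_⟩
  · intro T T' k
    ext x
    change y T'.unop _ = B.P.map k (y T.unop x)
    symm
    apply hyu
    have h1 := B.r_nat k.unop (B.P.map (toId T.unop).op q) (y T.unop x)
    rw [hy, ← A.r_nat] at h1
    have h2 : B.P.map k.unop.op (B.P.map (toId T.unop).op q) = B.P.map (toId T'.unop).op q := by
      rw [Tors.map_map]
      apply Tors.map_eq_map
      exact Over.w k.unop
    have h3 : A.P.map k.unop.op (A.P.map (toId T.unop).op p) = A.P.map (toId T'.unop).op p := by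
      rw [Tors.map_map]
      apply Tors.map_eq_map
      exact Over.w k.unop
    rw [h2, h3] at h1
    exact h1
  · intro T x
    change B.a (y T x) = A.a x
    rw [← B.r_t (B.P.map (toId T).op q), hy, A.r_t]
  · intro T x z
    change B.r (y T x) (y T z) = A.r x z
    rw [← B.r_comp (y T x) (B.P.map (toId T).op q) (y T z),
      ← A.r_comp x (A.P.map (toId T).op p) z]
    apply G.comp_congr
    · rw [B.r_symm, hy, ← A.r_symm]
    · exact hy T z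
  · change y (Over.mk (𝟙 Y)) p = q
    symm
    apply hyu
    have h0 : toId (Over.mk (𝟙 Y)) = 𝟙 _ := by
      apply Over.OverMorphism.ext
      rfl
    have h1 : B.P.map (toId (Over.mk (𝟙 Y))).op q = q := by
      rw [h0]
      simp
    have h2 : A.P.map (toId (Over.mk (𝟙 Y))).op p = p := by
      rw [h0]
      simp
    rw [h1, h2, B.r_self, A.r_self, hq]

/-- Morphisms out of a torsor with a section are the sections with the same anchor. -/
noncomputable def homSecEquiv {X₁ X₂ Y : C} (f₁ : Y ⟶ X₁) (f₂ : Y ⟶ X₂) (M₁ : Tors G J X₁)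
    (M₂ : Tors G J X₂) (p : M₁.P.obj (op (Over.mk f₁))) :
    ((Tors.pull f₁).obj M₁ ⟶ (Tors.pull f₂).obj M₂) ≃
      { q : M₂.P.obj (op (Over.mk f₂)) // M₂.a q = M₁.a p } :=
  Equiv.ofBijective (fun φ => ⟨M₂.res (l := 𝟙 Y ≫ f₂) (𝟙 Y) f₂ (by simp)
      (φ.f.app (op (Over.mk (𝟙 Y))) (M₁.res (l := f₁) (𝟙 Y) (𝟙 Y ≫ f₁) (by simp) p)), by
    rw [Tors.a_res, Category.id_comp]
    refine (φ.a_f _).trans ?_
    refine (M₁.a_res (l := f₁) _ _ _ _).trans ?_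
    exact Category.id_comp _⟩) (by
    constructor
    · intro φ ψ h
      apply hom_sec_ext (M₁.res (l := f₁) (𝟙 Y) (𝟙 Y ≫ f₁) (by simp) p)
      have h1 := congrArg (fun z => M₂.res (l := f₂) (𝟙 Y) (𝟙 Y ≫ f₂) (by simp) z.1) h
      simp only [Tors.res_res] at h1
      rw [Tors.res_self _ _ (by simp), Tors.res_self _ _ (by simp)] at h1
      exact h1
    · rintro ⟨q, hq⟩
      obtain ⟨φ, hφ⟩ := exists_hom_sec ((Tors.pull f₁).obj M₁) ((Tors.pull f₂).obj M₂)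
        (M₁.res (l := f₁) (𝟙 Y) (𝟙 Y ≫ f₁) (by simp) p)
        (M₂.res (l := f₂) (𝟙 Y) (𝟙 Y ≫ f₂) (by simp) q) (by
          refine (M₂.a_res (l := f₂) _ _ _ _).trans ?_
          refine Eq.trans ?_ (M₁.a_res (l := f₁) _ _ _ _).symm
          rw [hq])
      refine ⟨φ, ?_⟩
      apply Subtype.ext
      change M₂.res (l := 𝟙 Y ≫ f₂) (𝟙 Y) f₂ (by simp)
        (φ.f.app (op (Over.mk (𝟙 Y))) (M₁.res (l := f₁) (𝟙 Y) (𝟙 Y ≫ f₁) (by simp) p)) = q
      rw [hφ, Tors.res_res]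
      apply Tors.res_self
      simp)

lemma homSecEquiv_apply {X₁ X₂ Y : C} (f₁ : Y ⟶ X₁) (f₂ : Y ⟶ X₂) (M₁ : Tors G J X₁)
    (M₂ : Tors G J X₂) (p : M₁.P.obj (op (Over.mk f₁)))
    (φ : (Tors.pull f₁).obj M₁ ⟶ (Tors.pull f₂).obj M₂) :
    (homSecEquiv f₁ f₂ M₁ M₂ p φ).1 = M₂.res (l := 𝟙 Y ≫ f₂) (𝟙 Y) f₂ (by simp)
      (φ.f.app (op (Over.mk (𝟙 Y))) (M₁.res (l := f₁) (𝟙 Y) (𝟙 Y ≫ f₁) (by simp) p)) := rfl

open Pseudofunctor.LocallyDiscreteOpToCat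

lemma homSecEquiv_pullHom {X₁ X₂ Y Y' : C} (f₁ : Y ⟶ X₁) (f₂ : Y ⟶ X₂) (M₁ : Tors G J X₁)
    (M₂ : Tors G J X₂) (p : M₁.P.obj (op (Over.mk f₁)))
    (φ : (Tors.pull f₁).obj M₁ ⟶ (Tors.pull f₂).obj M₂)
    (g : Y' ⟶ Y) (gf₁ : Y' ⟶ X₁) (gf₂ : Y' ⟶ X₂) (hgf₁ : g ≫ f₁ = gf₁) (hgf₂ : g ≫ f₂ = gf₂) :
    (homSecEquiv gf₁ gf₂ M₁ M₂ (M₁.res (l := f₁) g gf₁ hgf₁ p)
      (pullHom (F := torsPseudo G J) (M₁ := M₁) (M₂ := M₂) φ g gf₁ gf₂ hgf₁ hgf₂)).1 =
      M₂.res (l := f₂) g gf₂ hgf₂ (homSecEquiv f₁ f₂ M₁ M₂ p φ).1 := by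
  rw [homSecEquiv_apply, homSecEquiv_apply]
  have h1 := pullHom_app (G := G) (J := J) (M₁ := M₁) (M₂ := M₂) φ g gf₁ gf₂ hgf₁ hgf₂
    (Over.mk (𝟙 Y')) (M₁.res (l := gf₁) (𝟙 Y') (𝟙 Y' ≫ gf₁) (by simp)
      (M₁.res (l := f₁) g gf₁ hgf₁ p))
  have h2 : φ.f.app (op (Over.mk (𝟙 Y' ≫ g))) (M₁.res (l := 𝟙 Y' ≫ gf₁) (𝟙 Y')
      ((𝟙 Y' ≫ g) ≫ f₁) (by rw [← hgf₁]; simp)
        (M₁.res (l := gf₁) (𝟙 Y') (𝟙 Y' ≫ gf₁) (by simp) (M₁.res (l := f₁) g gf₁ hgf₁ p))) =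
      M₂.res (V := Y) (l := 𝟙 Y ≫ f₂) g ((𝟙 Y' ≫ g) ≫ f₂) (by simp)
        (φ.f.app (op (Over.mk (𝟙 Y))) (M₁.res (l := f₁) (𝟙 Y) (𝟙 Y ≫ f₁) (by simp) p)) := by
    have h3 := Tors.res_f φ (V := Y) (V' := Y') (l := 𝟙 Y) g (𝟙 Y' ≫ g) (by simp)
      (M₁.res (l := f₁) (𝟙 Y) (𝟙 Y ≫ f₁) (by simp) p)
    refine Eq.trans ?_ h3.symm
    congr 1
    rw [Tors.pull_res, Tors.res_res, Tors.res_res, Tors.res_res]
    apply Tors.res_congr
    simp
  refine (congrArg (M₂.res (l := 𝟙 Y' ≫ gf₂) (𝟙 Y') gf₂ (by simp)) h1).trans ?_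
  change M₂.res (l := 𝟙 Y' ≫ gf₂) (𝟙 Y') gf₂ (by simp) (M₂.res (V := Y')
    (l := (𝟙 Y' ≫ g) ≫ f₂) (𝟙 Y') (𝟙 Y' ≫ gf₂) (by rw [← hgf₂]; simp)
      (φ.f.app (op (Over.mk (𝟙 Y' ≫ g))) (M₁.res (l := 𝟙 Y' ≫ gf₁) (𝟙 Y')
      ((𝟙 Y' ≫ g) ≫ f₁) (by rw [← hgf₁]; simp)
        (M₁.res (l := gf₁) (𝟙 Y') (𝟙 Y' ≫ gf₁) (by simp) (M₁.res (l := f₁) g gf₁ hgf₁ p))))) = _
  rw [h2, Tors.res_res, Tors.res_res, Tors.res_res]
  apply Tors.res_congr
  simp

end Stk90
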