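import Pool.Agent.Stk90.Res

/-!
# Torsors form a prestack
-/

open CategoryTheory Opposite

universe w v u

namespace Stk90

variable {C : Type u} [Category.{v} C]

/-- The sieve on `T` of the arrows whose source has structure map in `R`. -/
def overSieve {S : C} (R : Sieve S) (T : Over S) : Sieve T where
  arrows W _ := R W.hom
  downward_closed {W V g} hg h := by
    have := R.downward_closed hg h.left
    rwa [Over.w] at this

lemma overSieve_mem {J : GrothendieckTopology C} {S : C} {R : Sieve S} (hR : R ∈ J S)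
    (T : Over S) : overSieve R T ∈ (J.over S) T := by
  have : overSieve R T = (Sieve.overEquiv T).symm (R.pullback T.hom) := by
    ext W g
    rw [Sieve.overEquiv_symm_iff, Sieve.pullback_apply, Over.w]
    rfl
  rw [this]
  exact J.overEquiv_symm_mem_over _ _ (J.pullback_stable _ hR)

lemma hom_ext_of_cover {J : GrothendieckTopology C} [J.Subcanonical] {X Y : C} {K : Sieve X}
    (hK : K ∈ J X) {a b : X ⟶ Y} (h : ∀ ⦃V : C⦄ (k : V ⟶ X), K k → k ≫ a = k ≫ b) : a = b :=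
  ((GrothendieckTopology.Subcanonical.isSheaf_of_isRepresentable (J := J)
    (yoneda.obj Y)) K hK).isSeparatedFor.ext fun V k hk => h k hk

/-- Gluing morphisms of sheaves which are defined locally. -/
lemma exists_glueHom {J : GrothendieckTopology C} {S : C} {R : Sieve S} (hR : R ∈ J S)
    (P Q : (Over S)ᵒᵖ ⥤ Type w) (hQ : Presieve.IsSheaf (J.over S) Q)
    (φ : ∀ (W : Over S), R W.hom → P.obj (op W) → Q.obj (op W))
    (hφ : ∀ {W W' : Over S} (g : W' ⟶ W) (hW : R W.hom) (hW' : R W'.hom) (x : P.obj (op W)),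
      Q.map g.op (φ W hW x) = φ W' hW' (P.map g.op x)) :
    ∃ f : P ⟶ Q, ∀ (W : Over S) (hW : R W.hom) (x : P.obj (op W)),
      f.app (op W) x = φ W hW x := by
  classical
  have hmap : ∀ {A B D : Over S} (g : B ⟶ A) (h : D ⟶ B) (x : P.obj (op A)),
      P.map h.op (P.map g.op x) = P.map (h ≫ g).op x := by
    intro A B D g h x
    rw [op_comp, Functor.map_comp, types_comp_apply]
  have hmapQ : ∀ {A B D : Over S} (g : B ⟶ A) (h : D ⟶ B) (x : Q.obj (op A)),
      Q.map h.op (Q.map g.op x) = Q.map (h ≫ g).op x := by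
    intro A B D g h x
    rw [op_comp, Functor.map_comp, types_comp_apply]
  have hmain : ∀ (T : Over S) (x : P.obj (op T)), ∃ y : Q.obj (op T),
      ∀ (W : Over S) (g : W ⟶ T) (hW : R W.hom), Q.map g.op y = φ W hW (P.map g.op x) := by
    intro T x
    have hcomp : Presieve.FamilyOfElements.SieveCompatible
        (fun W g hg => φ W hg (P.map g.op x) :
          Presieve.FamilyOfElements Q (overSieve R T).arrows) := by
      intro W V g h hg
      have hV : R V.hom := (overSieve R T).downward_closed hg h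
      change φ V hV (P.map (h ≫ g).op x) = Q.map h.op (φ W hg (P.map g.op x))
      rw [hφ h hg hV, hmap]
    rw [← Presieve.compatible_iff_sieveCompatible] at hcomp
    obtain ⟨y, hy, -⟩ := hQ (overSieve R T) (overSieve_mem hR T) _ hcomp
    exact ⟨y, fun W g hW => hy g hW⟩
  choose f hf using hmain
  refine ⟨{ app := fun T => ↾(fun x => f T.unop x), naturality := ?_ }, ?_⟩
  · intro T T' k
    ext x
    change f T'.unop (P.map k x) = Q.map k (f T.unop x)
    refine (hQ (overSieve R T'.unop) (overSieve_mem hR T'.unop)).isSeparatedFor.ext ?_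
    intro W g hW
    rw [hf _ _ W g hW]
    have h1 : Q.map g.op (Q.map k (f T.unop x)) = Q.map (g ≫ k.unop).op (f T.unop x) :=
      hmapQ k.unop g _
    have h2 : P.map g.op (P.map k x) = P.map (g ≫ k.unop).op x := hmap k.unop g _
    rw [h1, h2, hf _ _ W _ hW]
  · intro W hW x
    have h1 := hf W x W (𝟙 W) hW
    simpa using h1

variable {G : IntGroupoid C} {J : GrothendieckTopology C}

open Pseudofunctor

lemma ofObj_hom_app {ι : Type w} {S : C} {X : ι → C} (f : ∀ i, X i ⟶ S) (M : Tors G J S)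
    {Y : C} (q : Y ⟶ S) {i₁ i₂ : ι} (f₁ : Y ⟶ X i₁) (f₂ : Y ⟶ X i₂) (hf₁ : f₁ ≫ f i₁ = q)
    (hf₂ : f₂ ≫ f i₂ = q) (T : Over Y)
    (x : M.P.obj (op (Over.mk ((T.hom ≫ f₁) ≫ f i₁)))) :
    (Tors.Hom.f ((DescentData.ofObj (F := torsPseudo G J) (f := f) M).hom q f₁ f₂ hf₁
      hf₂)).app (op T) x = M.res (𝟙 _) ((T.hom ≫ f₂) ≫ f i₂)
        (by rw [Category.assoc, Category.assoc, hf₁, hf₂, Category.id_comp]) x := by
  have h1 := mapComp'_hom_app (G := G) (J := J) (f i₂) f₂ q hf₂ M T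
    (M.res (𝟙 _) (T.hom ≫ q) (by rw [Category.assoc, hf₁, Category.id_comp]) x)
  rw [Tors.res_res] at h1
  refine Eq.trans ?_ (h1.trans ?_)
  · rw [← mapComp'_inv_app (G := G) (J := J) (f i₁) f₁ q hf₁ M T x]
    rfl
  · unfold Tors.res
    apply Tors.map_eq_map
    simp

lemma comm_app {ι : Type w} {S : C} {X : ι → C} (f : ∀ i, X i ⟶ S) (M N : Tors G J S)
    (γ : ((torsPseudo G J).toDescentData f).obj M ⟶ ((torsPseudo G J).toDescentData f).obj N)
    {Y : C} (q : Y ⟶ S) {i₁ i₂ : ι} (f₁ : Y ⟶ X i₁) (f₂ : Y ⟶ X i₂) (hf₁ : f₁ ≫ f i₁ = q)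
    (hf₂ : f₂ ≫ f i₂ = q) (T : Over Y)
    (x : M.P.obj (op (Over.mk ((T.hom ≫ f₁) ≫ f i₁)))) :
    N.res (V := T.left) (l := (T.hom ≫ f₁) ≫ f i₁) (𝟙 _) ((T.hom ≫ f₂) ≫ f i₂)
        (by rw [Category.assoc, Category.assoc, hf₁, hf₂, Category.id_comp])
      ((Tors.Hom.f (DescentData.Hom.hom γ i₁)).app (op (Over.mk (T.hom ≫ f₁))) x) =
    (Tors.Hom.f (DescentData.Hom.hom γ i₂)).app (op (Over.mk (T.hom ≫ f₂)))
      (M.res (𝟙 _) ((T.hom ≫ f₂) ≫ f i₂)
        (by rw [Category.assoc, Category.assoc, hf₁, hf₂, Category.id_comp]) x) := by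
  have h1 := congrArg (fun z => (Tors.Hom.f z).app (op T) x)
    (DescentData.Hom.comm γ q f₁ f₂ hf₁ hf₂)
  rw [← ofObj_hom_app f M q f₁ f₂ hf₁ hf₂ T x]
  refine Eq.trans ?_ h1
  exact (ofObj_hom_app f N q f₁ f₂ hf₁ hf₂ T _).symm

/-- Torsors form a prestack. -/
instance isPrestack [J.Subcanonical] : (torsPseudo G J).IsPrestack J := by
  refine .of_isPrestackFor fun S R hR => ?_
  rw [isPrestackFor_iff, Functor.FullyFaithful.nonempty_iff_map_bijective]
  intro M N
  change Tors G J S at M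
  change Tors G J S at N
  constructor
  · intro φ ψ hφψ
    change Tors.Hom M N at φ
    change Tors.Hom M N at ψ
    apply Tors.hom_ext
    ext T x
    refine (N.isSheaf (overSieve R T.unop) (overSieve_mem hR T.unop)).isSeparatedFor.ext ?_
    intro W g hW
    have h1 : ((Tors.pull W.hom).map φ : (Tors.pull W.hom).obj M ⟶ _) =
        (Tors.pull W.hom).map ψ :=
      congrArg (fun z => DescentData.Hom.hom z (⟨W, hW⟩ : R.arrows.category)) hφψ
    have h2 := congrArg (fun z => (Tors.Hom.f z).app (op (Over.mk (𝟙 W.left)))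
      (M.res (𝟙 _) (𝟙 _ ≫ W.hom) (by simp) (M.P.map g.op x))) h1
    have h3 : φ.f.app (op (Over.mk (𝟙 _ ≫ W.hom)))
      (M.res (𝟙 _) (𝟙 _ ≫ W.hom) (by simp) (M.P.map g.op x)) = ψ.f.app
      (op (Over.mk (𝟙 _ ≫ W.hom))) (M.res (𝟙 _) (𝟙 _ ≫ W.hom) (by simp) (M.P.map g.op x)) := h2
    rw [← Tors.res_f φ, ← Tors.res_f ψ] at h3
    have h4 := congrArg (N.res (𝟙 _) W.hom (by simp)) h3
    rw [Tors.res_res, Tors.res_res, Tors.res_self _ _ (by simp), Tors.res_self _ _ (by simp)] at h4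
    have h6 : N.P.map g.op (φ.f.app T x) = φ.f.app (op W) (M.P.map g.op x) := Tors.f_nat φ _ _
    have h7 : N.P.map g.op (ψ.f.app T x) = ψ.f.app (op W) (M.P.map g.op x) := Tors.f_nat ψ _ _
    exact h6.trans (h4.trans h7.symm)
  · intro γ
    let g : ∀ (W : Over S) (hW : R W.hom), (Tors.pull W.hom).obj M ⟶ (Tors.pull W.hom).obj N :=
      fun W hW => DescentData.Hom.hom γ (⟨W, hW⟩ : R.arrows.category)
    let φ : ∀ (W : Over S), R W.hom → M.P.obj (op W) → N.P.obj (op W) := fun W hW x =>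
      N.res (V := W.left) (l := 𝟙 _ ≫ W.hom) (𝟙 _) W.hom (by simp)
        ((g W hW).f.app (op (Over.mk (𝟙 W.left)))
        (M.res (V := W.left) (l := W.hom) (𝟙 _) (𝟙 _ ≫ W.hom) (by simp) x))
    have hφ : ∀ {W W' : Over S} (k : W' ⟶ W) (hW : R W.hom) (hW' : R W'.hom)
        (x : M.P.obj (op W)),
        N.P.map k.op (φ W hW x) = φ W' hW' (M.P.map k.op x) := by
      intro W W' k hW hW' x
      have hk : k.left ≫ W.hom = W'.hom := Over.w k
      let x' := M.res (V := W.left) (l := W.hom) (𝟙 _) (𝟙 _ ≫ W.hom) (by simp) x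
      let x1 := M.res (l := 𝟙 _ ≫ W.hom) k.left ((𝟙 _ ≫ k.left) ≫ W.hom) (by simp) x'
      have h1 := comm_app (fun i : R.arrows.category => i.obj.hom) M N γ W'.hom
        (i₁ := ⟨W, hW⟩) (i₂ := ⟨W', hW'⟩) k.left (𝟙 _) (Over.w k) (Category.id_comp _)
        (Over.mk (𝟙 W'.left)) x1
      have h2 : N.res (V := W.left) (l := 𝟙 _ ≫ W.hom) k.left ((𝟙 _ ≫ k.left) ≫ W.hom) (by simp)
          ((g W hW).f.app (op (Over.mk (𝟙 W.left))) x') =
          (g W hW).f.app (op (Over.mk (𝟙 _ ≫ k.left))) x1 :=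
        Tors.res_f (g W hW) (V := W.left) (l := 𝟙 W.left) k.left (𝟙 _ ≫ k.left) (by simp) x'
      let y := M.res (l := (𝟙 _ ≫ k.left) ≫ W.hom) (𝟙 _) ((𝟙 _ ≫ 𝟙 _) ≫ W'.hom) (by simp [hk]) x1
      have h3 : N.res (V := W'.left) (l := (𝟙 _ ≫ 𝟙 _) ≫ W'.hom) (𝟙 _) (𝟙 _ ≫ W'.hom) (by simp)
          ((g W' hW').f.app (op (Over.mk (𝟙 _ ≫ 𝟙 _))) y) =
          (g W' hW').f.app (op (Over.mk (𝟙 _)))
            (M.res (l := (𝟙 _ ≫ 𝟙 _) ≫ W'.hom) (𝟙 _) (𝟙 _ ≫ W'.hom) (by simp) y) :=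
        Tors.res_f (g W' hW') (V := W'.left) (l := 𝟙 _ ≫ 𝟙 _) (𝟙 _) (𝟙 _) (by simp) y
      have h4 : M.res (l := (𝟙 _ ≫ 𝟙 _) ≫ W'.hom) (𝟙 _) (𝟙 _ ≫ W'.hom) (by simp) y =
          M.res (V := W'.left) (l := W'.hom) (𝟙 _) (𝟙 _ ≫ W'.hom) (by simp) (M.P.map k.op x) := by
        rw [Tors.map_eq_res]
        simp only [y, x1, x', Tors.res_res]
        apply Tors.res_congr
        simp
      rw [Tors.map_eq_res]
      change N.res k.left W'.hom _ (N.res (V := W.left) (l := 𝟙 _ ≫ W.hom) (𝟙 _) W.hom _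
        ((g W hW).f.app (op (Over.mk (𝟙 W.left))) x')) =
        N.res (V := W'.left) (l := 𝟙 _ ≫ W'.hom) (𝟙 _) W'.hom _
        ((g W' hW').f.app (op (Over.mk (𝟙 W'.left))) (M.res (V := W'.left) (l := W'.hom) (𝟙 _)
          (𝟙 _ ≫ W'.hom) _ (M.P.map k.op x)))
      have h5 : (g W' hW').f.app (op (Over.mk (𝟙 _ ≫ 𝟙 _))) y =
        N.res (V := W'.left) (l := (𝟙 _ ≫ k.left) ≫ W.hom) (𝟙 _) ((𝟙 _ ≫ 𝟙 _) ≫ W'.hom)
          (by simp [hk]) (N.res (V := W.left) (l := 𝟙 _ ≫ W.hom) k.left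
            ((𝟙 _ ≫ k.left) ≫ W.hom) (by simp)
          ((g W hW).f.app (op (Over.mk (𝟙 W.left))) x')) := by
        rw [h2]
        exact h1.symm
      rw [← h4, ← h3, h5]
      simp only [Tors.res_res]
      apply Tors.res_congr
      simp
    obtain ⟨f, hf⟩ := exists_glueHom hR M.P N.P N.isSheaf φ hφ
    have hfnat : ∀ {T W : Over S} (k : W ⟶ T) (x : M.P.obj (op T)),
        N.P.map k.op (f.app (op T) x) = f.app (op W) (M.P.map k.op x) := by
      intro T W k x
      have h1 := congrArg (fun g => g x) (f.naturality k.op)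
      simp only [types_comp_apply] at h1
      exact h1.symm
    have haW : ∀ (W : Over S) (hW : R W.hom) (x : M.P.obj (op W)),
        N.a (f.app (op W) x) = M.a x := by
      intro W hW x
      rw [hf W hW]
      refine (N.a_res (V := W.left) (l := 𝟙 _ ≫ W.hom) _ _ _ _).trans ?_
      rw [Category.id_comp]
      refine ((g W hW).a_f (T := Over.mk (𝟙 W.left)) _).trans ?_
      refine (M.a_res (V := W.left) (l := W.hom) _ _ _ _).trans ?_
      exact Category.id_comp _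
    have hrW : ∀ (W : Over S) (hW : R W.hom) (x y : M.P.obj (op W)),
        N.r (f.app (op W) x) (f.app (op W) y) = M.r x y := by
      intro W hW x y
      rw [hf W hW, hf W hW]
      refine (N.r_res (V := W.left) (l := 𝟙 _ ≫ W.hom) _ _ _ _ _).trans ?_
      rw [Category.id_comp]
      refine ((g W hW).r_f (T := Over.mk (𝟙 W.left)) _ _).trans ?_
      refine (M.r_res (V := W.left) (l := W.hom) _ _ _ _ _).trans ?_
      exact Category.id_comp _
    refine ⟨({ f := f, a_f := ?_, r_f := ?_ } : Tors.Hom M N), ?_⟩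
    · intro T x
      refine hom_ext_of_cover (J.pullback_stable T.hom hR) fun V k hk => ?_
      have hk' : R (k ≫ T.hom) := hk
      let k' : Over.mk (k ≫ T.hom) ⟶ T := Over.homMk k
      have h1 := N.a_nat k' (f.app (op T) x)
      have h2 := M.a_nat k' x
      rw [hfnat, haW _ hk', h2] at h1
      exact h1.symm
    · intro T x y
      refine hom_ext_of_cover (J.pullback_stable T.hom hR) fun V k hk => ?_
      have hk' : R (k ≫ T.hom) := hk
      let k' : Over.mk (k ≫ T.hom) ⟶ T := Over.homMk k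
      have h1 := N.r_nat k' (f.app (op T) x) (f.app (op T) y)
      have h2 := M.r_nat k' x y
      rw [hfnat, hfnat, hrW _ hk', h2] at h1
      exact h1.symm
    · apply DescentData.hom_ext
      rintro ⟨W, hW⟩
      apply Tors.hom_ext
      ext T x
      obtain ⟨T⟩ := T
      change f.app (op (Over.mk (T.hom ≫ W.hom))) x = (g W hW).f.app (op T) x
      have hW' : R (T.hom ≫ W.hom) := R.downward_closed hW _
      let x0 : M.P.obj (op (Over.mk (T.hom ≫ W.hom))) := x
      let W' : Over S := Over.mk (T.hom ≫ W.hom)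
      let x1 := M.res (V := T.left) (l := T.hom ≫ W.hom) (𝟙 T.left)
        ((𝟙 T.left ≫ 𝟙 T.left) ≫ T.hom ≫ W.hom) (by simp) x0
      have h1 := comm_app (fun i : R.arrows.category => i.obj.hom) M N γ (T.hom ≫ W.hom)
        (i₁ := ⟨W', hW'⟩) (i₂ := ⟨W, hW⟩) (𝟙 T.left) T.hom (Category.id_comp _) rfl
        (Over.mk (𝟙 T.left)) x1
      rw [hf _ hW']
      have h3 : N.res (V := T.left) (l := (𝟙 T.left ≫ 𝟙 T.left) ≫ T.hom ≫ W.hom) (𝟙 T.left)
          (𝟙 T.left ≫ T.hom ≫ W.hom) (by simp)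
          ((g W' hW').f.app (op (Over.mk (𝟙 T.left ≫ 𝟙 T.left))) x1) =
          (g W' hW').f.app (op (Over.mk (𝟙 T.left)))
            (M.res (V := T.left) (l := (𝟙 T.left ≫ 𝟙 T.left) ≫ T.hom ≫ W.hom) (𝟙 T.left)
              (𝟙 T.left ≫ T.hom ≫ W.hom) (by simp) x1) :=
        Tors.res_f (g W' hW') (V := T.left) (l := 𝟙 T.left ≫ 𝟙 T.left) (𝟙 T.left) (𝟙 T.left)
          (by simp) x1
      have h5 : N.res (V := T.left) (l := (𝟙 T.left ≫ T.hom) ≫ W.hom) (𝟙 T.left) (T.hom ≫ W.hom)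
          (by simp)
          ((g W hW).f.app (op (Over.mk (𝟙 T.left ≫ T.hom)))
            (M.res (V := T.left) (l := (𝟙 T.left ≫ 𝟙 T.left) ≫ T.hom ≫ W.hom) (𝟙 T.left)
              ((𝟙 T.left ≫ T.hom) ≫ W.hom) (by simp) x1)) =
          (g W hW).f.app (op T)
            (M.res (V := T.left) (l := (𝟙 T.left ≫ T.hom) ≫ W.hom) (𝟙 T.left) (T.hom ≫ W.hom)
              (by simp)
              (M.res (V := T.left) (l := (𝟙 T.left ≫ 𝟙 T.left) ≫ T.hom ≫ W.hom) (𝟙 T.left)
                ((𝟙 T.left ≫ T.hom) ≫ W.hom) (by simp) x1)) :=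
        Tors.res_f (g W hW) (V := T.left) (l := 𝟙 T.left ≫ T.hom) (𝟙 T.left) T.hom (by simp) _
      have h6 : M.res (V := T.left) (l := (𝟙 T.left ≫ T.hom) ≫ W.hom) (𝟙 T.left) (T.hom ≫ W.hom)
              (by simp)
              (M.res (V := T.left) (l := (𝟙 T.left ≫ 𝟙 T.left) ≫ T.hom ≫ W.hom) (𝟙 T.left)
                ((𝟙 T.left ≫ T.hom) ≫ W.hom) (by simp) x1) = x0 := by
        simp only [x1, Tors.res_res]
        apply Tors.res_self
        simp
      have h7 : M.res (V := T.left) (l := (𝟙 T.left ≫ 𝟙 T.left) ≫ T.hom ≫ W.hom) (𝟙 T.left)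
              (𝟙 T.left ≫ T.hom ≫ W.hom) (by simp) x1 =
          M.res (V := T.left) (l := T.hom ≫ W.hom) (𝟙 T.left) (𝟙 T.left ≫ T.hom ≫ W.hom)
            (by simp) x0 := by
        simp only [x1, Tors.res_res]
        apply Tors.res_congr
        simp
      rw [h6] at h5
      refine Eq.trans ?_ h5
      rw [h7] at h3
      change N.res (V := T.left) (l := 𝟙 T.left ≫ T.hom ≫ W.hom) (𝟙 T.left) (T.hom ≫ W.hom) _
        ((g W' hW').f.app (op (Over.mk (𝟙 T.left))) (M.res (V := T.left) (l := T.hom ≫ W.hom)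
          (𝟙 T.left) (𝟙 T.left ≫ T.hom ≫ W.hom) _ x0)) = _
      rw [← h3]
      refine Eq.trans ?_ (congrArg (N.res (V := T.left) (l := (𝟙 T.left ≫ T.hom) ≫ W.hom)
        (𝟙 T.left) (T.hom ≫ W.hom) (by simp)) h1)
      change _ = N.res (V := T.left) (l := (𝟙 T.left ≫ T.hom) ≫ W.hom) (𝟙 T.left)
        (T.hom ≫ W.hom) _ (N.res (V := T.left) (l := (𝟙 T.left ≫ 𝟙 T.left) ≫ T.hom ≫ W.hom)
          (𝟙 T.left) ((𝟙 T.left ≫ T.hom) ≫ W.hom) _
            ((g W' hW').f.app (op (Over.mk (𝟙 T.left ≫ 𝟙 T.left))) x1))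
      simp only [Tors.res_res]

end Stk90
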