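import Pool.Agent.Stk90.Gpd

/-!
# Pull back of torsors; the pseudofunctor of torsors
-/

open CategoryTheory Opposite

universe v u

namespace Stk90

variable {C : Type u} [Category.{v} C]

namespace Tors

variable {G : IntGroupoid C} {J : GrothendieckTopology C}

/-- The pull back of a torsor. -/
def pullObj {S S' : C} (f : S' ⟶ S) (M : Tors G J S) : Tors G J S' where
  P := (Over.map f).op ⋙ M.P
  isSheaf := (Over.map f).op_comp_isSheaf_of_isSheaf_type (J.over S') M.isSheaf
  a {T} p := M.a (T := (Over.map f).obj T) p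
  a_nat {T T'} k p := M.a_nat ((Over.map f).map k) p
  r {T} p q := M.r (T := (Over.map f).obj T) p q
  r_nat {T T'} k p q := M.r_nat ((Over.map f).map k) p q
  r_s {T} p q := M.r_s (T := (Over.map f).obj T) p q
  r_t {T} p q := M.r_t (T := (Over.map f).obj T) p q
  r_comp {T} p q l := M.r_comp (T := (Over.map f).obj T) p q l
  trans {T} p g h := M.trans (T := (Over.map f).obj T) p g h
  locally := by
    obtain ⟨K, hK, hne⟩ := M.locally
    exact ⟨K.pullback f, J.pullback_stable f hK, fun Y k hk => hne (k ≫ f) hk⟩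

/-- Pull back of torsors as a functor. -/
def pull {S S' : C} (f : S' ⟶ S) : Tors G J S ⥤ Tors G J S' where
  obj M := pullObj f M
  map {M N} φ :=
    { f := Functor.whiskerLeft (Over.map f).op φ.f
      a_f := fun {T} p => φ.a_f (T := (Over.map f).obj T) p
      r_f := fun {T} p q => φ.r_f (T := (Over.map f).obj T) p q }
  map_id M := rfl
  map_comp φ ψ := rfl

/-- Isomorphisms of torsors from isomorphisms of presheaves. -/
@[simps]
def isoMk {S : C} {M N : Tors G J S} (e : M.P ≅ N.P)
    (ha : ∀ {T : Over S} (p : M.P.obj (op T)), N.a (e.hom.app _ p) = M.a p)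
    (hr : ∀ {T : Over S} (p q : M.P.obj (op T)),
      N.r (e.hom.app _ p) (e.hom.app _ q) = M.r p q) : M ≅ N where
  hom := { f := e.hom, a_f := ha, r_f := hr }
  inv :=
    { f := e.inv
      a_f := fun p => by rw [← ha]; simp
      r_f := fun p q => by rw [← hr]; simp }
  hom_inv_id := by ext1; exact e.hom_inv_id
  inv_hom_id := by ext1; exact e.inv_hom_id

/-- Pull back by equal morphisms. -/
def pullCongr {S S' : C} {f g : S' ⟶ S} (h : f = g) :
    (pull f : Tors G J S ⥤ _) ≅ pull g :=
  NatIso.ofComponents (fun M => isoMk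
    (Functor.isoWhiskerRight (NatIso.op (Over.mapCongr f g h).symm) M.P)
    (fun {T} p => by
      subst h
      refine (M.a_nat _ _).trans ?_
      simp
      rfl)
    (fun {T} p q => by
      subst h
      refine (M.r_nat _ _ _).trans ?_
      simp
      rfl))
    (fun φ => by
      ext1
      ext T x
      simp [pull]
      exact f_nat φ _ _)

/-- Pull back by the identity. -/
def pullId (S : C) : (pull (𝟙 S) : Tors G J S ⥤ _) ≅ 𝟭 _ :=
  NatIso.ofComponents (fun M => isoMk
    (N := M) (Functor.isoWhiskerRight (NatIso.op (Over.mapId S).symm) M.P)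
    (fun {T} p => by
      refine (M.a_nat _ _).trans ?_
      simp
      rfl)
    (fun {T} p q => by
      refine (M.r_nat _ _ _).trans ?_
      simp
      rfl))
    (fun φ => by
      ext1
      ext T x
      simp [pull]
      exact f_nat φ _ _)

/-- Pull back by a composition. -/
def pullComp {S S' S'' : C} (f : S'' ⟶ S') (g : S' ⟶ S) :
    (pull (f ≫ g) : Tors G J S ⥤ _) ≅ pull g ⋙ pull f :=
  NatIso.ofComponents (fun M => isoMk
    (Functor.isoWhiskerRight (NatIso.op (Over.mapComp f g).symm) M.P)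
    (fun {T} p => by
      refine (M.a_nat _ _).trans ?_
      simp
      rfl)
    (fun {T} p q => by
      refine (M.r_nat _ _ _).trans ?_
      simp
      rfl))
    (fun φ => by
      ext1
      ext T x
      simp [pull]
      exact f_nat φ _ _)

lemma pullCongr_hom_f_app {S S' : C} {f g : S' ⟶ S} (h : f = g) (M : Tors G J S)
    (T : (Over S')ᵒᵖ) (x : M.P.obj ((Over.map f).op.obj T)) :
    ((pullCongr h).hom.app M).f.app T x = M.P.map ((Over.mapCongr f g h).inv.app T.unop).op x :=
  rfl

lemma pullId_hom_f_app {S : C} (M : Tors G J S)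
    (T : (Over S)ᵒᵖ) (x : M.P.obj ((Over.map (𝟙 S)).op.obj T)) :
    ((pullId S).hom.app M).f.app T x = M.P.map ((Over.mapId S).inv.app T.unop).op x :=
  rfl

lemma pullId_inv_f_app {S : C} (M : Tors G J S) (T : (Over S)ᵒᵖ) (x : M.P.obj T) :
    ((pullId S).inv.app M).f.app T x = M.P.map ((Over.mapId S).hom.app T.unop).op x :=
  rfl

lemma pullComp_hom_f_app {S S' S'' : C} (f : S'' ⟶ S') (g : S' ⟶ S) (M : Tors G J S)
    (T : (Over S'')ᵒᵖ) (x : M.P.obj ((Over.map (f ≫ g)).op.obj T)) :
    ((pullComp f g).hom.app M).f.app T x = M.P.map ((Over.mapComp f g).inv.app T.unop).op x :=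
  rfl

lemma pullComp_inv_f_app {S S' S'' : C} (f : S'' ⟶ S') (g : S' ⟶ S) (M : Tors G J S)
    (T : (Over S'')ᵒᵖ) (x : M.P.obj ((Over.map g).op.obj ((Over.map f).op.obj T))) :
    ((pullComp f g).inv.app M).f.app T x = M.P.map ((Over.mapComp f g).hom.app T.unop).op x :=
  rfl

lemma pullCongr_eq_eqToIso {S S' : C} {f g : S' ⟶ S} (h : f = g) :
    (pullCongr h : (pull f : Tors G J S ⥤ _) ≅ pull g) = eqToIso (by subst h; rfl) := by
  subst h
  ext M T x
  simp [pullCongr]
  exact types_id_apply _ _

/-- Two ways to restrict a section along morphisms which agree after forgetting. -/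
lemma map_eq_map {S : C} (M : Tors G J S) {T T' : Over S} {k l : T' ⟶ T} (h : k.left = l.left)
    (x : M.P.obj (op T)) : M.P.map k.op x = M.P.map l.op x := by
  have : k = l := Over.OverMorphism.ext h
  rw [this]

lemma map_map {S : C} (M : Tors G J S) {T T' T'' : Over S} (k : T' ⟶ T) (l : T'' ⟶ T')
    (x : M.P.obj (op T)) : M.P.map l.op (M.P.map k.op x) = M.P.map (l ≫ k).op x := by
  rw [op_comp, Functor.map_comp, types_comp_apply]

lemma pull_comp_id {S S' : C} (f : S' ⟶ S) :
    (pullComp f (𝟙 S) : (pull (f ≫ 𝟙 S) : Tors G J S ⥤ _) ≅ _).hom ≫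
      Functor.whiskerRight (pullId S).hom _ ≫ (Functor.leftUnitor _).hom =
      (pullCongr (by simp)).hom := by
  ext M T x
  change M.P.map ((Over.mapId S).inv.app ((Over.map f).obj T.unop)).op
    (M.P.map ((Over.mapComp f (𝟙 S)).inv.app T.unop).op x) =
      M.P.map ((Over.mapCongr _ _ (by simp : f ≫ 𝟙 S = f)).inv.app T.unop).op x
  rw [map_map]
  apply map_eq_map
  simp

lemma pull_id_comp {S S' : C} (f : S' ⟶ S) :
    (pullComp (𝟙 S') f : (pull (𝟙 S' ≫ f) : Tors G J S ⥤ _) ≅ _).hom ≫
      Functor.whiskerLeft _ (pullId S').hom ≫ (Functor.rightUnitor _).hom =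
      (pullCongr (by simp)).hom := by
  ext M T x
  change M.P.map ((Over.map f).map ((Over.mapId S').inv.app T.unop)).op
    (M.P.map ((Over.mapComp (𝟙 S') f).inv.app T.unop).op x) =
      M.P.map ((Over.mapCongr _ _ (by simp : 𝟙 S' ≫ f = f)).inv.app T.unop).op x
  rw [map_map]
  apply map_eq_map
  simp

lemma pull_assoc {X Y Z T : C} (f : X ⟶ Y) (g : Y ⟶ Z) (h : Z ⟶ T) :
    (pullComp f (g ≫ h) : (pull (f ≫ g ≫ h) : Tors G J T ⥤ _) ≅ _).hom ≫
      Functor.whiskerRight (pullComp g h).hom _ ≫
        (Functor.associator _ _ _).hom ≫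
          Functor.whiskerLeft _ (pullComp f g).inv ≫ (pullComp (f ≫ g) h).inv =
    (pullCongr (by simp)).hom := by
  ext M W x
  change M.P.map ((Over.mapComp (f ≫ g) h).hom.app W.unop).op
    (M.P.map ((Over.map h).map ((Over.mapComp f g).hom.app W.unop)).op
    (M.P.map ((Over.mapComp g h).inv.app ((Over.map f).obj W.unop)).op
    (M.P.map ((Over.mapComp f (g ≫ h)).inv.app W.unop).op x))) =
      M.P.map ((Over.mapCongr _ _ (by simp : f ≫ g ≫ h = (f ≫ g) ≫ h)).inv.app W.unop).op x
  rw [map_map, map_map, map_map]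
  apply map_eq_map
  simp

end Tors

/-- The pseudofunctor of torsors under `G`. -/
def torsPseudo (G : IntGroupoid C) (J : GrothendieckTopology C) :
    Pseudofunctor (LocallyDiscrete Cᵒᵖ) Cat :=
  LocallyDiscrete.mkPseudofunctor
    (fun X ↦ Cat.of (Tors G J X.unop))
    (fun f ↦ (Tors.pull f.unop).toCatHom)
    (fun X ↦ Cat.Hom.isoMk (Tors.pullId X.unop))
    (fun f g ↦ Cat.Hom.isoMk (Tors.pullComp g.unop f.unop))
    (fun f g h ↦ by
      ext1
      simpa [Tors.pullCongr_eq_eqToIso] using!
        Tors.pull_assoc (G := G) (J := J) h.unop g.unop f.unop)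
    (fun f ↦ by
      ext1
      simpa [Tors.pullCongr_eq_eqToIso] using!
        Tors.pull_comp_id (G := G) (J := J) f.unop)
    (fun f ↦ by
      ext1
      simpa [Tors.pullCongr_eq_eqToIso] using!
        Tors.pull_id_comp (G := G) (J := J) f.unop)

end Stk90
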