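import Pool.Agent.Stk90.RepTors

/-!
# Representability of the atlas
-/

open CategoryTheory Opposite Limits

universe w v' u' v u

namespace Stk90

variable {C : Type u} [Category.{v} C]

open Pseudofunctor Pseudofunctor.LocallyDiscreteOpToCat

variable {G : IntGroupoid C} {J : GrothendieckTopology C} [J.Subcanonical]

/-- The identity section of a trivial torsor. -/
def eS {X Y : C} (c : Y ⟶ X) (a : X ⟶ G.U) : (triv G J a).P.obj (op (Over.mk c)) :=
  ⟨⟨c ≫ a ≫ G.e, by
    rw [Category.assoc, Category.assoc, G.e_s, Category.comp_id]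
    rfl⟩⟩

lemma a_eS {X Y : C} (c : Y ⟶ X) (a : X ⟶ G.U) :
    (triv G J a).a (eS (G := G) (J := J) c a) = c ≫ a := by
  change (c ≫ a ≫ G.e) ≫ G.t = c ≫ a
  rw [Category.assoc, Category.assoc, G.e_t, Category.comp_id]

lemma eS_res {X Y Y' : C} (c : Y ⟶ X) (a : X ⟶ G.U) (g : Y' ⟶ Y) (c' : Y' ⟶ X)
    (h : g ≫ c = c') :
    (triv G J a).res (l := c) g c' h (eS (G := G) (J := J) c a) = eS (G := G) (J := J) c' a := by
  apply trivP_ext
  change g ≫ c ≫ a ≫ G.e = c' ≫ a ≫ G.e
  rw [← h, Category.assoc]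

section atlas

variable {S : C} (M : Tors G J S) {T : C} (k : T ⟶ S) (p : M.P.obj (op (Over.mk k)))

/-- The morphisms from the tautological torsor in terms of arrows of the groupoid. -/
noncomputable def atlasEquiv (W : Over T) :
    ((Over.map k).op ⋙ fibre (torsPseudo G J) (X := G.U) (triv G J (𝟙 G.U)) M).obj (op W) ≃
      { g : W.left ⟶ G.R // g ≫ G.s = W.hom ≫ M.a p } :=
  Equiv.ofBijective (fun z => ⟨M.r (M.res W.hom (W.hom ≫ k) rfl p)
      (homSecEquiv z.1 (W.hom ≫ k) (triv G J (𝟙 G.U)) M (eS z.1 (𝟙 G.U)) z.2).1, by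
    rw [M.r_s, M.a_res]⟩) (by
    constructor
    · rintro ⟨c, φ⟩ ⟨c', ψ⟩ h
      change Tors.Hom ((Tors.pull c).obj (triv G J (𝟙 G.U))) ((Tors.pull (W.hom ≫ k)).obj M) at φ
      change Tors.Hom ((Tors.pull c').obj (triv G J (𝟙 G.U))) ((Tors.pull (W.hom ≫ k)).obj M) at ψ
      have h1 := congrArg Subtype.val h
      have h2 : (homSecEquiv c (W.hom ≫ k) (triv G J (𝟙 G.U)) M (eS c (𝟙 G.U)) φ).1 =
        (homSecEquiv c' (W.hom ≫ k) (triv G J (𝟙 G.U)) M (eS c' (𝟙 G.U)) ψ).1 := M.r_inj h1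
      have h3 : c = c' := by
        have h4 := (homSecEquiv c (W.hom ≫ k) (triv G J (𝟙 G.U)) M (eS c (𝟙 G.U)) φ).2
        have h5 := (homSecEquiv c' (W.hom ≫ k) (triv G J (𝟙 G.U)) M (eS c' (𝟙 G.U)) ψ).2
        have h6 := h4.symm.trans ((congrArg M.a h2).trans h5)
        rw [a_eS, a_eS, Category.comp_id, Category.comp_id] at h6
        exact h6
      subst h3
      have h6 := (homSecEquiv c (W.hom ≫ k) (triv G J (𝟙 G.U)) M (eS c (𝟙 G.U))).injective
        (Subtype.ext h2)
      rw [h6]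
    · rintro ⟨g, hg⟩
      obtain ⟨q, hq, -⟩ := M.trans (M.res W.hom (W.hom ≫ k) rfl p) g (by rw [M.a_res, hg])
      obtain ⟨φ, hφ⟩ := (homSecEquiv (M.a q) (W.hom ≫ k) (triv G J (𝟙 G.U)) M
        (eS (M.a q) (𝟙 G.U))).surjective ⟨q, by rw [a_eS, Category.comp_id]⟩
      refine ⟨⟨M.a q, φ⟩, ?_⟩
      apply Subtype.ext
      change M.r _ (homSecEquiv (M.a q) (W.hom ≫ k) (triv G J (𝟙 G.U)) M
        (eS (M.a q) (𝟙 G.U)) φ).1 = g
      rw [hφ]
      exact hq)

lemma atlasEquiv_apply (W : Over T)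
    (z : ((Over.map k).op ⋙ fibre (torsPseudo G J) (X := G.U) (triv G J (𝟙 G.U)) M).obj (op W)) :
    (atlasEquiv M k p W z).1 = M.r (M.res W.hom (W.hom ≫ k) rfl p)
      (homSecEquiv z.1 (W.hom ≫ k) (triv G J (𝟙 G.U)) M (eS z.1 (𝟙 G.U)) z.2).1 := rfl

lemma atlasEquiv_nat {W W' : Over T} (m : W' ⟶ W)
    (z : ((Over.map k).op ⋙ fibre (torsPseudo G J) (X := G.U) (triv G J (𝟙 G.U)) M).obj (op W)) :
    (atlasEquiv M k p W' (((Over.map k).op ⋙ fibre (torsPseudo G J) (X := G.U)
      (triv G J (𝟙 G.U)) M).map m.op z)).1 = m.left ≫ (atlasEquiv M k p W z).1 := by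
  have hm : m.left ≫ W.hom = W'.hom := Over.w m
  rw [atlasEquiv_apply, atlasEquiv_apply]
  obtain ⟨c, φ⟩ := z
  have h1 := homSecEquiv_pullHom' c (W.hom ≫ k) (triv G J (𝟙 G.U)) M (eS c (𝟙 G.U)) φ
    m.left (m.left ≫ c) (W'.hom ≫ k) rfl
    (by rw [← Category.assoc, hm]) (eS (m.left ≫ c) (𝟙 G.U)) (eS_res _ _ _ _ _)
  have h2 : M.r (M.res W'.hom (W'.hom ≫ k) rfl p) (homSecEquiv (m.left ≫ c) (W'.hom ≫ k)
      (triv G J (𝟙 G.U)) M (eS (m.left ≫ c) (𝟙 G.U))
      (pullHom (F := torsPseudo G J) (M₁ := triv G J (𝟙 G.U)) (M₂ := M) (f₁ := c)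
        (f₂ := W.hom ≫ k) φ
        m.left (m.left ≫ c) (W'.hom ≫ k) rfl (by rw [← Category.assoc, hm]))).1 =
      m.left ≫ M.r (M.res W.hom (W.hom ≫ k) rfl p)
      (homSecEquiv c (W.hom ≫ k) (triv G J (𝟙 G.U)) M (eS c (𝟙 G.U)) φ).1 := by
    rw [h1]
    have h3 := M.r_res (l := W.hom ≫ k) m.left (W'.hom ≫ k) (by rw [← Category.assoc, hm])
      (M.res W.hom (W.hom ≫ k) rfl p)
      (homSecEquiv c (W.hom ≫ k) (triv G J (𝟙 G.U)) M (eS c (𝟙 G.U)) φ).1
    rw [← h3]
    apply M.r_congr _ rfl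
    rw [Tors.res_res]
    apply Tors.res_congr
    exact hm.symm
  exact h2

end atlas

section point

variable {X : C} (y : X ⟶ G.U) [HasPullback G.t y]

/-- A point of the fibre product of the atlas with a point which lifts to the atlas. -/
noncomputable def pointFun {W : Over G.U}
    (z : (fibre (torsPseudo G J) (X := X) (S := G.U) (triv G J y) (triv G J (𝟙 G.U))).obj
      (op W)) : W ⟶ Over.mk (pullback.fst G.t y ≫ G.s) :=
  Over.homMk (pullback.lift
    (homSecEquiv z.1 W.hom (triv G J y) (triv G J (𝟙 G.U)) (eS z.1 y) z.2).1.down.1 z.1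
      ((homSecEquiv z.1 W.hom (triv G J y) (triv G J (𝟙 G.U)) (eS z.1 y) z.2).2.trans
        (a_eS _ _))) (by
    have h1 := (homSecEquiv z.1 W.hom (triv G J y) (triv G J (𝟙 G.U))
      (eS z.1 y) z.2).1.down.2
    change pullback.lift _ _ _ ≫ pullback.fst G.t y ≫ G.s = W.hom
    rw [pullback.lift_fst_assoc, h1]
    exact Category.comp_id _)

lemma pointFun_fst {W : Over G.U}
    (z : (fibre (torsPseudo G J) (X := X) (S := G.U) (triv G J y) (triv G J (𝟙 G.U))).obj
      (op W)) : (pointFun y z).left ≫ pullback.fst G.t y =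
      (homSecEquiv z.1 W.hom (triv G J y) (triv G J (𝟙 G.U)) (eS z.1 y) z.2).1.down.1 :=
  pullback.lift_fst _ _ _

lemma pointFun_snd {W : Over G.U}
    (z : (fibre (torsPseudo G J) (X := X) (S := G.U) (triv G J y) (triv G J (𝟙 G.U))).obj
      (op W)) : (pointFun y z).left ≫ pullback.snd G.t y = z.1 :=
  pullback.lift_snd _ _ _

lemma pointFun_bijective (W : Over G.U) :
    Function.Bijective (pointFun (G := G) (J := J) y (W := W)) := by
  constructor
  · rintro ⟨c, φ⟩ ⟨c', ψ⟩ h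
    have h1 : c = c' := by
      have := congrArg (fun z => z.left ≫ pullback.snd G.t y) h
      simp only [pointFun_snd] at this
      exact this
    subst h1
    have h2 := congrArg (fun z => z.left ≫ pullback.fst G.t y) h
    simp only [pointFun_fst] at h2
    have h6 := (homSecEquiv c W.hom (triv G J y) (triv G J (𝟙 G.U)) (eS c y)).injective
      (Subtype.ext (trivP_ext G h2))
    rw [h6]
  · intro h
    have hw : h.left ≫ pullback.fst G.t y ≫ G.s = W.hom := Over.w h
    let q : (triv G J (𝟙 G.U)).P.obj (op (Over.mk W.hom)) :=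
      ⟨⟨h.left ≫ pullback.fst G.t y, by
        rw [Category.assoc]
        refine hw.trans ?_
        exact (Category.comp_id _).symm⟩⟩
    obtain ⟨φ, hφ⟩ := (homSecEquiv (h.left ≫ pullback.snd G.t y) W.hom (triv G J y)
      (triv G J (𝟙 G.U)) (eS (h.left ≫ pullback.snd G.t y) y)).surjective ⟨q, by
        rw [a_eS]
        change (h.left ≫ pullback.fst G.t y) ≫ G.t = _
        rw [Category.assoc, Category.assoc, pullback.condition]⟩
    refine ⟨⟨h.left ≫ pullback.snd G.t y, φ⟩, ?_⟩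
    apply Over.OverMorphism.ext
    apply pullback.hom_ext
    · rw [pointFun_fst]
      change (homSecEquiv (h.left ≫ pullback.snd G.t y) W.hom (triv G J y)
        (triv G J (𝟙 G.U)) (eS (h.left ≫ pullback.snd G.t y) y) φ).1.down.1 = _
      rw [hφ]
    · rw [pointFun_snd]

lemma pointFun_nat {W W' : Over G.U} (k : W' ⟶ W)
    (z : (fibre (torsPseudo G J) (X := X) (S := G.U) (triv G J y) (triv G J (𝟙 G.U))).obj
      (op W)) :
    pointFun y ((fibre (torsPseudo G J) (X := X) (S := G.U) (triv G J y)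
      (triv G J (𝟙 G.U))).map k.op z) = k ≫ pointFun y z := by
  obtain ⟨c, φ⟩ := z
  have hk : k.left ≫ W.hom = W'.hom := Over.w k
  apply Over.OverMorphism.ext
  apply pullback.hom_ext
  · rw [pointFun_fst, Over.comp_left, Category.assoc, pointFun_fst]
    have h1 := homSecEquiv_pullHom' c W.hom (triv G J y) (triv G J (𝟙 G.U)) (eS c y) φ
      k.left (k.left ≫ c) W'.hom rfl hk (eS (k.left ≫ c) y) (eS_res _ _ _ _ _)
    exact congrArg (fun z => z.down.1) h1
  · rw [pointFun_snd, Over.comp_left, Category.assoc, pointFun_snd]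
    rfl

/-- The fibre product of the atlas with a point which lifts to the atlas. -/
noncomputable def pointRep :
    (fibre (torsPseudo G J) (X := X) (S := G.U) (triv G J y)
      (triv G J (𝟙 G.U))).RepresentableBy (Over.mk (pullback.fst G.t y ≫ G.s)) where
  homEquiv {W} := (Equiv.ofBijective _ (pointFun_bijective (G := G) (J := J) y W)).symm
  homEquiv_comp {W W'} k h := by
    rw [Equiv.symm_apply_eq]
    change _ = pointFun y _
    rw [pointFun_nat]
    congr 1
    exact (Equiv.apply_symm_apply (Equiv.ofBijective _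
      (pointFun_bijective (G := G) (J := J) y W')) h).symm

end point

end Stk90
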