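import Pool.Agent.Stk90.Rep

/-!
# Representability of morphisms of torsors
-/

open CategoryTheory Opposite Limits

universe w v' u' v u

namespace Stk90

variable {C : Type u} [Category.{v} C]

open Pseudofunctor Pseudofunctor.LocallyDiscreteOpToCat

/-- A presheaf described by maps to an object with a condition is representable. -/
noncomputable def repOfMaps {T B X : C} (P : (Over T)ᵒᵖ ⥤ Type w) (f : X ⟶ B) (b : T ⟶ B)
    [HasPullback b f]
    (e : ∀ W : Over T, P.obj (op W) ≃ { g : W.left ⟶ X // g ≫ f = W.hom ≫ b })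
    (hnat : ∀ {W W' : Over T} (k : W' ⟶ W) (x : P.obj (op W)),
      (e W' (P.map k.op x)).1 = k.left ≫ (e W x).1) :
    P.RepresentableBy (Over.mk (pullback.fst b f)) where
  homEquiv {W} :=
    { toFun := fun h => (e W).symm ⟨h.left ≫ pullback.snd b f, by
        rw [Category.assoc, ← pullback.condition, ← Category.assoc]
        congr 1
        exact Over.w h⟩
      invFun := fun x => Over.homMk (pullback.lift W.hom (e W x).1 (e W x).2.symm)
        (pullback.lift_fst _ _ _)
      left_inv := fun h => by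
        apply Over.OverMorphism.ext
        apply pullback.hom_ext
        · simp only [Over.homMk_left, pullback.lift_fst]
          exact (Over.w h).symm
        · simp only [Over.homMk_left, Equiv.apply_symm_apply]
          exact pullback.lift_snd _ _ _
      right_inv := fun x => by
        rw [Equiv.symm_apply_eq]
        apply Subtype.ext
        exact pullback.lift_snd _ _ _ }
  homEquiv_comp {W W'} k h := by
    apply (e W).injective
    apply Subtype.ext
    rw [hnat]
    simp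

variable {G : IntGroupoid C} {J : GrothendieckTopology C}

/-- The sections of a torsor in terms of a given one. -/
noncomputable def secEquiv {S : C} (N : Tors G J S) {T : Over S} (q : N.P.obj (op T)) :
    N.P.obj (op T) ≃ { g : T.left ⟶ G.R // g ≫ G.s = N.a q } :=
  Equiv.ofBijective (fun q' => ⟨N.r q q', N.r_s _ _⟩) (by
    constructor
    · intro x y h
      exact N.r_inj (congrArg Subtype.val h)
    · rintro ⟨g, hg⟩
      obtain ⟨x, hx, -⟩ := N.trans q g hg
      exact ⟨x, Subtype.ext hx⟩)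

lemma secEquiv_apply {S : C} (N : Tors G J S) {T : Over S} (q q' : N.P.obj (op T)) :
    (secEquiv N q q').1 = N.r q q' := rfl

lemma homSecEquiv_pullHom' {X₁ X₂ Y Y' : C} (f₁ : Y ⟶ X₁) (f₂ : Y ⟶ X₂) (M₁ : Tors G J X₁)
    (M₂ : Tors G J X₂) (p : M₁.P.obj (op (Over.mk f₁)))
    (φ : (Tors.pull f₁).obj M₁ ⟶ (Tors.pull f₂).obj M₂)
    (g : Y' ⟶ Y) (gf₁ : Y' ⟶ X₁) (gf₂ : Y' ⟶ X₂) (hgf₁ : g ≫ f₁ = gf₁) (hgf₂ : g ≫ f₂ = gf₂)
    (p' : M₁.P.obj (op (Over.mk gf₁))) (hp' : M₁.res (l := f₁) g gf₁ hgf₁ p = p') :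
    (homSecEquiv gf₁ gf₂ M₁ M₂ p'
      (pullHom (F := torsPseudo G J) (M₁ := M₁) (M₂ := M₂) φ g gf₁ gf₂ hgf₁ hgf₂)).1 =
      M₂.res (l := f₂) g gf₂ hgf₂ (homSecEquiv f₁ f₂ M₁ M₂ p φ).1 := by
  subst hp'
  exact homSecEquiv_pullHom f₁ f₂ M₁ M₂ p φ g gf₁ gf₂ hgf₁ hgf₂

section diag

variable [HasBinaryProducts C] {S : C} (M N : Tors G J S) {T : C} (k : T ⟶ S)
  (p : M.P.obj (op (Over.mk k))) (q : N.P.obj (op (Over.mk k)))

/-- Morphisms between torsors with sections in terms of arrows of the groupoid. -/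
noncomputable def diagEquiv (W : Over T) :
    ((Over.map k).op ⋙ (torsPseudo G J).presheafHom M N).obj (op W) ≃
      { g : W.left ⟶ G.R // g ≫ prod.lift G.s G.t = W.hom ≫ prod.lift (N.a q) (M.a p) } :=
  Equiv.ofBijective (fun φ => ⟨N.r (N.res W.hom (W.hom ≫ k) rfl q)
      (homSecEquiv (W.hom ≫ k) (W.hom ≫ k) M N (M.res W.hom (W.hom ≫ k) rfl p) φ).1, by
    apply Limits.prod.hom_ext
    · simp only [Category.assoc, prod.lift_fst]
      rw [N.r_s, N.a_res]
    · simp only [Category.assoc, prod.lift_snd]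
      rw [N.r_t, (homSecEquiv (W.hom ≫ k) (W.hom ≫ k) M N
        (M.res W.hom (W.hom ≫ k) rfl p) φ).2, M.a_res]⟩) (by
    constructor
    · intro φ ψ h
      have h1 := congrArg Subtype.val h
      have h2 := N.r_inj h1
      exact (homSecEquiv (W.hom ≫ k) (W.hom ≫ k) M N (M.res W.hom (W.hom ≫ k) rfl p)).injective
        (Subtype.ext h2)
    · rintro ⟨g, hg⟩
      have hg1 : g ≫ G.s = W.hom ≫ N.a q := by
        have := congrArg (fun z => z ≫ prod.fst) hg
        simp only [Category.assoc, prod.lift_fst] at this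
        exact this
      have hg2 : g ≫ G.t = W.hom ≫ M.a p := by
        have := congrArg (fun z => z ≫ prod.snd) hg
        simp only [Category.assoc, prod.lift_snd] at this
        exact this
      obtain ⟨q', hq', -⟩ := N.trans (N.res W.hom (W.hom ≫ k) rfl q) g (by rw [N.a_res, hg1])
      obtain ⟨φ, hφ⟩ := (homSecEquiv (W.hom ≫ k) (W.hom ≫ k) M N
        (M.res W.hom (W.hom ≫ k) rfl p)).surjective ⟨q', by
          rw [M.a_res, ← N.r_t (N.res W.hom (W.hom ≫ k) rfl q) q', hq', hg2]⟩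
      refine ⟨φ, ?_⟩
      apply Subtype.ext
      change N.r _ (homSecEquiv (W.hom ≫ k) (W.hom ≫ k) M N
        (M.res W.hom (W.hom ≫ k) rfl p) φ).1 = g
      rw [hφ]
      exact hq')

lemma diagEquiv_apply (W : Over T)
    (φ : ((Over.map k).op ⋙ (torsPseudo G J).presheafHom M N).obj (op W)) :
    (diagEquiv M N k p q W φ).1 = N.r (N.res W.hom (W.hom ≫ k) rfl q)
      (homSecEquiv (W.hom ≫ k) (W.hom ≫ k) M N (M.res W.hom (W.hom ≫ k) rfl p) φ).1 := rfl

lemma diagEquiv_nat {W W' : Over T} (m : W' ⟶ W)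
    (φ : ((Over.map k).op ⋙ (torsPseudo G J).presheafHom M N).obj (op W)) :
    (diagEquiv M N k p q W' (((Over.map k).op ⋙ (torsPseudo G J).presheafHom M N).map m.op φ)).1 =
      m.left ≫ (diagEquiv M N k p q W φ).1 := by
  have hm : m.left ≫ W.hom = W'.hom := Over.w m
  rw [diagEquiv_apply, diagEquiv_apply]
  have h1 := homSecEquiv_pullHom' (W.hom ≫ k) (W.hom ≫ k) M N (M.res W.hom (W.hom ≫ k) rfl p) φ
    m.left (W'.hom ≫ k) (W'.hom ≫ k) (by rw [← Category.assoc, hm])
    (by rw [← Category.assoc, hm]) (M.res W'.hom (W'.hom ≫ k) rfl p) (by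
      rw [Tors.res_res]
      apply Tors.res_congr
      exact hm)
  have h2 : N.r (N.res W'.hom (W'.hom ≫ k) rfl q) (homSecEquiv (W'.hom ≫ k) (W'.hom ≫ k) M N
      (M.res W'.hom (W'.hom ≫ k) rfl p)
      (pullHom (F := torsPseudo G J) (M₁ := M) (M₂ := N) (f₁ := W.hom ≫ k) (f₂ := W.hom ≫ k) φ
        m.left (W'.hom ≫ k) (W'.hom ≫ k)
        (by rw [← Category.assoc, hm]) (by rw [← Category.assoc, hm]))).1 =
      m.left ≫ N.r (N.res W.hom (W.hom ≫ k) rfl q)
      (homSecEquiv (W.hom ≫ k) (W.hom ≫ k) M N (M.res W.hom (W.hom ≫ k) rfl p) φ).1 := by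
    rw [h1]
    have h3 := N.r_res (l := W.hom ≫ k) m.left (W'.hom ≫ k) (by rw [← Category.assoc, hm])
      (N.res W.hom (W.hom ≫ k) rfl q)
      (homSecEquiv (W.hom ≫ k) (W.hom ≫ k) M N (M.res W.hom (W.hom ≫ k) rfl p) φ).1
    rw [← h3]
    apply N.r_congr _ rfl
    rw [Tors.res_res]
    apply Tors.res_congr
    exact hm.symm
  exact h2

end diag

end Stk90
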