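import Pool.Agent.Stk90.Pull

/-!
# Values of the pseudofunctor of torsors
-/

open CategoryTheory Opposite

universe v u

namespace Stk90

variable {C : Type u} [Category.{v} C]

namespace Tors

variable {G : IntGroupoid C} {J : GrothendieckTopology C}

/-- Restriction of sections, with a free choice of the structure maps. -/
def res {S : C} (M : Tors G J S) {V V' : C} {l : V ⟶ S} (g : V' ⟶ V) (l' : V' ⟶ S)
    (h : g ≫ l = l') (x : M.P.obj (op (Over.mk l))) : M.P.obj (op (Over.mk l')) :=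
  M.P.map (Over.homMk g (by simpa using h) : Over.mk l' ⟶ Over.mk l).op x

lemma res_id {S : C} (M : Tors G J S) {V : C} {l : V ⟶ S} (x : M.P.obj (op (Over.mk l)))
    (h : 𝟙 V ≫ l = l) : M.res (𝟙 V) l h x = x := by
  have : (Over.homMk (𝟙 V) (by simp) : Over.mk l ⟶ Over.mk l) = 𝟙 _ := by
    apply Over.OverMorphism.ext; rfl
  change M.P.map (Over.homMk (𝟙 V) _ : Over.mk l ⟶ Over.mk l).op x = x
  rw [this]
  simp

lemma res_eq_self {S : C} (M : Tors G J S) {V : C} {l l' : V ⟶ S} (k : V ⟶ V) (hk : k = 𝟙 V)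
    (hl : l = l') (h : k ≫ l = l') (y : M.P.obj (op (Over.mk l))) :
    M.res k l' h y = (by rw [← hl]; exact y : M.P.obj (op (Over.mk l'))) := by
  subst hk
  subst hl
  exact M.res_id y h

lemma res_self {S : C} (M : Tors G J S) {V : C} {l : V ⟶ S} (k : V ⟶ V) (hk : k = 𝟙 V)
    (h : k ≫ l = l) (y : M.P.obj (op (Over.mk l))) : M.res k l h y = y := by
  subst hk
  exact M.res_id y h

lemma res_congr {S : C} (M : Tors G J S) {V V' : C} {l : V ⟶ S} (g g' : V' ⟶ V) (l' : V' ⟶ S)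
    (h : g ≫ l = l') (hg : g = g') (x : M.P.obj (op (Over.mk l))) :
    M.res g l' h x = M.res g' l' (by rw [← hg, h]) x := by
  subst hg
  rfl

lemma res_res {S : C} (M : Tors G J S) {V V' V'' : C} {l : V ⟶ S} {g : V' ⟶ V} {l' : V' ⟶ S}
    {g' : V'' ⟶ V'} {l'' : V'' ⟶ S} (h : g ≫ l = l') (h' : g' ≫ l' = l'')
    (x : M.P.obj (op (Over.mk l))) :
    M.res g' l'' h' (M.res g l' h x) = M.res (g' ≫ g) l'' (by rw [Category.assoc, h, h']) x := by
  unfold res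
  rw [map_map]
  apply map_eq_map
  simp

lemma map_eq_res {S : C} (M : Tors G J S) {T T' : Over S} (k : T' ⟶ T)
    (x : M.P.obj (op T)) : M.P.map k.op x = M.res (V := T.left) (V' := T'.left) (l := T.hom)
      k.left T'.hom (Over.w k) x := by
  have : k = Over.homMk k.left (Over.w k) := by
    apply Over.OverMorphism.ext; rfl
  unfold res
  apply map_eq_map
  rfl

lemma res_f {S : C} {M N : Tors G J S} (φ : M ⟶ N) {V V' : C} {l : V ⟶ S} (g : V' ⟶ V)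
    (l' : V' ⟶ S) (h : g ≫ l = l') (x : M.P.obj (op (Over.mk l))) :
    N.res g l' h (φ.f.app (op (Over.mk l)) x) = φ.f.app (op (Over.mk l')) (M.res g l' h x) :=
  f_nat φ _ _

lemma a_res {S : C} (M : Tors G J S) {V V' : C} {l : V ⟶ S} (g : V' ⟶ V)
    (l' : V' ⟶ S) (h : g ≫ l = l') (x : M.P.obj (op (Over.mk l))) :
    M.a (M.res g l' h x) = g ≫ M.a x := M.a_nat _ _

lemma r_res {S : C} (M : Tors G J S) {V V' : C} {l : V ⟶ S} (g : V' ⟶ V)
    (l' : V' ⟶ S) (h : g ≫ l = l') (x y : M.P.obj (op (Over.mk l))) :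
    M.r (M.res g l' h x) (M.res g l' h y) = g ≫ M.r x y := M.r_nat _ _ _

lemma pull_res {S S' : C} (f : S' ⟶ S) (M : Tors G J S) {V V' : C} {l : V ⟶ S'} (g : V' ⟶ V)
    (l' : V' ⟶ S') (h : g ≫ l = l') (x : M.P.obj (op (Over.mk (l ≫ f)))) :
    Tors.res ((Tors.pull f).obj M) (l := l) g l' h x =
      M.res (l := l ≫ f) g (l' ≫ f) (by rw [← h, Category.assoc]) x := rfl

end Tors

variable {G : IntGroupoid C} {J : GrothendieckTopology C}

open Pseudofunctor.LocallyDiscreteOpToCat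

lemma mapComp'_hom_app {X Y Z : C} (f : Y ⟶ X) (g : Z ⟶ Y) (gf : Z ⟶ X) (h : g ≫ f = gf)
    (M : Tors G J X) (T : Over Z) (x : M.P.obj (op (Over.mk (T.hom ≫ gf)))) :
    (Tors.Hom.f (((torsPseudo G J).mapComp' f.op.toLoc g.op.toLoc gf.op.toLoc
      (by subst h; rfl)).hom.toNatTrans.app M)).app (op T) x =
      M.res (𝟙 _) ((T.hom ≫ g) ≫ f) (by rw [← h]; simp) x := by
  subst h
  erw [Pseudofunctor.mapComp'_eq_mapComp]
  refine (Tors.map_eq_res M _ _).trans ?_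
  rfl

lemma mapComp'_inv_app {X Y Z : C} (f : Y ⟶ X) (g : Z ⟶ Y) (gf : Z ⟶ X) (h : g ≫ f = gf)
    (M : Tors G J X) (T : Over Z) (x : M.P.obj (op (Over.mk ((T.hom ≫ g) ≫ f)))) :
    (Tors.Hom.f (((torsPseudo G J).mapComp' f.op.toLoc g.op.toLoc gf.op.toLoc
      (by subst h; rfl)).inv.toNatTrans.app M)).app (op T) x =
      M.res (𝟙 _) (T.hom ≫ gf) (by rw [← h]; simp) x := by
  subst h
  erw [Pseudofunctor.mapComp'_eq_mapComp]
  refine (Tors.map_eq_res M _ _).trans ?_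
  rfl

lemma mapId_hom_app {X : C} (M : Tors G J X) (T : Over X)
    (x : M.P.obj (op (Over.mk (T.hom ≫ 𝟙 X)))) :
    (Tors.Hom.f (((torsPseudo G J).mapId (.mk (op X))).hom.toNatTrans.app M)).app (op T) x =
      M.res (𝟙 _) T.hom (by simp) x := by
  refine (Tors.map_eq_res M _ _).trans ?_
  rfl

lemma mapId_inv_app {X : C} (M : Tors G J X) (T : Over X)
    (x : M.P.obj (op T)) :
    (Tors.Hom.f (((torsPseudo G J).mapId (.mk (op X))).inv.toNatTrans.app M)).app (op T) x =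
      M.res (𝟙 _) (T.hom ≫ 𝟙 X) (by simp) x := by
  refine (Tors.map_eq_res M _ _).trans ?_
  rfl

lemma pullHom_app {X₁ X₂ Y Y' : C} {M₁ : Tors G J X₁} {M₂ : Tors G J X₂}
    {f₁ : Y ⟶ X₁} {f₂ : Y ⟶ X₂} (φ : (Tors.pull f₁).obj M₁ ⟶ (Tors.pull f₂).obj M₂)
    (g : Y' ⟶ Y) (gf₁ : Y' ⟶ X₁) (gf₂ : Y' ⟶ X₂) (hgf₁ : g ≫ f₁ = gf₁) (hgf₂ : g ≫ f₂ = gf₂)
    (T : Over Y') (x : M₁.P.obj (op (Over.mk (T.hom ≫ gf₁)))) :
    (Tors.Hom.f (pullHom (F := torsPseudo G J) (M₁ := M₁) (M₂ := M₂) φ g gf₁ gf₂ hgf₁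
      hgf₂)).app (op T) x =
      M₂.res (𝟙 _) (T.hom ≫ gf₂) (by rw [← hgf₂]; simp) (φ.f.app (op (Over.mk (T.hom ≫ g)))
        (M₁.res (𝟙 _) ((T.hom ≫ g) ≫ f₁) (by rw [← hgf₁]; simp) x)) := by
  rw [← mapComp'_hom_app f₁ g gf₁ hgf₁, ← mapComp'_inv_app f₂ g gf₂ hgf₂]
  rfl

end Stk90
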