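import Pool.Agent.Stk90.Glue

/-!
# Torsors form a stack
-/

open CategoryTheory Opposite

universe w v u

namespace Stk90

variable {C : Type u} [Category.{v} C]

variable {G : IntGroupoid C} {J : GrothendieckTopology C}

open Pseudofunctor

section

variable {S : C} {R : Sieve S}
  (D : (torsPseudo G J).DescentData (fun i : R.arrows.category => i.obj.hom))

/-- Sections of the glued torsor. -/
structure GSec (T : Over S) : Type (max u v) where
  /-- the components -/
  x : ∀ (W : Over S) (_ : W ⟶ T) (hW : R W.hom), dQ D W hW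
  comp : ∀ {W W' : Over S} (k : W ⟶ T) (m : W' ⟶ W) (hW : R W.hom) (hW' : R W'.hom),
      tr D m hW hW' (x W k hW) = x W' (m ≫ k) hW'

variable {D} in
lemma GSec.ext {T : Over S} {x y : GSec D T} (h : x.x = y.x) : x = y := by
  cases x
  cases y
  simp only at h
  subst h
  rfl

/-- The glued sheaf. -/
def glued : (Over S)ᵒᵖ ⥤ Type (max u v) where
  obj T := GSec D T.unop
  map {T T'} k := ↾fun x => ⟨fun W l hW => x.x W (l ≫ k.unop) hW, fun l m hW hW' => by
    rw [x.comp, Category.assoc]⟩
  map_id T := by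
    ext x
    change GSec D T.unop at x
    apply GSec.ext
    funext W l hW
    change x.x W (l ≫ 𝟙 _) hW = x.x W l hW
    rw [Category.comp_id]
  map_comp {T T' T''} k l := by
    ext x
    change GSec D T.unop at x
    apply GSec.ext
    funext W m hW
    change x.x W (m ≫ l.unop ≫ k.unop) hW = x.x W ((m ≫ l.unop) ≫ k.unop) hW
    rw [Category.assoc]

lemma glued_map {T T' : Over S} (k : T' ⟶ T) (x : GSec D T) (W : Over S) (l : W ⟶ T')
    (hW : R W.hom) :
    GSec.x ((glued D).map k.op x) W l hW = x.x W (l ≫ k) hW := rfl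

lemma glued_isSheaf : Presieve.IsSheaf (J.over S) (glued D) := by
  intro T K hK x hx
  rw [Presieve.compatible_iff_sieveCompatible] at hx
  have hxx : ∀ {Y Z : Over S} (g : Y ⟶ T) (h : Z ⟶ Y) (hg : K g) (hgh : K (h ≫ g)) (W : Over S)
      (l : W ⟶ Z) (hW : R W.hom),
      GSec.x (x (h ≫ g) hgh) W l hW = GSec.x (x g hg) W (l ≫ h) hW := by
    intro Y Z g h hg hgh W l hW
    rw [← glued_map]
    exact congrArg (fun z => GSec.x z W l hW) (hx g h hg)
  have hmain : ∀ (W : Over S) (k : W ⟶ T) (hW : R W.hom), ∃! y : dQ D W hW,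
      ∀ {W' : Over S} (m : W' ⟶ W) (hm : K (m ≫ k)) (hW' : R W'.hom),
      tr D m hW hW' y = GSec.x (x (m ≫ k) hm) W' (𝟙 W') hW' := by
    intro W k hW
    refine exists_glue_sec D hW (K := K.pullback k) ((J.over S).pullback_stable k hK)
      (fun {W'} m hm hW' => GSec.x (x (m ≫ k) hm) W' (𝟙 W') hW') ?_
    intro W' W'' m m' hm hm' hW' hW''
    rw [GSec.comp]
    have hm2 : K (m' ≫ m ≫ k) := by
      have : K ((m' ≫ m) ≫ k) := hm'
      rwa [Category.assoc] at this
    have h1 := hxx (m ≫ k) m' hm hm2 W'' (𝟙 W'') hW''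
    rw [Category.comp_id]
    rw [Category.id_comp] at h1
    rw [← h1]
    congr 2
    rw [Category.assoc]
  choose y hy hyu using hmain
  have hcomp : ∀ {W W' : Over S} (k : W ⟶ T) (m : W' ⟶ W) (hW : R W.hom) (hW' : R W'.hom),
      tr D m hW hW' (y W k hW) = y W' (m ≫ k) hW' := by
    intro W W' k m hW hW'
    apply hyu
    intro W'' m' hm' hW''
    rw [tr_tr]
    have hm2 : K ((m' ≫ m) ≫ k) := by
      rwa [Category.assoc]
    rw [hy W k hW (m' ≫ m) hm2 hW'']
    congr 2
    rw [Category.assoc]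
  refine ⟨(⟨y, hcomp⟩ : GSec D T), ?_, ?_⟩
  · intro T' g hg
    apply GSec.ext
    funext W l hW
    rw [glued_map]
    symm
    apply hyu
    intro W' m hm hW'
    rw [GSec.comp]
    have hm2 : K ((m ≫ l) ≫ g) := by
      rwa [Category.assoc]
    have h1 := hxx g (m ≫ l) hg hm2 W' (𝟙 W') hW'
    rw [Category.id_comp] at h1
    rw [← h1]
    congr 2
    rw [Category.assoc]
  · intro y' hy'
    apply GSec.ext
    funext W k hW
    apply hyu
    intro W' m hm hW'
    rw [GSec.comp, ← hy' (m ≫ k) hm, glued_map, Category.id_comp]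

variable [J.Subcanonical] (hR : R ∈ J S)

include hR in
lemma exists_glued_a {T : Over S} (x : GSec D T) : ∃ a : T.left ⟶ G.U,
    ∀ (W : Over S) (k : W ⟶ T) (hW : R W.hom), k.left ≫ a = (dE D W hW).a (x.x W k hW) := by
  refine exists_glue_map hR T (fun W k hW => (dE D W hW).a (x.x W k hW)) ?_
  intro W W' k m hW hW'
  rw [← x.comp k m hW hW', a_tr]

include hR in
lemma exists_glued_r {T : Over S} (x y : GSec D T) : ∃ a : T.left ⟶ G.R,
    ∀ (W : Over S) (k : W ⟶ T) (hW : R W.hom),
      k.left ≫ a = (dE D W hW).r (x.x W k hW) (y.x W k hW) := by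
  refine exists_glue_map hR T (fun W k hW => (dE D W hW).r (x.x W k hW) (y.x W k hW)) ?_
  intro W W' k m hW hW'
  rw [← x.comp k m hW hW', ← y.comp k m hW hW', r_tr]

include hR in
/-- Maps out of an object over `S` are determined on the arrows of the sieve. -/
lemma hom_ext_over {T : Over S} {Y : C} {a b : T.left ⟶ Y}
    (h : ∀ (W : Over S) (k : W ⟶ T) (_ : R W.hom), k.left ≫ a = k.left ≫ b) : a = b :=
  hom_ext_of_cover (J.pullback_stable T.hom hR) fun V k hk =>
    h (Over.mk (k ≫ T.hom)) (Over.homMk k) hk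

/-- The anchor of the glued torsor. -/
noncomputable def gluedA {T : Over S} (x : GSec D T) : T.left ⟶ G.U :=
  (exists_glued_a D hR x).choose

lemma gluedA_spec {T : Over S} (x : GSec D T) (W : Over S) (k : W ⟶ T) (hW : R W.hom) :
    k.left ≫ gluedA D hR x = (dE D W hW).a (x.x W k hW) :=
  (exists_glued_a D hR x).choose_spec W k hW

/-- The comparison of sections of the glued torsor. -/
noncomputable def gluedR {T : Over S} (x y : GSec D T) : T.left ⟶ G.R :=
  (exists_glued_r D hR x y).choose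

lemma gluedR_spec {T : Over S} (x y : GSec D T) (W : Over S) (k : W ⟶ T) (hW : R W.hom) :
    k.left ≫ gluedR D hR x y = (dE D W hW).r (x.x W k hW) (y.x W k hW) :=
  (exists_glued_r D hR x y).choose_spec W k hW

lemma gluedR_s {T : Over S} (x y : GSec D T) : gluedR D hR x y ≫ G.s = gluedA D hR x := by
  refine hom_ext_over hR fun W k hW => ?_
  rw [gluedA_spec D hR x W k hW, ← Category.assoc, gluedR_spec D hR x y W k hW, Tors.r_s]

lemma gluedR_t {T : Over S} (x y : GSec D T) : gluedR D hR x y ≫ G.t = gluedA D hR y := by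
  refine hom_ext_over hR fun W k hW => ?_
  rw [gluedA_spec D hR y W k hW, ← Category.assoc, gluedR_spec D hR x y W k hW, Tors.r_t]

lemma comp_congr {T : C} {g g' h h' : T ⟶ G.R} (hg : g = g') (hh : h = h')
    (w : g ≫ G.t = h ≫ G.s) : G.comp g h w = G.comp g' h' (by rw [← hg, ← hh, w]) := by
  subst hg
  subst hh
  rfl

/-- The section of the glued sheaf over an arrow of the sieve. -/
def secOf {W : Over S} (hW : R W.hom) (x : dQ D W hW) : GSec D W where
  x W' k hW' := tr D k hW hW' x
  comp k m hW' hW'' := by rw [tr_tr]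

/-- The glued torsor. -/
noncomputable def gluedTors : Tors G J S where
  P := glued D
  isSheaf := glued_isSheaf D
  a {T} x := gluedA D hR (T := T) x
  a_nat {T T'} k x := by
    change GSec D T at x
    change gluedA D hR ((glued D).map k.op x) = k.left ≫ gluedA D hR x
    refine hom_ext_over hR fun W l hW => ?_
    rw [gluedA_spec D hR _ W l hW, glued_map, ← Category.assoc]
    exact (gluedA_spec D hR x W (l ≫ k) hW).symm
  r {T} x y := gluedR D hR (T := T) x y
  r_nat {T T'} k x y := by
    change GSec D T at x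
    change GSec D T at y
    change gluedR D hR ((glued D).map k.op x) ((glued D).map k.op y) = k.left ≫ gluedR D hR x y
    refine hom_ext_over hR fun W l hW => ?_
    rw [gluedR_spec D hR _ _ W l hW, glued_map, glued_map, ← Category.assoc]
    exact (gluedR_spec D hR x y W (l ≫ k) hW).symm
  r_s {T} x y := gluedR_s D hR (T := T) x y
  r_t {T} x y := gluedR_t D hR (T := T) x y
  r_comp {T} x y z := by
    change GSec D T at x
    change GSec D T at y
    change GSec D T at z
    change G.comp (gluedR D hR x y) (gluedR D hR y z) _ = gluedR D hR x z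
    refine hom_ext_over hR fun W l hW => ?_
    rw [G.comp_nat]
    rw [comp_congr (gluedR_spec D hR x y W l hW) (gluedR_spec D hR y z W l hW),
      gluedR_spec D hR x z W l hW, Tors.r_comp]
  trans {T} x g hg := by
    change GSec D T at x
    change g ≫ G.s = gluedA D hR x at hg
    have hmain : ∀ (W : Over S) (k : W ⟶ T) (hW : R W.hom), ∃! q : dQ D W hW,
        (dE D W hW).r (x.x W k hW) q = k.left ≫ g := by
      intro W k hW
      apply (dE D W hW).trans
      rw [Category.assoc, hg, gluedA_spec D hR x W k hW]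
    choose q hq hqu using hmain
    refine ⟨(⟨q, ?_⟩ : GSec D T), ?_, ?_⟩
    · intro W W' k m hW hW'
      apply hqu
      rw [← x.comp k m hW hW', r_tr, hq]
      simp
    · change gluedR D hR x _ = g
      refine hom_ext_over hR fun W l hW => ?_
      rw [gluedR_spec D hR x _ W l hW]
      exact hq W l hW
    · intro q' hq'
      change GSec D T at q'
      change gluedR D hR x q' = g at hq'
      apply GSec.ext
      funext W k hW
      apply hqu
      rw [← gluedR_spec D hR x q' W k hW, hq']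
  locally := by
    classical
    have hloc : ∀ (W : Over S) (hW : R W.hom), ∃ K ∈ J W.left,
        ∀ ⦃Y : C⦄ (k : Y ⟶ W.left), K k → Nonempty ((dE D W hW).P.obj (op (Over.mk k))) :=
      fun W hW => (dE D W hW).locally
    choose K hK hne using hloc
    refine ⟨Sieve.bind R.arrows (fun {Y} f hf => K (Over.mk f) hf),
      J.bind_covering hR (fun {Y} f hf => hK (Over.mk f) hf), ?_⟩
    rintro Y k ⟨Z, l, f, hf, hl, rfl⟩
    obtain ⟨y⟩ := hne (Over.mk f) hf l hl
    have hY : R (l ≫ f) := R.downward_closed hf l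
    exact ⟨secOf D (W := Over.mk (l ≫ f)) hY (tau D (i := (⟨Over.mk f, hf⟩ : R.arrows.category))
      (j := (⟨Over.mk (l ≫ f), hY⟩ : R.arrows.category)) l (𝟙 Y) (by simp) y)⟩

lemma tau_comp {T : Over S} (x : GSec D T) {W W' V : Over S} (hW : R W.hom) (hW' : R W'.hom)
    (hV : R V.hom) (k : W ⟶ T) (m : W' ⟶ W) (l : W'.left ⟶ V.left) (h : l ≫ V.hom = W'.hom) :
    tau D (i := (⟨W', hW'⟩ : R.arrows.category)) (j := (⟨V, hV⟩ : R.arrows.category))
      (𝟙 W'.left) l (by simp [h]) (x.x W' (m ≫ k) hW') =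
    tau D (i := (⟨W, hW⟩ : R.arrows.category)) (j := (⟨V, hV⟩ : R.arrows.category))
      m.left l (by simp [h])
      ((dE D W hW).res (l := 𝟙 W.left) m.left m.left (by simp) (x.x W k hW)) := by
  rw [← x.comp k m hW hW']
  unfold tr
  exact tau_tau D (i := (⟨W, hW⟩ : R.arrows.category)) (j := (⟨W', hW'⟩ : R.arrows.category))
    (k := (⟨V, hV⟩ : R.arrows.category)) m.left (𝟙 W'.left) l _ _ _

/-- The comparison of sections. -/
def gluedFun (W : Over S) (hW : R W.hom) (T : Over W.left)
    (x : GSec D (Over.mk (T.hom ≫ W.hom))) : (dE D W hW).P.obj (op T) :=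
  tau D (i := (⟨Over.mk (T.hom ≫ W.hom), R.downward_closed hW _⟩ : R.arrows.category))
    (j := (⟨W, hW⟩ : R.arrows.category)) (𝟙 T.left) T.hom (by simp)
    (GSec.x x (Over.mk (T.hom ≫ W.hom)) (𝟙 _) (R.downward_closed hW _))

lemma gluedFun_nat (W : Over S) (hW : R W.hom) {T T' : Over W.left} (k : T' ⟶ T)
    (x : GSec D (Over.mk (T.hom ≫ W.hom))) :
    gluedFun D W hW T' ((glued D).map ((Over.map W.hom).map k).op x) =
      (dE D W hW).P.map k.op (gluedFun D W hW T x) := by
  rw [Tors.map_eq_res]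
  unfold gluedFun
  have h1 := tau_res D
    (i := (⟨Over.mk (T.hom ≫ W.hom), R.downward_closed hW _⟩ : R.arrows.category))
    (j := (⟨W, hW⟩ : R.arrows.category)) (𝟙 T.left) T.hom (by simp) k.left k.left T'.hom
    (Category.comp_id _) (Over.w k) (GSec.x x (Over.mk (T.hom ≫ W.hom)) (𝟙 _)
      (R.downward_closed hW _))
  refine Eq.trans ?_ h1.symm
  let κ : Over.mk (T'.hom ≫ W.hom) ⟶ Over.mk (T.hom ≫ W.hom) := (Over.map W.hom).map k
  have h2 := tau_comp D x (W := Over.mk (T.hom ≫ W.hom)) (W' := Over.mk (T'.hom ≫ W.hom))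
    (V := W) (R.downward_closed hW _) (R.downward_closed hW _) hW (𝟙 _) κ T'.hom rfl
  refine Eq.trans ?_ h2
  rw [Category.comp_id]
  change tau D _ _ _ (x.x _ (𝟙 _ ≫ κ) _) = _
  rw [Category.id_comp]

/-- The comparison of the glued torsor with the descent datum. -/
noncomputable def gluedHom (W : Over S) (hW : R W.hom) :
    (Tors.pull W.hom).obj (gluedTors D hR) ⟶ dE D W hW where
  f :=
    { app := fun T => ↾(fun x => gluedFun D W hW T.unop x)
      naturality := by
        intro T T' k
        ext x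
        exact gluedFun_nat D W hW k.unop x }
  a_f := by
    intro T x
    change GSec D (Over.mk (T.hom ≫ W.hom)) at x
    change (dE D W hW).a (gluedFun D W hW T x) = gluedA D hR x
    have h1 := gluedA_spec D hR x (Over.mk (T.hom ≫ W.hom)) (𝟙 _) (R.downward_closed hW _)
    refine Eq.trans ?_ (h1.symm.trans (Category.id_comp _))
    exact a_tau D
      (i := (⟨Over.mk (T.hom ≫ W.hom), R.downward_closed hW _⟩ : R.arrows.category))
      (j := (⟨W, hW⟩ : R.arrows.category)) (𝟙 T.left) T.hom _ _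
  r_f := by
    intro T x y
    change GSec D (Over.mk (T.hom ≫ W.hom)) at x
    change GSec D (Over.mk (T.hom ≫ W.hom)) at y
    change (dE D W hW).r (gluedFun D W hW T x) (gluedFun D W hW T y) = gluedR D hR x y
    have h1 := gluedR_spec D hR x y (Over.mk (T.hom ≫ W.hom)) (𝟙 _) (R.downward_closed hW _)
    refine Eq.trans ?_ (h1.symm.trans (Category.id_comp _))
    exact r_tau D
      (i := (⟨Over.mk (T.hom ≫ W.hom), R.downward_closed hW _⟩ : R.arrows.category))
      (j := (⟨W, hW⟩ : R.arrows.category)) (𝟙 T.left) T.hom _ _ _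

lemma gluedHom_comm {Y : C} (q : Y ⟶ S) (i j : R.arrows.category) (l : Y ⟶ i.obj.left)
    (l' : Y ⟶ j.obj.left) (hl : l ≫ i.obj.hom = q) (hl' : l' ≫ j.obj.hom = q) (T : Over Y)
    (x : GSec D (Over.mk ((T.hom ≫ l) ≫ i.obj.hom))) :
    (dhom D q l l' hl hl').f.app (op T) (gluedFun D i.obj i.property (Over.mk (T.hom ≫ l)) x) =
    gluedFun D j.obj j.property (Over.mk (T.hom ≫ l'))
      ((Tors.Hom.f ((DescentData.ofObj (F := torsPseudo G J)
        (f := fun i : R.arrows.category => i.obj.hom)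
        (gluedTors D hR : Tors G J S)).hom q l l' hl hl')).app (op T) x) := by
  have h1 := ofObj_hom_app (fun i : R.arrows.category => i.obj.hom) (gluedTors D hR) q l l' hl
    hl' T x
  rw [h1]
  have h0 : (T.hom ≫ l) ≫ i.obj.hom = (T.hom ≫ l') ≫ j.obj.hom := by
    rw [Category.assoc, Category.assoc, hl, hl']
  have hRi : R ((T.hom ≫ l) ≫ i.obj.hom) := R.downward_closed i.property _
  have hRj : R ((T.hom ≫ l') ≫ j.obj.hom) := R.downward_closed j.property _
  refine (dhom_app D q l l' hl hl' T _).trans ?_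
  refine (tau_tau D (i := (⟨Over.mk ((T.hom ≫ l) ≫ i.obj.hom), hRi⟩ : R.arrows.category))
    (j := i) (k := j) (𝟙 T.left) (T.hom ≫ l) (T.hom ≫ l') _ _ _).trans ?_
  let κ : Over.mk ((T.hom ≫ l') ≫ j.obj.hom) ⟶ Over.mk ((T.hom ≫ l) ≫ i.obj.hom) :=
    Over.homMk (𝟙 _) (by simp [hl, hl'])
  have h2 := tau_comp D x (W := Over.mk ((T.hom ≫ l) ≫ i.obj.hom))
    (W' := Over.mk ((T.hom ≫ l') ≫ j.obj.hom))
    (V := j.obj) hRi hRj j.property (𝟙 _) κ (T.hom ≫ l') rfl
  change _ = tau D (i := (⟨Over.mk ((T.hom ≫ l') ≫ j.obj.hom), hRj⟩ : R.arrows.category))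
    (j := j) (𝟙 T.left) (T.hom ≫ l') _ (GSec.x x _ (𝟙 _ ≫ κ) _)
  rw [Category.comp_id] at h2
  have h4 : GSec.x x _ (𝟙 _ ≫ κ) hRj = GSec.x x _ κ hRj := by rw [Category.id_comp]
  refine Eq.trans ?_ (congrArg (tau D (i := (⟨Over.mk ((T.hom ≫ l') ≫ j.obj.hom), hRj⟩ :
    R.arrows.category)) (j := j) (𝟙 T.left) (T.hom ≫ l') (by simp)) h4.symm)
  refine Eq.trans ?_ h2.symm
  congr 1
  symm
  apply Tors.res_self
  rfl

end

/-- Torsors form a stack. -/
instance isStack [J.Subcanonical] : (torsPseudo G J).IsStack J where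
  essSurj_of_sieve {S} R hR := by
    refine ⟨fun D => ⟨(gluedTors D hR : Tors G J S), ⟨DescentData.isoMk
      (fun i => (asIso (gluedHom D hR i.obj i.property) :
        (Tors.pull i.obj.hom).obj (gluedTors D hR) ≅ dE D i.obj i.property)) ?_⟩⟩⟩
    intro Y q i j l l' hl hl'
    apply Tors.hom_ext
    ext T x
    obtain ⟨T⟩ := T
    exact gluedHom_comm D hR q i j l l' hl hl' T x

end Stk90
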