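import Pool.Agent.Stk90.Prestack

/-!
# Descent data of torsors in terms of sections
-/

open CategoryTheory Opposite

universe w v u

namespace Stk90

variable {C : Type u} [Category.{v} C] {G : IntGroupoid C} {J : GrothendieckTopology C}

open Pseudofunctor

variable {ι : Type w} {S : C} {X : ι → C} {f : ∀ i, X i ⟶ S}

/-- The torsors of a descent datum. -/
def dobj (D : (torsPseudo G J).DescentData f) (i : ι) : Tors G J (X i) := D.obj i

/-- The morphisms of a descent datum. -/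
def dhom (D : (torsPseudo G J).DescentData f) {Y : C} (q : Y ⟶ S) {i j : ι} (l : Y ⟶ X i)
    (l' : Y ⟶ X j) (h : l ≫ f i = q) (h' : l' ≫ f j = q) :
    (Tors.pull l).obj (dobj D i) ⟶ (Tors.pull l').obj (dobj D j) :=
  D.hom q l l' h h'

/-- The transition maps of a descent datum on sections. -/
def tau (D : (torsPseudo G J).DescentData f) {V : C} {i j : ι} (l : V ⟶ X i) (l' : V ⟶ X j)
    (h : l ≫ f i = l' ≫ f j) (x : (dobj D i).P.obj (op (Over.mk l))) :
    (dobj D j).P.obj (op (Over.mk l')) :=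
  (dobj D j).res (l := 𝟙 V ≫ l') (𝟙 V) l' (by simp)
    ((dhom D (l ≫ f i) l l' rfl h.symm).f.app (op (Over.mk (𝟙 V)))
      ((dobj D i).res (l := l) (𝟙 V) (𝟙 V ≫ l) (by simp) x))

lemma dhom_pull (D : (torsPseudo G J).DescentData f) {Y Y' : C} (g : Y' ⟶ Y) (q : Y ⟶ S)
    (q' : Y' ⟶ S) (hq : g ≫ q = q') {i j : ι} (l : Y ⟶ X i)
    (l' : Y ⟶ X j) (h : l ≫ f i = q) (h' : l' ≫ f j = q) (gl : Y' ⟶ X i) (gl' : Y' ⟶ X j)
    (hgl : g ≫ l = gl) (hgl' : g ≫ l' = gl') (T : Over Y')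
    (x : (dobj D i).P.obj (op (Over.mk (T.hom ≫ gl)))) :
    (dhom D q' gl gl' (by rw [← hgl, Category.assoc, h, hq])
      (by rw [← hgl', Category.assoc, h', hq])).f.app (op T) x =
      (dobj D j).res (l := (T.hom ≫ g) ≫ l') (𝟙 _) (T.hom ≫ gl') (by rw [← hgl']; simp)
        ((dhom D q l l' h h').f.app (op (Over.mk (T.hom ≫ g)))
          ((dobj D i).res (l := T.hom ≫ gl) (𝟙 _) ((T.hom ≫ g) ≫ l) (by rw [← hgl]; simp) x)) := by
  refine Eq.trans ?_ (pullHom_app (dhom D q l l' h h') g gl gl' hgl hgl' T x)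
  exact congrArg (fun z => (Tors.Hom.f z).app (op T) x)
    (D.pullHom_hom g q q' hq l l' h h' gl gl' hgl hgl').symm

/-- The morphisms of the descent datum are given by `tau`. -/
lemma dhom_app (D : (torsPseudo G J).DescentData f) {Y : C} (q : Y ⟶ S) {i j : ι} (l : Y ⟶ X i)
    (l' : Y ⟶ X j) (h : l ≫ f i = q) (h' : l' ≫ f j = q) (T : Over Y)
    (x : (dobj D i).P.obj (op (Over.mk (T.hom ≫ l)))) :
    (dhom D q l l' h h').f.app (op T) x =
      tau D (T.hom ≫ l) (T.hom ≫ l') (by rw [Category.assoc, Category.assoc, h, h']) x := by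
  unfold tau
  have h1 := dhom_pull D T.hom q ((T.hom ≫ l) ≫ f i) (by rw [Category.assoc, h]) l l' h h'
    (T.hom ≫ l) (T.hom ≫ l') rfl rfl (Over.mk (𝟙 T.left))
    ((dobj D i).res (l := T.hom ≫ l) (𝟙 T.left) (𝟙 T.left ≫ T.hom ≫ l) (by simp) x)
  rw [h1]
  have h2 := Tors.res_f (dhom D q l l' h h') (V := T.left) (V' := T.left) (l := T.hom) (𝟙 T.left)
    (𝟙 T.left ≫ T.hom) (by simp) x
  have h3 : (dobj D i).res (V := T.left) (l := 𝟙 T.left ≫ T.hom ≫ l) (𝟙 T.left)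
      ((𝟙 T.left ≫ T.hom) ≫ l) (by simp)
      ((dobj D i).res (V := T.left) (l := T.hom ≫ l) (𝟙 T.left) (𝟙 T.left ≫ T.hom ≫ l)
        (by simp) x) =
      (dobj D i).res (V := T.left) (l := T.hom ≫ l) (𝟙 T.left)
      ((𝟙 T.left ≫ T.hom) ≫ l) (by simp) x := by
    rw [Tors.res_res]
    apply Tors.res_congr
    simp
  change _ = (dobj D j).res (V := T.left) (l := 𝟙 T.left ≫ T.hom ≫ l') (𝟙 T.left)
    (T.hom ≫ l') (by simp) ((dobj D j).res (V := T.left) (l := (𝟙 T.left ≫ T.hom) ≫ l')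
      (𝟙 T.left) (𝟙 T.left ≫ T.hom ≫ l') (by simp) ((dhom D q l l' h h').f.app
    (op (Over.mk (𝟙 T.left ≫ T.hom))) ((dobj D i).res (V := T.left) (l := 𝟙 T.left ≫ T.hom ≫ l)
      (𝟙 T.left) ((𝟙 T.left ≫ T.hom) ≫ l) (by simp)
      ((dobj D i).res (V := T.left) (l := T.hom ≫ l) (𝟙 T.left) (𝟙 T.left ≫ T.hom ≫ l)
        (by simp) x))))
  rw [h3]
  have h4 : (dobj D j).res (V := T.left) (l := T.hom ≫ l') (𝟙 T.left)
      ((𝟙 T.left ≫ T.hom) ≫ l') (by simp) ((dhom D q l l' h h').f.app (op T) x) =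
    (dhom D q l l' h h').f.app (op (Over.mk (𝟙 T.left ≫ T.hom)))
      ((dobj D i).res (V := T.left) (l := T.hom ≫ l) (𝟙 T.left) ((𝟙 T.left ≫ T.hom) ≫ l)
        (by simp) x) := h2
  rw [← h4, Tors.res_res, Tors.res_res]
  symm
  apply Tors.res_self
  simp

lemma tau_res (D : (torsPseudo G J).DescentData f) {V V' : C} {i j : ι} (l : V ⟶ X i)
    (l' : V ⟶ X j) (h : l ≫ f i = l' ≫ f j) (g : V' ⟶ V) (m : V' ⟶ X i) (m' : V' ⟶ X j)
    (hm : g ≫ l = m) (hm' : g ≫ l' = m') (x : (dobj D i).P.obj (op (Over.mk l))) :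
    (dobj D j).res g m' hm' (tau D l l' h x) =
      tau D m m' (by rw [← hm, ← hm', Category.assoc, Category.assoc, h])
        ((dobj D i).res g m hm x) := by
  subst hm
  subst hm'
  have h1 := dhom_app D (l ≫ f i) l l' rfl h.symm (Over.mk g)
    ((dobj D i).res g (g ≫ l) rfl x)
  refine Eq.trans ?_ h1
  have h2 : (dobj D j).res (V := V) (l := 𝟙 V ≫ l') g (g ≫ l') (by simp)
      ((dhom D (l ≫ f i) l l' rfl h.symm).f.app (op (Over.mk (𝟙 V)))
      ((dobj D i).res (l := l) (𝟙 V) (𝟙 V ≫ l) (by simp) x)) =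
      (dhom D (l ≫ f i) l l' rfl h.symm).f.app (op (Over.mk g))
        ((dobj D i).res (V := V) (l := 𝟙 V ≫ l) g (g ≫ l) (by simp)
          ((dobj D i).res (l := l) (𝟙 V) (𝟙 V ≫ l) (by simp) x)) :=
    Tors.res_f (dhom D (l ≫ f i) l l' rfl h.symm) (V := V) (V' := V') (l := 𝟙 V) g
      g (by simp) _
  have h3 : (dobj D i).res (V := V) (l := 𝟙 V ≫ l) g (g ≫ l) (by simp)
          ((dobj D i).res (l := l) (𝟙 V) (𝟙 V ≫ l) (by simp) x) =
          (dobj D i).res g (g ≫ l) rfl x := by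
    rw [Tors.res_res]
    apply Tors.res_congr
    simp
  rw [h3] at h2
  refine Eq.trans ?_ h2
  unfold tau
  rw [Tors.res_res]
  apply Tors.res_congr
  simp

lemma dhom_self (D : (torsPseudo G J).DescentData f) {Y : C} (q : Y ⟶ S) {i : ι} (l : Y ⟶ X i)
    (h : l ≫ f i = q) : dhom D q l l h h = 𝟙 _ := D.hom_self q l h

lemma dhom_comp (D : (torsPseudo G J).DescentData f) {Y : C} (q : Y ⟶ S) {i j k : ι}
    (l : Y ⟶ X i) (l' : Y ⟶ X j) (l'' : Y ⟶ X k)
    (h : l ≫ f i = q) (h' : l' ≫ f j = q) (h'' : l'' ≫ f k = q) :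
    dhom D q l l' h h' ≫ dhom D q l' l'' h' h'' = dhom D q l l'' h h'' :=
  D.hom_comp q l l' l'' h h' h''

lemma tau_eq (D : (torsPseudo G J).DescentData f) {V : C} {i j : ι} (l : V ⟶ X i) (l' : V ⟶ X j)
    (h : l ≫ f i = l' ≫ f j) (x : (dobj D i).P.obj (op (Over.mk l))) (q : V ⟶ S)
    (hq : l ≫ f i = q) :
    tau D l l' h x = (dobj D j).res (l := 𝟙 V ≫ l') (𝟙 V) l' (by simp)
      ((dhom D q l l' hq (by rw [← h, hq])).f.app (op (Over.mk (𝟙 V)))
      ((dobj D i).res (l := l) (𝟙 V) (𝟙 V ≫ l) (by simp) x)) := by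
  subst hq
  rfl

lemma tau_self (D : (torsPseudo G J).DescentData f) {V : C} {i : ι} (l : V ⟶ X i)
    (x : (dobj D i).P.obj (op (Over.mk l))) : tau D l l rfl x = x := by
  unfold tau
  rw [dhom_self]
  change (dobj D i).res (l := 𝟙 V ≫ l) (𝟙 V) l (by simp)
    ((dobj D i).res (l := l) (𝟙 V) (𝟙 V ≫ l) (by simp) x) = x
  rw [Tors.res_res]
  apply Tors.res_self
  simp

lemma tau_tau (D : (torsPseudo G J).DescentData f) {V : C} {i j k : ι} (l : V ⟶ X i)
    (l' : V ⟶ X j) (l'' : V ⟶ X k)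
    (h : l ≫ f i = l' ≫ f j) (h' : l' ≫ f j = l'' ≫ f k)
    (x : (dobj D i).P.obj (op (Over.mk l))) :
    tau D l' l'' h' (tau D l l' h x) = tau D l l'' (h.trans h') x := by
  rw [tau_eq D l' l'' h' _ (l ≫ f i) h.symm, tau_eq D l l' h _ (l ≫ f i) rfl,
    tau_eq D l l'' (h.trans h') _ (l ≫ f i) rfl, ← dhom_comp D (l ≫ f i) l l' l'' rfl h.symm
      (by rw [← h', ← h])]
  rw [Tors.res_res]
  congr 1
  rw [Tors.comp_f, NatTrans.comp_app, types_comp_apply]
  congr 1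
  apply Tors.res_self
  simp

lemma a_tau (D : (torsPseudo G J).DescentData f) {V : C} {i j : ι} (l : V ⟶ X i) (l' : V ⟶ X j)
    (h : l ≫ f i = l' ≫ f j) (x : (dobj D i).P.obj (op (Over.mk l))) :
    (dobj D j).a (tau D l l' h x) = (dobj D i).a x := by
  unfold tau
  rw [Tors.a_res, Category.id_comp]
  refine ((dhom D (l ≫ f i) l l' rfl h.symm).a_f (T := Over.mk (𝟙 V)) _).trans ?_
  refine ((dobj D i).a_res _ _ _ _).trans ?_
  exact Category.id_comp _

lemma r_tau (D : (torsPseudo G J).DescentData f) {V : C} {i j : ι} (l : V ⟶ X i) (l' : V ⟶ X j)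
    (h : l ≫ f i = l' ≫ f j) (x y : (dobj D i).P.obj (op (Over.mk l))) :
    (dobj D j).r (tau D l l' h x) (tau D l l' h y) = (dobj D i).r x y := by
  unfold tau
  rw [Tors.r_res, Category.id_comp]
  refine ((dhom D (l ≫ f i) l l' rfl h.symm).r_f (T := Over.mk (𝟙 V)) _ _).trans ?_
  refine ((dobj D i).r_res _ _ _ _ _).trans ?_
  exact Category.id_comp _

end Stk90
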