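import Pool.Agent.Stk90.HomSec

/-!
# Trivial torsors
-/

open CategoryTheory Opposite

universe w v u

namespace Stk90

variable {C : Type u} [Category.{v} C]

variable (G : IntGroupoid C) (J : GrothendieckTopology C)

/-- The sheaf of the trivial torsor. -/
def trivP {S : C} (a : S ⟶ G.U) : (Over S)ᵒᵖ ⥤ Type (max u v) where
  obj T := ULift.{u} { g : T.unop.left ⟶ G.R // g ≫ G.s = T.unop.hom ≫ a }
  map {T T'} k := ↾fun g => ⟨⟨k.unop.left ≫ g.down.1, by
    rw [Category.assoc, g.down.2, ← Category.assoc, Over.w]⟩⟩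
  map_id T := by
    ext g
    change (𝟙 T.unop.left : T.unop.left ⟶ T.unop.left) ≫ g.down.1 = g.down.1
    simp
  map_comp {T T' T''} k l := by
    ext g
    change (l.unop.left ≫ k.unop.left) ≫ g.down.1 = l.unop.left ≫ k.unop.left ≫ g.down.1
    simp

variable [J.Subcanonical]

lemma trivP_ext {S : C} {a : S ⟶ G.U} {T : (Over S)ᵒᵖ} {x y : (trivP G a).obj T}
    (h : x.down.1 = y.down.1) : x = y := by
  apply ULift.ext
  apply Subtype.ext
  exact h

lemma trivP_map {S : C} {a : S ⟶ G.U} {T T' : Over S} (k : T' ⟶ T)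
    (x : (trivP G a).obj (op T)) :
    ULift.down ((trivP G a).map k.op x) = ⟨k.left ≫ x.down.1, by
      rw [Category.assoc, x.down.2, ← Category.assoc]
      change (k.left ≫ T.hom) ≫ a = _
      rw [Over.w]⟩ := rfl

lemma trivP_isSheaf {S : C} (a : S ⟶ G.U) : Presieve.IsSheaf (J.over S) (trivP G a) := by
  intro T K hK x hx
  rw [Presieve.compatible_iff_sieveCompatible] at hx
  have hK' : Sieve.overEquiv T K ∈ J T.left := (J.mem_over_iff K).1 hK
  have hmem : ∀ {V : C} (j : V ⟶ T.left), Sieve.overEquiv T K j →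
      K (Over.homMk j rfl : Over.mk (j ≫ T.hom) ⟶ T) := fun j hj => by
    rwa [Sieve.overEquiv_iff] at hj
  let fam : Presieve.FamilyOfElements (yoneda.obj G.R) (Sieve.overEquiv T K).arrows :=
    fun V j hj => (x (Over.homMk j rfl : Over.mk (j ≫ T.hom) ⟶ T) (hmem j hj)).down.1
  have hcomp : fam.SieveCompatible := by
    intro V V' j m hj
    have hj2 := (Sieve.overEquiv T K).downward_closed hj m
    let m' : Over.mk ((m ≫ j) ≫ T.hom) ⟶ Over.mk (j ≫ T.hom) := Over.homMk m (by simp)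
    have h1 := hx (Over.homMk j rfl : Over.mk (j ≫ T.hom) ⟶ T) m' (hmem j hj)
    have h2 : m' ≫ (Over.homMk j rfl : Over.mk (j ≫ T.hom) ⟶ T) =
        (Over.homMk (m ≫ j) rfl : Over.mk ((m ≫ j) ≫ T.hom) ⟶ T) := by
      apply Over.OverMorphism.ext
      rfl
    have h3 : x (m' ≫ (Over.homMk j rfl : Over.mk (j ≫ T.hom) ⟶ T))
        (K.downward_closed (hmem j hj) m') =
        x (Over.homMk (m ≫ j) rfl : Over.mk ((m ≫ j) ≫ T.hom) ⟶ T) (hmem _ hj2) := by
      congr 1
    exact congrArg (fun z => z.down.1) (h3.symm.trans h1)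
  rw [← Presieve.compatible_iff_sieveCompatible] at hcomp
  obtain ⟨g, hg, hgu⟩ := (GrothendieckTopology.Subcanonical.isSheaf_of_isRepresentable (J := J)
    (yoneda.obj G.R)) _ hK' _ hcomp
  have hg' : ∀ {V : C} (j : V ⟶ T.left) (hj : Sieve.overEquiv T K j),
      j ≫ g = (x (Over.homMk j rfl : Over.mk (j ≫ T.hom) ⟶ T) (hmem j hj)).down.1 :=
    fun j hj => hg j hj
  have hall : ∀ {T' : Over S} (k : T' ⟶ T) (hk : K k), k.left ≫ g = (x k hk).down.1 := by
    intro T' k hk
    let m : Over.mk (k.left ≫ T.hom) ⟶ T' := Over.homMk (𝟙 _) (by simp)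
    have hm : m ≫ k = (Over.homMk k.left rfl : Over.mk (k.left ≫ T.hom) ⟶ T) := by
      apply Over.OverMorphism.ext
      simp [m]
    have hk2 : Sieve.overEquiv T K k.left := by
      rw [Sieve.overEquiv_iff, ← hm]
      exact K.downward_closed hk m
    rw [hg' k.left hk2]
    have h1 := hx k m hk
    have h2 : x (m ≫ k) (K.downward_closed hk m) =
        x (Over.homMk k.left rfl : Over.mk (k.left ≫ T.hom) ⟶ T) (hmem _ hk2) := by
      congr 1
    rw [← h2, h1, trivP_map]
    exact Category.id_comp _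
  refine ⟨⟨⟨g, ?_⟩⟩, ?_, ?_⟩
  · refine hom_ext_of_cover hK' fun V j hj => ?_
    have h1 := (x (Over.homMk j rfl : Over.mk (j ≫ T.hom) ⟶ T) (hmem j hj)).down.2
    rw [← Category.assoc, hg' j hj, h1]
    change (j ≫ T.hom) ≫ a = j ≫ T.hom ≫ a
    simp
  · intro T' k hk
    apply trivP_ext
    rw [trivP_map]
    exact hall k hk
  · intro g' hg''
    apply trivP_ext
    change g'.down.1 = g
    refine hom_ext_of_cover hK' fun V j hj => ?_
    rw [hg' j hj, ← hg'' _ (hmem j hj), trivP_map]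
    rfl

/-- The trivial torsor attached to a map to the object of objects. -/
def triv {S : C} (a : S ⟶ G.U) : Tors G J S where
  P := trivP G a
  isSheaf := trivP_isSheaf G J a
  a {T} g := g.down.1 ≫ G.t
  a_nat {T T'} k g := by
    change (k.left ≫ g.down.1) ≫ G.t = k.left ≫ g.down.1 ≫ G.t
    simp
  r {T} g h := G.comp (g.down.1 ≫ G.inv) h.down.1
    (by rw [Category.assoc, G.inv_t, g.down.2, h.down.2])
  r_nat {T T'} k g h := by
    rw [G.comp_nat]
    apply G.comp_congr
    · change (k.left ≫ g.down.1) ≫ G.inv = k.left ≫ g.down.1 ≫ G.inv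
      simp
    · rfl
  r_s {T} g h := by rw [G.comp_s, Category.assoc, G.inv_s]
  r_t {T} g h := by rw [G.comp_t]
  r_comp {T} g h k := by
    rw [G.assoc _ _ _ _ (by rw [G.comp_s, Category.assoc, G.inv_s])]
    apply G.comp_congr rfl
    exact G.comp_cancel_inv _ _ (by rw [h.down.2, k.down.2])
  trans {T} g k hk := by
    refine ⟨⟨⟨G.comp g.down.1 k hk.symm, by rw [G.comp_s, g.down.2]⟩⟩, ?_, ?_⟩
    · exact G.comp_inv_cancel _ _ _
    · intro g' hg'
      apply ULift.ext
      apply Subtype.ext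
      change g'.down.1 = G.comp g.down.1 k hk.symm
      change G.comp (g.down.1 ≫ G.inv) g'.down.1 _ = k at hg'
      have h1 := G.comp_cancel_inv g.down.1 g'.down.1 (by rw [g.down.2, g'.down.2])
      rw [← h1]
      exact G.comp_congr rfl hg' _
  locally := ⟨⊤, J.top_mem _, fun Y k _ => ⟨⟨⟨k ≫ a ≫ G.e, by
    rw [Category.assoc, Category.assoc, G.e_s, Category.comp_id]; rfl⟩⟩⟩⟩

end Stk90
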